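import Pool.Agent.H.MP_43e44c_ag.IR.Grp

/-!
A criterion for mixed pairs: no square in the composita of the conjugates of the real subfield.
-/

set_option autoImplicit false

open NumberField Module

namespace Pool.MP43e44c.IR

variable {K : Type*} [Field K] [NumberField K] [IsCMField K]

theorem conj_apply_real (φ : K →+* ℂ) {x : K} (hx : x ∈ maximalRealSubfield K) :
    ComplexEmbedding.conjugate φ x = φ x := by
  have h1 : IsCMField.complexConj K x = x := (IsCMField.complexConj_eq_self_iff K x).2 hx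
  have h2 := IsCMField.complexEmbedding_complexConj K φ x
  rw [h1] at h2
  exact h2.symm

theorem conj_apply_odd (φ : K →+* ℂ) {a : K} (ha : IsCMField.complexConj K a = -a) :
    ComplexEmbedding.conjugate φ a = -φ a := by
  have h2 := IsCMField.complexEmbedding_complexConj K φ a
  rw [ha, map_neg] at h2
  exact h2.symm

theorem ext_real {a : K} (ha : IsCMField.complexConj K a = -a) (ha0 : a ≠ 0) {φ ψ : K →+* ℂ}
    (h : ∀ x ∈ maximalRealSubfield K, φ x = ψ x) (h' : φ a = ψ a) : φ = ψ := by
  ext k
  have hu : (k + IsCMField.complexConj K k) / 2 ∈ maximalRealSubfield K := by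
    rw [← IsCMField.complexConj_eq_self_iff, map_div₀, map_add,
      IsCMField.complexConj_apply_apply, map_ofNat, add_comm]
  have hv : (k - IsCMField.complexConj K k) / (2 * a) ∈ maximalRealSubfield K := by
    rw [← IsCMField.complexConj_eq_self_iff, map_div₀, map_sub,
      IsCMField.complexConj_apply_apply, map_mul, map_ofNat, ha, mul_neg, div_neg, ← neg_div,
      neg_sub]
  have hk : k = (k + IsCMField.complexConj K k) / 2 +
      (k - IsCMField.complexConj K k) / (2 * a) * a := by
    field_simp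
    ring
  have e1 := h _ hu
  have e2 := h _ hv
  rw [hk, map_add, map_mul, map_add, map_mul, e1, e2, h']

theorem ext_conj {a : K} (ha : IsCMField.complexConj K a = -a) (ha0 : a ≠ 0) {φ ψ : K →+* ℂ}
    (h : ∀ x ∈ maximalRealSubfield K, φ x = ψ x) (h' : φ a = -ψ a) :
    φ = ComplexEmbedding.conjugate ψ := by
  refine ext_real ha ha0 (fun x hx => ?_) ?_
  · rw [conj_apply_real ψ hx]
    exact h x hx
  · rw [conj_apply_odd ψ ha]
    exact h'

/-- If `conj a = -a` and `τ(a²) t(a²)` is not a square in the compositum of `τ(F)` and `t(F)`, `F` the maximal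
real subfield, for embeddings `τ, t` at different places, then the pairs of embeddings are mixed. -/
theorem mixed_of_nonsquare {a : K} (ha : IsCMField.complexConj K a = -a)
    (h : ∀ τ t : K →+* ℂ, t ≠ τ → t ≠ ComplexEmbedding.conjugate τ →
      ∀ x ∈ (maximalRealSubfield K).map τ ⊔ (maximalRealSubfield K).map t,
        x ^ 2 ≠ τ (a ^ 2) * t (a ^ 2)) : MixedPairs K := by
  intro τ t h1 h2
  by_contra hcon
  push Not at hcon
  obtain ⟨T, hT⟩ : ∃ T, T = (maximalRealSubfield K).map τ ⊔ (maximalRealSubfield K).map t :=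
    ⟨_, rfl⟩
  have hno : ∀ g : GG K, g • τ = τ → g • t ≠ ComplexEmbedding.conjugate t := by
    intro g h3 h4
    obtain ⟨σ, hσ⟩ := exists_autC g
    exact (hcon σ).1 (by rw [hσ]; exact h3) (by rw [hσ]; exact h4)
  have ha0 : a ≠ 0 := by
    intro h0
    refine h τ t h1 h2 0 (zero_mem _) ?_
    rw [h0]
    simp
  have ha2 : a ^ 2 ∈ maximalRealSubfield K := by
    rw [← IsCMField.complexConj_eq_self_iff, map_pow, ha, neg_sq]
  obtain ⟨S, hS⟩ : ∃ S : Set (GC K), S = {y | ∃ x ∈ maximalRealSubfield K, y = lft τ x ∨ y = lft t x} :=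
    ⟨_, rfl⟩
  obtain ⟨E', hE'⟩ : ∃ E' : IntermediateField ℚ (GC K), E' = IntermediateField.adjoin ℚ S :=
    ⟨_, rfl⟩
  have hγ : lft τ a * lft t a ∈ E' := by
    rw [← IsGalois.fixedField_fixingSubgroup E', IntermediateField.mem_fixedField_iff]
    intro g hg
    rw [IntermediateField.mem_fixingSubgroup_iff] at hg
    have hfix : ∀ y ∈ S, g y = y := fun y hy => hg y (by
      rw [hE']
      exact IntermediateField.subset_adjoin ℚ S hy)
    have hτ : ∀ x ∈ maximalRealSubfield K, (g • τ) x = τ x := fun x hx => by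
      rw [smul_apply, hfix _ (by rw [hS]; exact ⟨x, hx, Or.inl rfl⟩), coe_lft]
    have ht : ∀ x ∈ maximalRealSubfield K, (g • t) x = t x := fun x hx => by
      rw [smul_apply, hfix _ (by rw [hS]; exact ⟨x, hx, Or.inr rfl⟩), coe_lft]
    have hsq : ∀ φ : K →+* ℂ, (∀ x ∈ maximalRealSubfield K, (g • φ) x = φ x) →
        (g • φ) a = φ a ∨ (g • φ) a = -φ a := by
      intro φ hφ
      have h3 := hφ _ ha2
      rw [map_pow, map_pow] at h3
      exact sq_eq_sq_iff_eq_or_eq_neg.1 h3
    have hval : (((g (lft τ a * lft t a) : GC K)) : ℂ) = (g • τ) a * (g • t) a := by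
      rw [map_mul]
      rfl
    have hval' : (((lft τ a * lft t a : GC K)) : ℂ) = τ a * t a := rfl
    apply Subtype.ext
    rw [hval, hval']
    rcases hsq τ hτ with h3 | h3 <;> rcases hsq t ht with h4 | h4
    · rw [h3, h4]
    · exact absurd (ext_conj ha ha0 ht h4) (hno g (ext_real ha ha0 hτ h3))
    · exfalso
      have h5 : (conjG K * g) • τ = τ := by
        rw [mul_smul, ext_conj ha ha0 hτ h3, conjG_smul]
        exact PE.cj_cj τ
      refine hno _ h5 ?_
      rw [mul_smul, ext_real ha ha0 ht h4, conjG_smul]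
    · rw [h3, h4, neg_mul_neg]
  have hmem : ∀ y ∈ E', ((y : GC K) : ℂ) ∈ T := by
    intro y hy
    rw [hE'] at hy
    induction hy using IntermediateField.adjoin_induction with
    | mem y hy =>
      rw [hS] at hy
      obtain ⟨x, hx, rfl | rfl⟩ := hy
      · rw [coe_lft, hT]
        exact (le_sup_left : (maximalRealSubfield K).map τ ≤ _) ⟨x, hx, rfl⟩
      · rw [coe_lft, hT]
        exact (le_sup_right : (maximalRealSubfield K).map t ≤ _) ⟨x, hx, rfl⟩
    | algebraMap q =>
      have h3 : ((algebraMap ℚ (GC K) q : GC K) : ℂ) = (q : ℂ) := by simp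
      rw [h3]
      exact SubfieldClass.ratCast_mem T q
    | add x y _ _ hx hy => exact add_mem hx hy
    | inv x _ hx => exact inv_mem hx
    | mul x y _ _ hx hy => exact mul_mem hx hy
  have hx := hmem _ hγ
  rw [hT] at hx
  refine h τ t h1 h2 _ hx ?_
  have hval' : (((lft τ a * lft t a : GC K)) : ℂ) = τ a * t a := rfl
  rw [hval', map_pow, map_pow, mul_pow]

end Pool.MP43e44c.IR
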