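import Pool.Agent.H.MP_43e44c_ag.IR.Irr

/-!
Criteria for the irreducibility of the odd functions.
-/

set_option autoImplicit false

open NumberField Module Polynomial

namespace Pool.MP43e44c.IR

open NT

variable {K : Type*} [Field K] [NumberField K] [IsCMField K]

theorem irr_of_mixed (h : MixedPairs K) : OddIrreducible K := by
  intro W hW hG h0 z hz
  refine mem_of_mix (G := GG K) (cc_field (K := K)) (mix_of_mixed h) (W := W)
    (fun z hz x => by rw [conjG_smul]; exact hW z hz x) (fun z hz g => ?_) h0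
    (fun x => by rw [conjG_smul]; exact hz x)
  obtain ⟨σ, hσ⟩ := exists_autC g
  have h1 := hG z hz σ
  simpa only [hσ] using h1

/-- The number of places: the odd functions form a space of dimension `n`. -/
theorem finrank_odd (Φ : Finset (K →+* ℂ)) (hΦ : IsCMType Φ) :
    2 * finrank ℚ (spanOdd (conjG K) (K →+* ℂ)) = finrank ℚ K := by
  rw [← NumberField.Embeddings.card K ℂ]
  exact span_finrank_odd (cc_field (K := K)) (P := Φ) fun x => by rw [conjG_smul]; exact hΦ x

theorem exists_type : ∃ Φ : Finset (K →+* ℂ), IsCMType Φ := by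
  classical
  have h1 : ∀ w : InfinitePlace K, ComplexEmbedding.conjugate w.embedding ≠ w.embedding :=
    fun w => PE.cj_ne _
  refine ⟨Finset.univ.filter fun φ : K →+* ℂ => (InfinitePlace.mk φ).embedding = φ, fun φ => ?_⟩
  rw [Finset.mem_filter, Finset.mem_filter, InfinitePlace.mk_conjugate_eq]
  simp only [Finset.mem_univ, true_and]
  rcases InfinitePlace.mk_eq_iff.1 (InfinitePlace.mk_embedding (InfinitePlace.mk φ)) with h | h
  · rw [h]
    constructor
    · intro _ h2
      exact PE.cj_ne φ h2.symm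
    · intro _
      rfl
  · have h2 : (InfinitePlace.mk φ).embedding = ComplexEmbedding.conjugate φ := by
      have h4 : PE.cj (PE.cj (InfinitePlace.mk φ).embedding) = PE.cj φ := congrArg PE.cj h
      rw [PE.cj_cj] at h4
      exact h4
    rw [h2]
    constructor
    · intro h3
      exact absurd h3 (PE.cj_ne φ)
    · intro h3
      exact absurd rfl h3

/-- Linear algebra: an operator with `T^n = -1`, `n` a power of two, on a rational vector space of dimension `n` has
no invariant subspaces. -/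
theorem cyc_lin {V : Type*} [AddCommGroup V] [Module ℚ V] [FiniteDimensional ℚ V] {r : ℕ}
    (hd : finrank ℚ V = 2 ^ r) {T : Module.End ℚ V} (hT : T ^ (2 ^ r) = -1)
    {W : Submodule ℚ V} (hW : ∀ w ∈ W, T w ∈ W) (h0 : W ≠ ⊥) : W = ⊤ := by
  obtain ⟨w, hw, hw0⟩ := (Submodule.ne_bot_iff W).1 h0
  have hirr : Irreducible (X ^ (2 ^ r) + 1 : ℚ[X]) := by
    have h1 : (X ^ (2 ^ r) + 1 : ℚ[X]) = cyclotomic (2 ^ (r + 1)) ℚ := by
      rw [cyclotomic_prime_pow_eq_geom_sum Nat.prime_two, Finset.sum_range_succ,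
        Finset.sum_range_one, pow_zero, pow_one, add_comm]
    rw [h1]
    exact cyclotomic.irreducible_rat (by positivity)
  have haev : aeval T (X ^ (2 ^ r) + 1 : ℚ[X]) = 0 := by
    rw [map_add, map_pow, aeval_X, map_one, hT, neg_add_cancel]
  have hpow : ∀ i : ℕ, (T ^ i) w ∈ W := by
    intro i
    induction i with
    | zero => simpa using hw
    | succ i ih =>
      rw [pow_succ', Module.End.mul_apply]
      exact hW _ ih
  have hli : LinearIndependent ℚ (fun i : Fin (2 ^ r) => (T ^ (i : ℕ)) w) := by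
    rw [Fintype.linearIndependent_iff]
    intro g hg i
    by_contra hi
    obtain ⟨p, hp⟩ : ∃ p : ℚ[X], p = ∑ i : Fin (2 ^ r), C (g i) * X ^ (i : ℕ) := ⟨_, rfl⟩
    have hpw : aeval T p w = 0 := by
      rw [← hg, hp, map_sum, LinearMap.sum_apply]
      refine Finset.sum_congr rfl fun i _ => ?_
      rw [map_mul, aeval_C, map_pow, aeval_X, Module.End.mul_apply, Module.algebraMap_end_apply]
    have hcoef : p.coeff i = g i := by
      rw [hp, finsetSum_coeff, Finset.sum_eq_single i]
      · rw [coeff_C_mul, coeff_X_pow, if_pos rfl, mul_one]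
      · intro j _ hj
        rw [coeff_C_mul, coeff_X_pow, if_neg (fun h => hj (Fin.ext h.symm)), mul_zero]
      · intro h
        exact absurd (Finset.mem_univ i) h
    have hp0 : p ≠ 0 := by
      intro h
      rw [h, coeff_zero] at hcoef
      exact hi hcoef.symm
    have hdeg : p.natDegree < 2 ^ r := by
      rw [hp]
      refine lt_of_le_of_lt (natDegree_sum_le_of_forall_le (n := 2 ^ r - 1) Finset.univ _
        fun j _ => ?_) (Nat.sub_lt (by positivity) one_pos)
      exact (natDegree_C_mul_X_pow_le _ _).trans (by omega)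
    have hnd : ¬ (X ^ (2 ^ r) + 1 : ℚ[X]) ∣ p := by
      intro h
      have h2 := natDegree_le_of_dvd h hp0
      rw [← C_1, natDegree_X_pow_add_C] at h2
      omega
    have hco : IsCoprime (X ^ (2 ^ r) + 1 : ℚ[X]) p := hirr.coprime_iff_not_dvd.2 hnd
    have h4 : (aeval T (X ^ (2 ^ r) + 1 : ℚ[X])) w = 0 := by rw [haev, LinearMap.zero_apply]
    generalize (X ^ (2 ^ r) + 1 : ℚ[X]) = Q at hco h4
    obtain ⟨a, b, hab⟩ := hco
    apply hw0
    have h3 := congrArg (fun q => aeval T q w) hab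
    simp only [map_add, map_mul, LinearMap.add_apply, Module.End.mul_apply, hpw, h4, map_zero,
      add_zero, map_one, Module.End.one_apply] at h3
    exact h3.symm
  have hspan : Submodule.span ℚ (Set.range fun i : Fin (2 ^ r) => (T ^ (i : ℕ)) w) = ⊤ :=
    hli.span_eq_top_of_card_eq_finrank' (by rw [Fintype.card_fin, hd])
  rw [eq_top_iff, ← hspan, Submodule.span_le]
  rintro _ ⟨i, rfl⟩
  exact hpow i

/-- Cyclic CM fields of degree a power of two. -/
theorem irr_of_cyclic [IsGalois ℚ K] [IsCyclic (K ≃ₐ[ℚ] K)] {r : ℕ} (hr : finrank ℚ K = 2 ^ r) :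
    OddIrreducible K := by
  intro W hW hG h0
  obtain ⟨γ, hγ⟩ := IsCyclic.exists_generator (α := K ≃ₐ[ℚ] K)
  obtain ⟨τ₀⟩ : Nonempty (K →+* ℂ) := inferInstance
  have hcard : Nat.card (K ≃ₐ[ℚ] K) = 2 ^ r := by rw [IsGalois.card_aut_eq_finrank, hr]
  have hord : orderOf γ = 2 ^ r := by
    rw [← hcard]
    exact orderOf_eq_card_of_forall_mem_zpowers hγ
  obtain ⟨c, hc⟩ : ∃ c : K ≃ₐ[ℚ] K, ∀ x, c x = IsCMField.complexConj K x :=
    ⟨(IsCMField.complexConj K).restrictScalars ℚ, fun _ => rfl⟩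
  have hc2 : c * c = 1 := by
    ext x
    show c (c x) = x
    rw [hc, hc, IsCMField.complexConj_apply_apply]
  have hc1 : c ≠ 1 := by
    intro h
    apply IsCMField.complexConj_ne_one K
    ext x
    rw [← hc, h]
    rfl
  obtain ⟨s, rfl⟩ : ∃ s, r = s + 1 := by
    rcases Nat.eq_zero_or_pos r with h | h
    · exfalso
      apply hc1
      rw [h, pow_zero, Nat.card_eq_one_iff_unique] at hcard
      exact hcard.1.elim _ _
    · exact ⟨r - 1, by omega⟩
  -- the involution
  have hγc : γ ^ (2 ^ s) = c := by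
    obtain ⟨k, hk⟩ := (Submonoid.mem_powers_iff c γ).1 (mem_powers_iff_mem_zpowers.2 (hγ c))
    have h1 : orderOf γ ∣ 2 * k := by
      apply orderOf_dvd_of_pow_eq_one
      rw [mul_comm, pow_mul, hk, pow_two, hc2]
    rw [hord, pow_succ, mul_comm (2 ^ s)] at h1
    obtain ⟨j, hj⟩ := Nat.dvd_of_mul_dvd_mul_left (by norm_num : 0 < 2) h1
    rcases Nat.even_or_odd j with ⟨i, hi⟩ | ⟨i, hi⟩
    · exfalso
      apply hc1
      rw [← hk, hj, hi, ← two_mul, ← mul_assoc, ← pow_succ, pow_mul, ← hord, pow_orderOf_eq_one,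
        one_pow]
    · rw [← hk, hj, hi, mul_add, mul_one, ← mul_assoc, ← pow_succ, pow_add, pow_mul, ← hord,
        pow_orderOf_eq_one, one_pow, one_mul]
  -- the operator on the odd functions
  obtain ⟨Φ, hΦ⟩ := exists_type (K := K)
  have hfr := finrank_odd Φ hΦ
  have hmem : ∀ z : (K →+* ℂ) → ℚ, z ∈ spanOdd (conjG K) (K →+* ℂ) ↔
      ∀ τ, z (ComplexEmbedding.conjugate τ) = -z τ := by
    intro z
    rw [span_mem_odd]
    exact forall_congr' fun τ => by rw [conjG_smul]
  obtain ⟨t, ht⟩ : ∃ t : (K →+* ℂ) → (K →+* ℂ), ∀ τ, t τ = τ.comp (γ : K →+* K) :=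
    ⟨_, fun _ => rfl⟩
  have htc : ∀ τ, t (ComplexEmbedding.conjugate τ) = ComplexEmbedding.conjugate (t τ) := by
    intro τ
    rw [ht, ht]
    rfl
  have htn : ∀ (i : ℕ) τ, t^[i] τ = τ.comp ((γ ^ i : K ≃ₐ[ℚ] K) : K →+* K) := by
    intro i
    induction i with
    | zero => intro τ; rfl
    | succ i ih =>
      intro τ
      rw [Function.iterate_succ_apply, ih, ht]
      ext x
      show τ (γ ((γ ^ i : K ≃ₐ[ℚ] K) x)) = τ ((γ ^ (i + 1) : K ≃ₐ[ℚ] K) x)
      rw [pow_succ', AlgEquiv.mul_apply]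
  have hconj : ∀ τ, t^[2 ^ s] τ = ComplexEmbedding.conjugate τ := by
    intro τ
    rw [htn, hγc]
    ext x
    show τ (c x) = starRingEnd ℂ (τ x)
    rw [hc, IsCMField.complexEmbedding_complexConj]
  let T : Module.End ℚ (spanOdd (conjG K) (K →+* ℂ)) :=
    { toFun := fun z => ⟨fun τ => z.1 (t τ), (hmem _).2 fun τ => by
        rw [htc]
        exact (hmem _).1 z.2 _⟩
      map_add' := fun _ _ => rfl
      map_smul' := fun _ _ => rfl }
  have hTi : ∀ (i : ℕ) (z : spanOdd (conjG K) (K →+* ℂ)) τ, ((T ^ i) z).1 τ = z.1 (t^[i] τ) := by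
    intro i
    induction i with
    | zero => intro z τ; rfl
    | succ i ih =>
      intro z τ
      rw [pow_succ, Module.End.mul_apply, ih, Function.iterate_succ_apply']
      rfl
  have hT : T ^ (2 ^ s) = -1 := by
    refine LinearMap.ext fun z => Subtype.ext (funext fun τ => ?_)
    rw [hTi, hconj, (hmem _).1 z.2]
    rfl
  -- automorphisms of ℂ
  obtain ⟨σ, hσ⟩ := PE.exists_aut τ₀ (t τ₀)
  have hcomm : ∀ a b : K ≃ₐ[ℚ] K, a * b = b * a := fun a b =>
    (IsCyclic.commGroup (α := K ≃ₐ[ℚ] K)).mul_comm a b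
  have hσt : ∀ τ : K →+* ℂ, (σ : ℂ →+* ℂ).comp τ = t τ := by
    intro τ
    obtain ⟨a, ha⟩ : ∃ a : K ≃ₐ[ℚ] K, τ₀.comp (a : K →+* K) = τ := by
      have hinj : Function.Injective (fun a : K ≃ₐ[ℚ] K => τ₀.comp (a : K →+* K)) := by
        intro a b hab
        ext x
        apply τ₀.injective
        exact congrArg (fun g : K →+* ℂ => g x) hab
      have hb := hinj.bijective_of_nat_card_le (by
        rw [hcard, Nat.card_eq_fintype_card, NumberField.Embeddings.card K ℂ, hr])
      exact hb.2 τ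
    rw [← ha, ht]
    ext x
    show σ (τ₀ (a x)) = τ₀ (a (γ x))
    have h1 : σ (τ₀ (a x)) = (t τ₀) (a x) := congrArg (fun g : K →+* ℂ => g (a x)) hσ
    have h2 : γ (a x) = a (γ x) := congrArg (fun g : K ≃ₐ[ℚ] K => g x) (hcomm γ a)
    rw [h1, ht]
    show τ₀ (γ (a x)) = _
    rw [h2]
  have hW' : W.comap (spanOdd (conjG K) (K →+* ℂ)).subtype = ⊤ := by
    refine cyc_lin (r := s) ?_ hT ?_ ?_
    · rw [hr, pow_succ] at hfr
      omega
    · intro z hz
      rw [Submodule.mem_comap] at hz ⊢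
      have h1 := hG _ hz σ
      simp only [hσt] at h1
      exact h1
    · intro h
      apply h0
      rw [eq_bot_iff]
      intro w hw
      have h1 : (⟨w, (hmem w).2 (hW w hw)⟩ : spanOdd (conjG K) (K →+* ℂ)) ∈
          W.comap (spanOdd (conjG K) (K →+* ℂ)).subtype := hw
      rw [h, Submodule.mem_bot] at h1
      exact (Submodule.mem_bot ℚ).2 (congrArg Subtype.val h1)
  intro z hz
  have h1 : (⟨z, (hmem z).2 hz⟩ : spanOdd (conjG K) (K →+* ℂ)) ∈
      W.comap (spanOdd (conjG K) (K →+* ℂ)).subtype := by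
    rw [hW']
    exact Submodule.mem_top
  exact h1

end Pool.MP43e44c.IR
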