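import Pool.Agent.H.MP_43e44c_ag.IR.Prime

/-!
Abelian varieties of dimension `n` times an odd prime with endomorphism field `K`, `[K : ℚ] = 2 n`.
-/

set_option autoImplicit false

open NumberField Module Matrix

namespace Pool.MP43e44c.IR

open PE

variable {K : Type*} [Field K] [NumberField K] [IsCMField K]
variable {E : Type*} [AddCommGroup E] [Module ℂ E] [Module ℝ E] [IsScalarTower ℝ ℂ E]

/-- The sum of conjugate multiplicities is `2 dim A / [K : ℚ]`. -/
theorem sum_of_dim {Λ : AddSubgroup E} {ι : K →+* Module.End ℂ E} (h : HasEndK Λ ι) {N : ℕ}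
    (hN : 2 * finrank ℂ E = N * finrank ℚ K) (τ : K →+* ℂ) :
    mult ι τ + mult ι (cj τ) = N := by
  obtain ⟨m, b, hΛ⟩ := h.lat
  obtain ⟨ψ, hψ⟩ := h.pol
  obtain ⟨D, hD⟩ := exists_repr (K := K) b hΛ hψ h.endo
  have hmul : ∀ τ, D.mul τ = mult ι τ := mul_eq_mult hD
  have h1 : m = finrank ℚ K * (mult ι τ + mult ι (cj τ)) :=
    dim_eq D _ fun t => by rw [hmul, hmul]; exact mult_add_mult h t τ
  have h2 : finrank ℝ E = m := by rw [finrank_eq_card_basis b, Fintype.card_fin]
  have h3 : 2 * finrank ℂ E = finrank ℝ E := by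
    rw [← Complex.finrank_real_complex]
    exact finrank_mul_finrank ℝ ℂ E
  have h4 : 0 < finrank ℚ K := finrank_pos
  rw [h3, h2, h1, mul_comm N] at hN
  exact Nat.eq_of_mul_eq_mul_left h4 hN

/-- Not all places are definite. -/
theorem exists_indef {Λ : AddSubgroup E} {ι : K →+* Module.End ℂ E} (h : HasEndK Λ ι) {N : ℕ}
    (hN : ∀ τ, mult ι τ + mult ι (cj τ) = N) (h2 : 2 ≤ N) :
    ∃ τ, 0 < mult ι τ ∧ 0 < mult ι (cj τ) := by
  obtain ⟨m, b, hΛ⟩ := h.lat
  obtain ⟨ψ, hψ⟩ := h.pol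
  obtain ⟨D, hD⟩ := exists_repr (K := K) b hΛ hψ h.endo
  have hmul : ∀ τ, D.mul τ = mult ι τ := mul_eq_mult hD
  by_contra hcon
  push Not at hcon
  have h3 := le_one_of_def D (N := N) (fun τ => by
    rw [hmul, hmul]
    rcases Nat.eq_zero_or_pos (mult ι τ) with h4 | h4
    · exact Or.inl h4
    · exact Or.inr (Nat.le_zero.1 (hcon τ h4))) (fun τ => by rw [hmul, hmul]; exact hN τ)
  omega

/-- If `2 dim A / [K : ℚ]` is one or an odd prime then there is a place with coprime different multiplicities. -/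
theorem exists_coprime {Λ : AddSubgroup E} {ι : K →+* Module.End ℂ E} (h : HasEndK Λ ι) {N : ℕ}
    (hN : 2 * finrank ℂ E = N * finrank ℚ K) (hp : N = 1 ∨ N.Prime ∧ N ≠ 2) :
    ∃ τ, Nat.Coprime (mult ι τ) (mult ι (cj τ)) ∧ mult ι τ ≠ mult ι (cj τ) := by
  have h1 := sum_of_dim h hN
  rcases hp with rfl | ⟨hp, h2⟩
  · obtain ⟨τ⟩ : Nonempty (K →+* ℂ) := inferInstance
    refine ⟨τ, ?_, fun h3 => ?_⟩
    · have h3 := h1 τ
      rcases Nat.eq_zero_or_pos (mult ι τ) with h4 | h4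
      · rw [h4, Nat.coprime_zero_left]
        omega
      · have h5 : mult ι τ = 1 := by omega
        rw [h5]
        exact Nat.coprime_one_left _
    · have h4 := h1 τ
      omega
  · obtain ⟨τ, h3, h4⟩ := exists_indef h h1 hp.two_le
    refine ⟨τ, ?_, fun h5 => ?_⟩
    · have h5 := h1 τ
      have h6 : Nat.Coprime (mult ι τ) N :=
        ((Nat.Prime.coprime_iff_not_dvd hp).2 (Nat.not_dvd_of_pos_of_lt h3 (by omega))).symm
      rw [← h5] at h6
      rwa [Nat.coprime_self_add_right] at h6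
    · have h6 := h1 τ
      rw [← h5] at h6
      rcases hp.eq_two_or_odd with h7 | h7
      · exact h2 h7
      · omega

end Pool.MP43e44c.IR
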