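import Mathlib

/-!
Generic complex points.
-/

set_option autoImplicit false

open MvPolynomial Cardinal

namespace Pool.MP43e44c.IR

/-- The field of algebraic numbers. -/
abbrev Qa : Type := algebraicClosure ℚ ℂ

theorem exists_generic (J : Type*) [Finite J] : ∃ v : J → ℂ, AlgebraicIndependent Qa v := by
  obtain ⟨s, hs⟩ := exists_isTranscendenceBasis Qa ℂ
  have hinf : Infinite s := by
    by_contra h
    rw [not_infinite_iff_finite] at h
    have h1 := IsAlgClosed.cardinal_le_max_transcendence_basis' _ hs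
    have h5 : Algebra.IsAlgebraic ℚ Qa := ⟨fun x => by
      have h6 : IsAlgebraic ℚ (x : ℂ) := mem_algebraicClosure_iff.1 x.2
      exact (isAlgebraic_algebraMap_iff (algebraMap Qa ℂ).injective).1 h6⟩
    have h2 : #Qa ≤ ℵ₀ := (Algebra.IsAlgebraic.cardinalMk_le_max ℚ Qa).trans (by simp)
    have h3 : #s ≤ ℵ₀ := Cardinal.mk_le_aleph0_iff.2 inferInstance
    have h4 : #ℂ ≤ ℵ₀ := h1.trans (max_le (max_le h2 h3) le_rfl)
    rw [Cardinal.mk_complex] at h4
    exact absurd h4 (not_le.2 Cardinal.aleph0_lt_continuum)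
  obtain ⟨n, ⟨e⟩⟩ := Finite.exists_equiv_fin J
  have f : ℕ ↪ s := Infinite.natEmbedding s
  exact ⟨fun j => (f (e j) : ℂ), hs.1.comp (fun j => f (e j))
    (f.injective.comp (Fin.val_injective.comp e.injective))⟩

variable {J : Type*}

theorem spec {v : J → ℂ} (hv : AlgebraicIndependent Qa v) {n : ℕ} (hn : n ≠ 0)
    {F : MvPolynomial J Qa} (h : aeval (fun i => v i / n) F = 0) (w : J → ℂ) :
    aeval w F = 0 := by
  have hn' : (n : ℂ) ≠ 0 := Nat.cast_ne_zero.2 hn
  obtain ⟨φ, hφ⟩ : ∃ φ : MvPolynomial J Qa →ₐ[Qa] MvPolynomial J Qa,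
      φ = aeval fun i => C ((n : Qa)⁻¹) * X i := ⟨_, rfl⟩
  have h1 : ∀ u : J → ℂ, aeval u (φ F) = aeval (fun i => u i / n) F := by
    intro u
    rw [hφ, MvPolynomial.comp_aeval_apply]
    congr 2
    funext i
    rw [map_mul, aeval_C, aeval_X, map_inv₀, map_natCast]
    ring
  have h2 : φ F = 0 := by
    apply hv
    rw [h1, h, map_zero]
  have h3 := h1 fun i => n * w i
  rw [h2, map_zero] at h3
  rw [h3]
  congr 1
  congr 1
  funext i
  field_simp

end Pool.MP43e44c.IR
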