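import Pool.Agent.H.MP_43e44c_ag.IR.ExPos
import Pool.Agent.H.MP_43e44c_ag.IR.ExGen

/-!
Rigidity: the matrices which preserve the generic period matrix.
-/

set_option autoImplicit false

open NumberField Module MvPolynomial

namespace Pool.MP43e44c.IR

open PE (cj cj_cj cj_ne)

variable {K : Type*} [Field K] {N : ℕ}

/-- The period matrix with given parameters. -/
noncomputable def zf [DecidableEq (K →+* ℂ)] (δ : Fin N → K) (Φ : Finset (K →+* ℂ))
    (v : (K →+* ℂ) × Fin N × Fin N → ℂ) (τ : K →+* ℂ) (j b : Fin N) : ℂ :=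
  if τ ∈ Φ then v (τ, j, b) else -(τ (δ b) / τ (δ j)) * v (cj τ, b, j)

namespace Per

variable [NumberField K] [IsCMField K] (D : Per K N)

/-- The admissible periods. -/
def Adm (w : (K →+* ℂ) → Fin N → Fin N → ℂ) : Prop :=
  ∀ τ j b, j ∈ D.S τ → b ∉ D.S τ → τ (D.δ b) * w (cj τ) b j = -(τ (D.δ j) * w τ j b)

/-- The relations for the matrix `μ` to preserve the periods `w`. -/
def Rel (w : (K →+* ℂ) → Fin N → Fin N → ℂ)
    (μ : (K →+* ℂ) → Fin N → (K →+* ℂ) → Fin N → ℂ) : Prop :=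
  ∀ τ j σ c, j ∈ D.S τ → c ∉ D.S σ →
    μ τ j σ c + ∑ b ∈ (D.S τ)ᶜ, w τ j b * μ τ b σ c =
      ∑ k ∈ D.S σ, (μ τ j σ k + ∑ b ∈ (D.S τ)ᶜ, w τ j b * μ τ b σ k) * w σ k c

theorem δ_ne0 (τ : K →+* ℂ) (j : Fin N) : τ (D.δ j) ≠ 0 := by
  intro h
  apply D.δ_ne τ j
  rw [h, Complex.zero_im]

theorem δ_cj' (τ : K →+* ℂ) (j : Fin N) : cj τ (D.δ j) = -τ (D.δ j) := D.conj_δ τ j

/-- The relations hold for all admissible periods if they hold for generic ones. -/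
theorem spec_rel [DecidableEq (K →+* ℂ)] {v : (K →+* ℂ) × Fin N × Fin N → ℂ}
    (hv : AlgebraicIndependent Qa v) {n : ℕ} (hn : n ≠ 0) {Φ : Finset (K →+* ℂ)}
    (hz : ∀ τ j b, D.z τ j b = zf D.δ Φ (fun i => v i / n) τ j b)
    {μ : (K →+* ℂ) → Fin N → (K →+* ℂ) → Fin N → ℂ}
    (hμ : ∀ τ b σ c, IsAlgebraic ℚ (μ τ b σ c)) (h : D.Rel D.z μ)
    {w : (K →+* ℂ) → Fin N → Fin N → ℂ} (hw : D.Adm w) : D.Rel w μ := by
  intro τ j σ c hj hc
  have hx : ∀ x : K, ∀ t : K →+* ℂ, IsAlgebraic ℚ (t x) := by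
    intro x t
    have h1 : IsAlgebraic ℚ x := Algebra.IsAlgebraic.isAlgebraic x
    exact h1.algHom (RingHom.equivRatAlgHom K ℂ t)
  choose μ' hμ' using fun τ b σ c => (⟨⟨μ τ b σ c, mem_algebraicClosure_iff.2 (hμ τ b σ c)⟩, rfl⟩ :
    ∃ y : Qa, (y : ℂ) = μ τ b σ c)
  choose κ hκ using fun (t : K →+* ℂ) (j b : Fin N) =>
    (⟨⟨-(t (D.δ b) / t (D.δ j)), mem_algebraicClosure_iff.2
      (((hx _ _).mul (hx _ _).inv).neg)⟩, rfl⟩ :
      ∃ y : Qa, (y : ℂ) = -(t (D.δ b) / t (D.δ j)))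
  obtain ⟨Zp, hZp⟩ : ∃ Zp : (K →+* ℂ) → Fin N → Fin N →
      MvPolynomial ((K →+* ℂ) × Fin N × Fin N) Qa, ∀ t j b, Zp t j b =
      if t ∈ Φ then X (t, j, b) else C (κ t j b) * X (cj t, b, j) := ⟨_, fun _ _ _ => rfl⟩
  have hae : ∀ u t j b, aeval u (Zp t j b) = zf D.δ Φ u t j b := by
    intro u t j b
    rw [hZp, zf]
    split_ifs
    · rw [aeval_X]
    · rw [map_mul, aeval_X, aeval_C]
      congr 1
      exact hκ t j b
  have hC : ∀ u : (K →+* ℂ) × Fin N × Fin N → ℂ, ∀ y : Qa, aeval u (C y) = (y : ℂ) := by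
    intro u y
    rw [aeval_C]
    rfl
  obtain ⟨F, hF⟩ : ∃ F : MvPolynomial ((K →+* ℂ) × Fin N × Fin N) Qa, F =
      (C (μ' τ j σ c) + ∑ b ∈ (D.S τ)ᶜ, Zp τ j b * C (μ' τ b σ c)) -
        ∑ k ∈ D.S σ, (C (μ' τ j σ k) + ∑ b ∈ (D.S τ)ᶜ, Zp τ j b * C (μ' τ b σ k)) * Zp σ k c :=
    ⟨_, rfl⟩
  have haF : ∀ u, aeval u F = (μ τ j σ c + ∑ b ∈ (D.S τ)ᶜ, zf D.δ Φ u τ j b * μ τ b σ c) -
      ∑ k ∈ D.S σ, (μ τ j σ k + ∑ b ∈ (D.S τ)ᶜ, zf D.δ Φ u τ j b * μ τ b σ k) *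
        zf D.δ Φ u σ k c := by
    intro u
    rw [hF]
    simp only [map_sub, map_add, map_sum, map_mul, hC, hae, hμ']
  have h1 : aeval (fun i => v i / n) F = 0 := by
    rw [haF, sub_eq_zero]
    simp only [← hz]
    exact h τ j σ c hj hc
  have h2 := spec hv hn h1 fun i => w i.1 i.2.1 i.2.2
  rw [haF, sub_eq_zero] at h2
  have h3 : ∀ t j b, j ∈ D.S t → b ∉ D.S t →
      zf D.δ Φ (fun i => w i.1 i.2.1 i.2.2) t j b = w t j b := by
    intro t j b hj hb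
    rw [zf]
    by_cases ht : t ∈ Φ
    · rw [if_pos ht]
    · rw [if_neg ht]
      have h4 := hw t j b hj hb
      have h5 := D.δ_ne0 t j
      simp only
      field_simp
      linear_combination -h4
  have h4 : ∀ y, ∑ b ∈ (D.S τ)ᶜ, zf D.δ Φ (fun i => w i.1 i.2.1 i.2.2) τ j b * μ τ b σ y =
      ∑ b ∈ (D.S τ)ᶜ, w τ j b * μ τ b σ y := fun y =>
    Finset.sum_congr rfl fun b hb => by rw [h3 τ j b hj (Finset.mem_compl.1 hb)]
  rw [h4] at h2
  rw [h2]
  refine Finset.sum_congr rfl fun k hk => ?_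
  rw [h4, h3 σ k c hk hc]

/-- An elementary period matrix. -/
noncomputable def El [DecidableEq (K →+* ℂ)] (τ₀ : K →+* ℂ) (j₀ b₀ : Fin N) (t : ℂ)
    (τ : K →+* ℂ) (j b : Fin N) : ℂ :=
  if τ = τ₀ ∧ j = j₀ ∧ b = b₀ then t
  else if τ = cj τ₀ ∧ j = b₀ ∧ b = j₀ then -(τ₀ (D.δ j₀) / τ₀ (D.δ b₀)) * t else 0

variable [DecidableEq (K →+* ℂ)]

theorem El_self (τ₀ : K →+* ℂ) (j₀ b₀ : Fin N) (t : ℂ) : D.El τ₀ j₀ b₀ t τ₀ j₀ b₀ = t := by
  rw [El, if_pos ⟨rfl, rfl, rfl⟩]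

theorem El_ne {τ₀ : K →+* ℂ} {j₀ b₀ : Fin N} {t : ℂ} {τ : K →+* ℂ} {j b : Fin N}
    (h1 : ¬ (τ = τ₀ ∧ j = j₀ ∧ b = b₀)) (h2 : ¬ (τ = cj τ₀ ∧ j = b₀ ∧ b = j₀)) :
    D.El τ₀ j₀ b₀ t τ j b = 0 := by
  rw [El, if_neg h1, if_neg h2]

theorem El_adm (τ₀ : K →+* ℂ) (j₀ b₀ : Fin N) (t : ℂ) : D.Adm (D.El τ₀ j₀ b₀ t) := by
  intro τ j b _ _
  by_cases h1 : τ = τ₀
  · subst h1
    have h2 : τ ≠ cj τ := fun h => cj_ne τ h.symm
    by_cases h3 : j = j₀ ∧ b = b₀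
    · obtain ⟨rfl, rfl⟩ := h3
      rw [El_self, El, if_neg (fun h => h2 h.1.symm), if_pos ⟨rfl, rfl, rfl⟩]
      have h4 := D.δ_ne0 τ b
      field_simp
    · rw [El_ne, El_ne]
      · rw [mul_zero, mul_zero, neg_zero]
      · exact fun h => h3 h.2
      · exact fun h => h2 h.1
      · exact fun h => h2 h.1.symm
      · exact fun h => h3 ⟨h.2.2, h.2.1⟩
  · by_cases h2 : τ = cj τ₀
    · subst h2
      by_cases h3 : j = b₀ ∧ b = j₀
      · obtain ⟨rfl, rfl⟩ := h3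
        rw [cj_cj, El_self, El, if_neg (fun h => h1 h.1), if_pos ⟨rfl, rfl, rfl⟩, D.δ_cj', D.δ_cj']
        have h4 := D.δ_ne0 τ₀ j
        field_simp
      · rw [cj_cj, El_ne, El_ne]
        · rw [mul_zero, mul_zero, neg_zero]
        · exact fun h => h1 h.1
        · exact fun h => h3 h.2
        · exact fun h => h3 ⟨h.2.2, h.2.1⟩
        · exact fun h => h1 h.1.symm
    · rw [El_ne, El_ne]
      · rw [mul_zero, mul_zero, neg_zero]
      · exact fun h => h1 h.1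
      · exact fun h => h2 h.1
      · intro h
        exact h2 (by rw [← h.1, cj_cj])
      · intro h
        apply h1
        have h3 : cj (cj τ) = cj (cj τ₀) := congrArg cj h.1
        rwa [cj_cj, cj_cj] at h3

omit [DecidableEq (K →+* ℂ)] in
theorem Adm.add {D : Per K N} {w w' : (K →+* ℂ) → Fin N → Fin N → ℂ} (h : D.Adm w) (h' : D.Adm w') :
    D.Adm fun τ j b => w τ j b + w' τ j b := by
  intro τ j b hj hb
  have h1 := h τ j b hj hb
  have h2 := h' τ j b hj hb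
  simp only
  linear_combination h1 + h2

omit [DecidableEq (K →+* ℂ)] in
theorem adm_zero : D.Adm fun _ _ _ => 0 := by
  intro τ j b _ _
  simp

theorem rigid (hS : ∀ τ, 2 ≤ (D.S τ).card) {μ : (K →+* ℂ) → Fin N → (K →+* ℂ) → Fin N → ℂ}
    (h : ∀ w, D.Adm w → D.Rel w μ) : ∃ l : (K →+* ℂ) → ℂ, ∀ τ b σ c,
      μ τ b σ c = if τ = σ ∧ b = c then l τ else 0 := by
  -- choices
  have hch : ∀ τ (y : Fin N), ∃ j ∈ D.S τ, j ≠ y := by
    intro τ y
    exact Finset.exists_mem_ne (by have := hS τ; omega) y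
  have hch' : ∀ τ (y : Fin N), ∃ b, b ∉ D.S τ ∧ b ≠ y := by
    intro τ y
    obtain ⟨b, hb, h1⟩ := hch (cj τ) y
    exact ⟨b, (D.S_cj τ b).1 hb, h1⟩
  -- (A)
  have hA : ∀ τ j σ c, j ∈ D.S τ → c ∉ D.S σ → μ τ j σ c = 0 := by
    intro τ j σ c hj hc
    have h1 := h _ D.adm_zero τ j σ c hj hc
    simpa using h1
  -- (B)
  have hB : ∀ τ j σ k, j ∈ D.S τ → k ∈ D.S σ → ¬ (τ = σ ∧ j = k) → μ τ j σ k = 0 := by
    intro τ j σ k hj hk hne
    obtain ⟨c, hc, hcj⟩ := hch' σ j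
    have h1 := h _ (D.El_adm σ k c 1) τ j σ c hj hc
    have h2 : ∀ y, ∑ b ∈ (D.S τ)ᶜ, D.El σ k c 1 τ j b * μ τ b σ y = 0 := fun y =>
      Finset.sum_eq_zero fun b _ => by
        rw [El_ne, zero_mul]
        · exact fun h3 => hne ⟨h3.1, h3.2.1⟩
        · exact fun h3 => hcj h3.2.1.symm
    rw [h2, hA τ j σ c hj hc, add_zero, Finset.sum_eq_single k] at h1
    · rw [h2, El_self, add_zero, mul_one] at h1
      exact h1.symm
    · intro k' _ hk'
      rw [El_ne, mul_zero]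
      · exact fun h3 => hk' h3.2.1
      · exact fun h3 => cj_ne σ h3.1.symm
    · intro h3
      exact absurd hk h3
  -- (C)
  have hC : ∀ τ b σ c, b ∉ D.S τ → c ∉ D.S σ → ¬ (τ = σ ∧ b = c) → μ τ b σ c = 0 := by
    intro τ b σ c hb hc hne
    obtain ⟨j, hj, hjc⟩ := hch τ c
    have h1 := h _ (D.El_adm τ j b 1) τ j σ c hj hc
    rw [hA τ j σ c hj hc, zero_add, Finset.sum_eq_single b] at h1
    · rw [El_self, one_mul] at h1
      rw [h1]
      refine Finset.sum_eq_zero fun k _ => ?_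
      rw [El_ne (τ := σ), mul_zero]
      · exact fun h3 => hne ⟨h3.1.symm, h3.2.2.symm⟩
      · exact fun h3 => hjc h3.2.2.symm
    · intro b' _ hb'
      rw [El_ne, zero_mul]
      · exact fun h3 => hb' h3.2.2
      · exact fun h3 => cj_ne τ h3.1.symm
    · intro h3
      exact absurd (Finset.mem_compl.2 hb) h3
  -- (D1)
  have hD : ∀ τ j b, j ∈ D.S τ → b ∉ D.S τ → μ τ b τ j = 0 ∧ μ τ b τ b = μ τ j τ j := by
    intro τ j b hj hb
    have h1 : ∀ t : ℂ, t * μ τ b τ b = (μ τ j τ j + t * μ τ b τ j) * t := by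
      intro t
      have h2 := h _ (D.El_adm τ j b t) τ j τ b hj hb
      have h3 : ∀ y, ∑ b' ∈ (D.S τ)ᶜ, D.El τ j b t τ j b' * μ τ b' τ y = t * μ τ b τ y := by
        intro y
        rw [Finset.sum_eq_single b]
        · rw [El_self]
        · intro b' _ hb'
          rw [El_ne, zero_mul]
          · exact fun h3 => hb' h3.2.2
          · exact fun h3 => cj_ne τ h3.1.symm
        · intro h3
          exact absurd (Finset.mem_compl.2 hb) h3
      rw [h3, hA τ j τ b hj hb, zero_add, Finset.sum_eq_single j] at h2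
      · rw [h3, El_self] at h2
        exact h2
      · intro k _ hk
        rw [El_ne (τ := τ) (j := k), mul_zero]
        · exact fun h3 => hk h3.2.1
        · exact fun h3 => cj_ne τ h3.1.symm
      · intro h3
        exact absurd hj h3
    have h2 := h1 1
    have h3 := h1 (-1)
    have h4 : μ τ b τ j = 0 := by linear_combination (-1/2 : ℂ) * h2 - (1/2 : ℂ) * h3
    refine ⟨h4, ?_⟩
    rw [h4] at h2
    linear_combination h2
  -- (D2)
  have hE : ∀ τ b σ k, b ∉ D.S τ → k ∈ D.S σ → τ ≠ σ → μ τ b σ k = 0 := by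
    intro τ b σ k hb hk hne
    obtain ⟨c, hc, _⟩ := hch' σ b
    obtain ⟨j, hj, hjc⟩ := hch τ c
    have h1 := h _ (Adm.add (D.El_adm τ j b 1) (D.El_adm σ k c 1)) τ j σ c hj hc
    have h2 : ∀ b' ∈ (D.S τ)ᶜ, (D.El τ j b 1 τ j b' + D.El σ k c 1 τ j b') * μ τ b' σ c = 0 :=
      fun b' hb' => by
        rw [hC τ b' σ c (Finset.mem_compl.1 hb') hc (fun h3 => hne h3.1), mul_zero]
    have h3 : ∀ y, ∑ b' ∈ (D.S τ)ᶜ, (D.El τ j b 1 τ j b' + D.El σ k c 1 τ j b') * μ τ b' σ y =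
        μ τ b σ y := by
      intro y
      rw [Finset.sum_eq_single b]
      · rw [El_self, El_ne (τ₀ := σ), add_zero, one_mul]
        · exact fun h3 => hne h3.1
        · exact fun h3 => hjc h3.2.1
      · intro b' _ hb'
        rw [El_ne (τ₀ := τ), El_ne (τ₀ := σ), add_zero, zero_mul]
        · exact fun h3 => hne h3.1
        · exact fun h3 => hjc h3.2.1
        · exact fun h3 => hb' h3.2.2
        · exact fun h3 => cj_ne τ h3.1.symm
      · intro h3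
        exact absurd (Finset.mem_compl.2 hb) h3
    rw [Finset.sum_eq_zero h2, hA τ j σ c hj hc, add_zero, Finset.sum_eq_single k] at h1
    · rw [h3, hB τ j σ k hj hk (fun h4 => hne h4.1), zero_add, El_self,
        El_ne (τ₀ := τ) (τ := σ), zero_add, mul_one] at h1
      · exact h1.symm
      · exact fun h4 => hne h4.1.symm
      · exact fun h4 => hjc h4.2.2.symm
    · intro k' _ hk'
      rw [El_ne (τ₀ := τ) (τ := σ), El_ne (τ₀ := σ) (τ := σ), add_zero, mul_zero]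
      · exact fun h4 => hk' h4.2.1
      · exact fun h4 => cj_ne σ h4.1.symm
      · exact fun h4 => hne h4.1.symm
      · exact fun h4 => hjc h4.2.2.symm
    · intro h4
      exact absurd hk h4
  -- the conclusion
  choose j₁ hj₁ using fun τ : K →+* ℂ => (Finset.card_pos.1 (by have := hS τ; omega) :
    (D.S τ).Nonempty)
  refine ⟨fun τ => μ τ (j₁ τ) τ (j₁ τ), fun τ b σ c => ?_⟩
  by_cases hne : τ = σ ∧ b = c
  · rw [if_pos hne]
    obtain ⟨rfl, rfl⟩ := hne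
    by_cases hb : b ∈ D.S τ
    · obtain ⟨b', hb', _⟩ := hch' τ b
      rw [← (hD τ b b' hb hb').2, (hD τ (j₁ τ) b' (hj₁ τ) hb').2]
    · exact (hD τ (j₁ τ) b (hj₁ τ) hb).2
  · rw [if_neg hne]
    by_cases hb : b ∈ D.S τ
    · by_cases hc : c ∈ D.S σ
      · exact hB τ b σ c hb hc hne
      · exact hA τ b σ c hb hc
    · by_cases hc : c ∈ D.S σ
      · by_cases hts : τ = σ
        · subst hts
          exact (hD τ c b hc hb).1
        · exact hE τ b σ c hb hc hts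
      · exact hC τ b σ c hb hc hne

end Per

end Pool.MP43e44c.IR
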