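import Pool.Agent.H.MP_43e44c_ag.IR.ExPol
import Pool.Agent.H.MP_43e44c_ag.IR.ExRig
import Pool.Agent.H.MP_43e44c_ag.Emb

/-!
The endomorphisms of the torus of a generic period matrix.
-/

set_option autoImplicit false

open NumberField Module

namespace Pool.MP43e44c.IR

open PE (cj cj_cj cj_ne)

variable {K : Type*} [Field K] [NumberField K] [IsCMField K]

/-- The additive maps are combinations of the embeddings with algebraic coefficients. -/
theorem exists_coef (g : K →ₗ[ℚ] K) (τ : K →+* ℂ) : ∃ μ : (K →+* ℂ) → ℂ,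
    (∀ σ, IsAlgebraic ℚ (μ σ)) ∧ ∀ x, τ (g x) = ∑ σ : K →+* ℂ, μ σ * σ x := by
  classical
  obtain ⟨n, b, d, h1, h2⟩ := exists_dual K
  have halg : ∀ (t : K →+* ℂ) (x : K), IsAlgebraic ℚ (t x) := fun t x =>
    (Algebra.IsAlgebraic.isAlgebraic x).algHom (RingHom.equivRatAlgHom K ℂ t)
  have hx : ∀ x : K, x = ∑ j, (Algebra.trace ℚ K (d j * x)) • (b j : K) := by
    intro x
    apply τ.injective
    rw [map_sum]
    have h3 : ∀ j ∈ (Finset.univ : Finset (Fin n)), τ ((Algebra.trace ℚ K (d j * x)) • (b j : K)) =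
        ∑ φ : K →+* ℂ, φ x * (φ (d j) * τ (b j)) := by
      intro j _
      rw [Rat.smul_def, map_mul, map_ratCast, PE.Proj_tr, Finset.sum_mul]
      refine Finset.sum_congr rfl fun φ _ => ?_
      rw [map_mul]
      ring
    rw [Finset.sum_congr rfl h3, Finset.sum_comm]
    simp only [← Finset.mul_sum, h2]
    simp
  refine ⟨fun σ => ∑ j, σ (d j) * τ (g (b j)), fun σ => ?_, fun x => ?_⟩
  · rw [← mem_algebraicClosure_iff]
    exact sum_mem fun j _ => mem_algebraicClosure_iff.2 ((halg _ _).mul (halg _ _))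
  · conv_lhs => rw [hx x, map_sum, map_sum]
    have h3 : ∀ j ∈ (Finset.univ : Finset (Fin n)),
        τ (g ((Algebra.trace ℚ K (d j * x)) • (b j : K))) =
        ∑ φ : K →+* ℂ, φ (d j) * τ (g (b j)) * φ x := by
      intro j _
      rw [map_smul, Rat.smul_def, map_mul, map_ratCast, PE.Proj_tr, Finset.sum_mul]
      refine Finset.sum_congr rfl fun φ _ => ?_
      rw [map_mul]
      ring
    rw [Finset.sum_congr rfl h3, Finset.sum_comm]
    refine Finset.sum_congr rfl fun φ _ => ?_
    rw [Finset.sum_mul]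

omit [IsCMField K] in
/-- Independence of the embeddings. -/
theorem emb_indep {A B : (K →+* ℂ) → ℂ}
    (h : ∀ x : K, ∑ σ : K →+* ℂ, A σ * σ x = ∑ σ : K →+* ℂ, B σ * σ x) : A = B := by
  classical
  obtain ⟨n, b, d, h1, h2⟩ := exists_dual K
  have key : ∀ C : (K →+* ℂ) → ℂ, ∀ ψ, C ψ = ∑ j, ψ (d j) * ∑ σ : K →+* ℂ, C σ * σ (b j) := by
    intro C ψ
    have h3 : ∀ j ∈ (Finset.univ : Finset (Fin n)), ψ (d j) * ∑ σ : K →+* ℂ, C σ * σ (b j) =
        ∑ σ : K →+* ℂ, C σ * (ψ (d j) * σ (b j)) := by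
      intro j _
      rw [Finset.mul_sum]
      refine Finset.sum_congr rfl fun σ _ => ?_
      ring
    rw [Finset.sum_congr rfl h3, Finset.sum_comm]
    simp only [← Finset.mul_sum, h2]
    simp
  funext ψ
  rw [key A ψ, key B ψ]
  refine Finset.sum_congr rfl fun j _ => ?_
  rw [h]

omit [IsCMField K] in
theorem exists_nat_mul {N : ℕ} (x : Fin N → K) :
    ∃ n : ℕ, n ≠ 0 ∧ ∀ c, IsIntegral ℤ ((n : K) * x c) := by
  classical
  have : Algebra.IsAlgebraic ℤ K :=
    ⟨fun x => (IsFractionRing.isAlgebraic_iff ℤ ℚ K).2 (Algebra.IsAlgebraic.isAlgebraic x)⟩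
  obtain ⟨y, hy, h⟩ := Algebra.IsAlgebraic.exists_integral_multiples ℤ
    (Finset.univ.image x)
  refine ⟨y.natAbs, Int.natAbs_ne_zero.2 hy, fun c => ?_⟩
  have h1 := h (x c) (Finset.mem_image_of_mem _ (Finset.mem_univ c))
  rw [zsmul_eq_mul] at h1
  rcases Int.natAbs_eq y with h2 | h2
  · have h3 : ((y.natAbs : ℕ) : K) = (y : K) := by
      conv_rhs => rw [h2]
      simp
    rw [h3]
    exact h1
  · have h3 : ((y.natAbs : ℕ) : K) = -(y : K) := by
      conv_rhs => rw [h2]
      simp
    rw [h3, neg_mul]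
    exact h1.neg

namespace Per

variable {N : ℕ} (D : Per K N)

/-- The action of the field. -/
noncomputable def ι : K →+* Module.End ℂ (D.I → ℂ) where
  toFun a :=
    { toFun := fun e p => p.1.1 a * e p
      map_add' := fun e e' => by
        funext p
        simp only [Pi.add_apply]
        ring
      map_smul' := fun c e => by
        funext p
        simp only [Pi.smul_apply, smul_eq_mul, RingHom.id_apply]
        ring }
  map_one' := by
    ext e p
    simp
  map_mul' a b := by
    apply LinearMap.ext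
    intro e
    funext p
    show p.1.1 (a * b) * e p = p.1.1 a * (p.1.1 b * e p)
    rw [map_mul, mul_assoc]
  map_zero' := by
    apply LinearMap.ext
    intro e
    funext p
    show p.1.1 0 * e p = 0
    rw [map_zero, zero_mul]
  map_add' a b := by
    apply LinearMap.ext
    intro e
    funext p
    show p.1.1 (a + b) * e p = p.1.1 a * e p + p.1.1 b * e p
    rw [map_add, add_mul]

theorem ι_apply (a : K) (e : D.I → ℂ) (p : D.I) : D.ι a e p = p.1.1 a * e p := rfl

theorem ι_Th (a : K) (x : Fin N → K) : D.ι a (D.Th (emb x)) = D.Th (emb fun c => a * x c) := by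
  funext p
  rw [ι_apply, Th_apply, Th_apply, mul_add, Finset.mul_sum]
  unfold emb
  rw [map_mul]
  congr 1
  refine Finset.sum_congr rfl fun b _ => ?_
  rw [map_mul]
  ring

theorem mult_eq (τ : K →+* ℂ) : mult D.ι τ = (D.S τ).card := by
  classical
  obtain ⟨f, hf⟩ : ∃ f : (D.S τ → ℂ) →ₗ[ℂ] (D.I → ℂ), ∀ u p,
      f u p = if h : p.1.1 = τ then u ⟨p.1.2, h ▸ p.2⟩ else 0 := by
    refine ⟨{ toFun := fun u p => if h : p.1.1 = τ then u ⟨p.1.2, h ▸ p.2⟩ else 0
              map_add' := fun u u' => ?_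
              map_smul' := fun c u => ?_ }, fun u p => rfl⟩
    · funext p
      by_cases h : p.1.1 = τ
      · simp only [dif_pos h, Pi.add_apply]
      · simp only [dif_neg h, Pi.add_apply, add_zero]
    · funext p
      by_cases h : p.1.1 = τ
      · simp only [dif_pos h, Pi.smul_apply, RingHom.id_apply]
      · simp only [dif_neg h, Pi.smul_apply, RingHom.id_apply, smul_zero]
  have hinj : Function.Injective f := by
    intro u u' h
    funext j
    have h1 := congrFun h ⟨(τ, j.1), j.2⟩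
    rw [hf, hf, dif_pos rfl, dif_pos rfl] at h1
    exact h1
  have hrange : LinearMap.range f = ⨅ a : K, Module.End.eigenspace (D.ι a) (τ a) := by
    ext e
    rw [LinearMap.mem_range, Submodule.mem_iInf]
    constructor
    · rintro ⟨u, rfl⟩ a
      rw [Module.End.mem_eigenspace_iff]
      funext p
      rw [ι_apply, Pi.smul_apply, smul_eq_mul, hf]
      by_cases h : p.1.1 = τ
      · have h2 : p.1.1 a = τ a := by rw [h]
        rw [h2]
      · rw [dif_neg h, mul_zero, mul_zero]
    · intro h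
      have h1 : ∀ p : D.I, p.1.1 ≠ τ → e p = 0 := by
        intro p hp
        obtain ⟨a, ha⟩ : ∃ a, p.1.1 a ≠ τ a := by
          by_contra h2
          push Not at h2
          exact hp (RingHom.ext h2)
        have h2 := congrFun (Module.End.mem_eigenspace_iff.1 (h a)) p
        rw [ι_apply, Pi.smul_apply, smul_eq_mul] at h2
        have h3 : (p.1.1 a - τ a) * e p = 0 := by
          rw [sub_mul, h2, sub_self]
        exact (mul_eq_zero.1 h3).resolve_left (sub_ne_zero.2 ha)
      refine ⟨fun j => e ⟨(τ, j.1), j.2⟩, ?_⟩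
      funext p
      rw [hf]
      by_cases hp : p.1.1 = τ
      · rw [dif_pos hp]
        congr 1
        apply Subtype.ext
        exact Prod.ext hp.symm rfl
      · rw [dif_neg hp, h1 p hp]
  unfold mult
  rw [← hrange, LinearMap.finrank_range_of_inj hinj, Module.finrank_fintype_fun_eq_card,
    Fintype.card_coe]

theorem endo_of (a : K) : ∃ n : ℕ, n ≠ 0 ∧ ∀ x ∈ D.Λ, n • D.ι a x ∈ D.Λ := by
  obtain ⟨n, hn, h⟩ := exists_nat_mul (N := 1) fun _ => a
  refine ⟨n, hn, fun e he => ?_⟩
  obtain ⟨x, hx, rfl⟩ := D.mem_Λ.1 he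
  refine D.mem_Λ.2 ⟨fun c => (n * a) * x c, fun c => (h 0).mul (hx c), ?_⟩
  rw [← D.ι_Th (n * a) x, map_mul, map_natCast]
  funext p
  simp [Module.End.mul_apply]

theorem emb_inj {x y : Fin N → K} (h : D.Th (emb x) = D.Th (emb y)) : x = y := by
  have h1 := congrArg D.Xf h
  rw [D.Xf_emb, D.Xf_emb] at h1
  obtain ⟨τ⟩ : Nonempty (K →+* ℂ) := inferInstance
  funext c
  exact τ.injective (congrFun (congrFun h1 τ) c)

/-- The unit vectors. -/
noncomputable def Es [DecidableEq (K →+* ℂ)] (σ : K →+* ℂ) (c : Fin N) :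
    (K →+* ℂ) → Fin N → ℂ := fun τ b => if τ = σ ∧ b = c then 1 else 0

omit [IsCMField K] in
theorem emb_single [DecidableEq (K →+* ℂ)] (c : Fin N) (x : K) :
    emb (Pi.single c x : Fin N → K) = ∑ σ : K →+* ℂ, σ x • Es σ c := by
  funext τ b
  rw [Finset.sum_apply, Finset.sum_apply, Finset.sum_eq_single τ]
  · show τ ((Pi.single c x : Fin N → K) b) = τ x * (if τ = τ ∧ b = c then 1 else 0)
    by_cases h : b = c
    · subst h
      rw [Pi.single_eq_same, if_pos ⟨rfl, rfl⟩, mul_one]
    · rw [Pi.single_eq_of_ne h, map_zero, if_neg (fun h' => h h'.2), mul_zero]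
  · intro σ _ hσ
    show σ x * (if τ = σ ∧ b = c then 1 else 0) = 0
    rw [if_neg (fun h' => hσ h'.1.symm), mul_zero]
  · intro h
    exact absurd (Finset.mem_univ _) h

end Per

end Pool.MP43e44c.IR
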