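import Pool.Agent.H.MP_43e44c_ag.IR.ExEnd

/-!
The endomorphism algebra of the torus of a generic period matrix.
-/

set_option autoImplicit false

open NumberField Module

namespace Pool.MP43e44c.IR

open PE (cj cj_cj cj_ne)

variable {K : Type*} [Field K] [NumberField K] [IsCMField K]

omit [NumberField K] [IsCMField K] in
theorem emb_rat {N : ℕ} (q : ℚ) (x : Fin N → K) :
    Per.emb (fun c => (q : K) * x c) = (q : ℂ) • Per.emb x := by
  funext τ c
  show τ ((q : K) * x c) = (q : ℂ) * τ (x c)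
  rw [map_mul, map_ratCast]

namespace Per

variable {N : ℕ} (D : Per K N)

theorem Th_Es_mem [DecidableEq (K →+* ℂ)] {σ : K →+* ℂ} {k : Fin N} (hk : k ∈ D.S σ) (p : D.I) :
    D.Th (Es σ k) p = if p.1.1 = σ ∧ p.1.2 = k then 1 else 0 := by
  rw [Th_apply, Finset.sum_eq_zero, add_zero]
  · rfl
  · intro b hb
    have hb' := Finset.mem_compl.1 hb
    show _ * (if p.1.1 = σ ∧ b = k then (1 : ℂ) else 0) = 0
    rw [if_neg, mul_zero]
    rintro ⟨h1, h2⟩
    apply hb'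
    rw [h1, h2]
    exact hk

theorem Th_Es_not [DecidableEq (K →+* ℂ)] {σ : K →+* ℂ} {c : Fin N} (hc : c ∉ D.S σ) (p : D.I) :
    D.Th (Es σ c) p = if p.1.1 = σ then D.z σ p.1.2 c else 0 := by
  rw [Th_apply]
  have h1 : (Es σ c : (K →+* ℂ) → Fin N → ℂ) p.1.1 p.1.2 = 0 := by
    show (if p.1.1 = σ ∧ p.1.2 = c then (1 : ℂ) else 0) = 0
    rw [if_neg]
    rintro ⟨h2, h3⟩
    apply hc
    rw [← h2, ← h3]
    exact p.2
  rw [h1, zero_add]
  by_cases h2 : p.1.1 = σ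
  · rw [if_pos h2, Finset.sum_eq_single c]
    · show _ * (if p.1.1 = σ ∧ c = c then (1 : ℂ) else 0) = _
      rw [if_pos ⟨h2, rfl⟩, mul_one, h2]
    · intro b _ hb
      show _ * (if p.1.1 = σ ∧ b = c then (1 : ℂ) else 0) = 0
      rw [if_neg (fun h => hb h.2), mul_zero]
    · intro h
      exact absurd (Finset.mem_compl.2 (by rw [h2]; exact hc)) h
  · rw [if_neg h2]
    refine Finset.sum_eq_zero fun b _ => ?_
    show _ * (if p.1.1 = σ ∧ b = c then (1 : ℂ) else 0) = 0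
    rw [if_neg (fun h => h2 h.1), mul_zero]

theorem Th_Es_sum [DecidableEq (K →+* ℂ)] {σ : K →+* ℂ} {c : Fin N} (hc : c ∉ D.S σ) :
    D.Th (Es σ c) = ∑ k ∈ D.S σ, D.z σ k c • D.Th (Es σ k) := by
  funext p
  rw [D.Th_Es_not hc, Finset.sum_apply]
  have h1 : ∀ k ∈ D.S σ, (D.z σ k c • D.Th (Es σ k)) p =
      if p.1.1 = σ ∧ p.1.2 = k then D.z σ k c else 0 := by
    intro k hk
    rw [Pi.smul_apply, D.Th_Es_mem hk, smul_eq_mul]
    split_ifs
    · rw [mul_one]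
    · rw [mul_zero]
  rw [Finset.sum_congr rfl h1]
  by_cases h2 : p.1.1 = σ
  · rw [if_pos h2, Finset.sum_eq_single p.1.2]
    · rw [if_pos ⟨h2, rfl⟩]
    · intro k _ hk
      rw [if_neg (fun h => hk h.2.symm)]
    · intro h
      exact absurd (by rw [← h2]; exact p.2) h
  · rw [if_neg h2]
    refine (Finset.sum_eq_zero fun k _ => ?_).symm
    rw [if_neg (fun h => h2 h.1)]

theorem sum_Es [DecidableEq (K →+* ℂ)] (e : D.I → ℂ) :
    e = ∑ q : D.I, e q • D.Th (Es q.1.1 q.1.2) := by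
  classical
  funext p
  rw [Finset.sum_apply, Finset.sum_eq_single p]
  · rw [Pi.smul_apply, D.Th_Es_mem p.2, if_pos ⟨rfl, rfl⟩, smul_eq_mul, mul_one]
  · intro q _ hq
    rw [Pi.smul_apply, D.Th_Es_mem q.2, if_neg, smul_zero]
    rintro ⟨h1, h2⟩
    exact hq (Subtype.ext (Prod.ext h1.symm h2.symm))
  · intro h
    exact absurd (Finset.mem_univ _) h

theorem end_of [DecidableEq (K →+* ℂ)] (hN : 0 < N) (hS : ∀ τ, 2 ≤ (D.S τ).card)
    {v : (K →+* ℂ) × Fin N × Fin N → ℂ} (hv : AlgebraicIndependent Qa v) {n₀ : ℕ} (hn₀ : n₀ ≠ 0)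
    {Φ : Finset (K →+* ℂ)} (hz : ∀ τ j b, D.z τ j b = zf D.δ Φ (fun i => v i / n₀) τ j b)
    {φ : Module.End ℂ (D.I → ℂ)} {n : ℕ} (hn : n ≠ 0) (h : ∀ x ∈ D.Λ, n • φ x ∈ D.Λ) :
    ∃ a, D.ι a = φ := by
  -- rational vectors go to rational vectors
  have h1 : ∀ x : Fin N → K, ∃ y : Fin N → K, D.Th (emb y) = φ (D.Th (emb x)) := by
    intro x
    obtain ⟨d, hd, hdx⟩ := exists_nat_mul x
    obtain ⟨y', _, hy'⟩ := D.mem_Λ.1 (h _ (D.mem_Λ.2 ⟨fun c => (d : K) * x c, hdx, rfl⟩))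
    refine ⟨fun c => ((((n * d : ℕ) : ℚ)⁻¹ : ℚ) : K) * y' c, ?_⟩
    have h2 : emb (fun c => (d : K) * x c) = (d : ℂ) • emb x := by
      have := emb_rat (d : ℚ) x
      push_cast at this
      exact this
    rw [emb_rat, LinearMap.map_smul, hy', h2, LinearMap.map_smul, LinearMap.map_smul,
      ← Nat.cast_smul_eq_nsmul ℂ, smul_smul, smul_smul]
    have h3 : (((((n * d : ℕ) : ℚ)⁻¹ : ℚ)) : ℂ) * (n : ℂ) * (d : ℂ) = 1 := by
      have h4 : (n : ℂ) ≠ 0 := Nat.cast_ne_zero.2 hn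
      have h5 : (d : ℂ) ≠ 0 := Nat.cast_ne_zero.2 hd
      push_cast
      field_simp
    rw [h3, one_smul]
  choose M hM using h1
  have hadd : ∀ x y, M (x + y) = M x + M y := by
    intro x y
    apply D.emb_inj
    have h2 : ∀ x y : Fin N → K, emb (x + y) = emb x + emb y := by
      intro x y
      funext τ c
      exact map_add τ _ _
    rw [hM, h2, h2, map_add, map_add, map_add, hM, hM]
  have hcf : ∀ (τ : K →+* ℂ) (b c : Fin N), ∃ μ : (K →+* ℂ) → ℂ,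
      (∀ σ, IsAlgebraic ℚ (μ σ)) ∧
      ∀ x : K, τ (M (Pi.single c x) b) = ∑ σ : K →+* ℂ, μ σ * σ x := by
    intro τ b c
    exact exists_coef (AddMonoidHom.mk' (fun x : K => M (Pi.single c x) b) (fun x y => by
      rw [Pi.single_add, hadd, Pi.add_apply])).toRatLinearMap τ
  choose μ₀ hμa hμ₀ using hcf
  obtain ⟨μ, hμ⟩ : ∃ μ : (K →+* ℂ) → Fin N → (K →+* ℂ) → Fin N → ℂ,
      ∀ τ b σ c, μ τ b σ c = μ₀ τ b c σ := ⟨_, fun _ _ _ _ => rfl⟩
  -- the images of the unit vectors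
  have hR : ∀ (p : D.I) (σ : K →+* ℂ) (c : Fin N), φ (D.Th (Es σ c)) p =
      μ p.1.1 p.1.2 σ c + ∑ b ∈ (D.S p.1.1)ᶜ, D.z p.1.1 p.1.2 b * μ p.1.1 b σ c := by
    intro p σ c
    refine congrFun (emb_indep (A := fun σ => φ (D.Th (Es σ c)) p) (B := fun σ =>
      μ p.1.1 p.1.2 σ c + ∑ b ∈ (D.S p.1.1)ᶜ, D.z p.1.1 p.1.2 b * μ p.1.1 b σ c) fun x => ?_) σ
    have h2 : φ (D.Th (emb (Pi.single c x : Fin N → K))) p =
        ∑ σ : K →+* ℂ, φ (D.Th (Es σ c)) p * σ x := by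
      rw [emb_single, map_sum, map_sum, Finset.sum_apply]
      refine Finset.sum_congr rfl fun σ _ => ?_
      rw [LinearMap.map_smul, LinearMap.map_smul, Pi.smul_apply, smul_eq_mul, mul_comm]
    rw [← h2, ← hM, Th_apply]
    show p.1.1 (M (Pi.single c x) p.1.2) +
      ∑ b ∈ (D.S p.1.1)ᶜ, D.z p.1.1 p.1.2 b * p.1.1 (M (Pi.single c x) b) = _
    rw [hμ₀]
    simp only [hμ₀, add_mul, Finset.sum_add_distrib, hμ]
    congr 1
    simp only [Finset.mul_sum, Finset.sum_mul]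
    rw [Finset.sum_comm]
    refine Finset.sum_congr rfl fun σ _ => Finset.sum_congr rfl fun b _ => ?_
    ring
  have hrel : D.Rel D.z μ := by
    intro τ j σ c hj hc
    have h2 := hR ⟨(τ, j), hj⟩ σ c
    rw [D.Th_Es_sum hc, map_sum, Finset.sum_apply] at h2
    rw [← h2]
    refine Finset.sum_congr rfl fun k _ => ?_
    rw [LinearMap.map_smul, Pi.smul_apply, smul_eq_mul, hR ⟨(τ, j), hj⟩ σ k, mul_comm]
  obtain ⟨l, hl⟩ := D.rigid hS fun w hw => D.spec_rel hv hn₀ hz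
    (fun τ b σ c => by rw [hμ]; exact hμa τ b c σ) hrel hw
  have hR2 : ∀ p q : D.I, φ (D.Th (Es q.1.1 q.1.2)) p = if p = q then l p.1.1 else 0 := by
    intro p q
    rw [hR, Finset.sum_eq_zero, add_zero, hl]
    · by_cases hpq : p = q
      · subst hpq
        rw [if_pos ⟨rfl, rfl⟩, if_pos rfl]
      · rw [if_neg, if_neg hpq]
        rintro ⟨h2, h3⟩
        exact hpq (Subtype.ext (Prod.ext h2 h3))
    · intro b hb
      rw [hl, if_neg, mul_zero]
      rintro ⟨h2, h3⟩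
      apply Finset.mem_compl.1 hb
      rw [h2, h3]
      exact q.2
  have hφ : ∀ e p, φ e p = l p.1.1 * e p := by
    intro e p
    conv_lhs => rw [D.sum_Es e, map_sum, Finset.sum_apply]
    rw [Finset.sum_eq_single p]
    · rw [LinearMap.map_smul, Pi.smul_apply, hR2, if_pos rfl, smul_eq_mul, mul_comm]
    · intro q _ hq
      rw [LinearMap.map_smul, Pi.smul_apply, hR2, if_neg hq.symm, smul_zero]
    · intro h
      exact absurd (Finset.mem_univ _) h
  obtain ⟨b₀⟩ : Nonempty (Fin N) := ⟨⟨0, hN⟩⟩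
  refine ⟨M (Pi.single b₀ 1) b₀, ?_⟩
  apply LinearMap.ext
  intro e
  funext p
  rw [ι_apply, hφ, hμ₀]
  congr 1
  rw [Finset.sum_eq_single p.1.1]
  · rw [← hμ, hl, if_pos ⟨rfl, rfl⟩, map_one, mul_one]
  · intro σ _ hσ
    rw [← hμ, hl, if_neg (fun h => hσ h.1.symm), zero_mul]
  · intro h
    exact absurd (Finset.mem_univ _) h

end Per

end Pool.MP43e44c.IR
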