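import Pool.Agent.H.MP_43e44c_ag.IR.ExFin

/-!
Abelian varieties with endomorphism algebra a given CM field and given multiplicities (Shimura).
-/

set_option autoImplicit false

open NumberField Module

namespace Pool.MP43e44c.IR

open PE (cj cj_cj cj_ne)

variable {K : Type*} [Field K] [NumberField K] [IsCMField K]

/-- Sets of signs with the given cardinalities. -/
theorem exists_S {m : (K →+* ℂ) → ℕ} {N : ℕ} (hm : ∀ τ, m τ + m (cj τ) = N) :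
    ∃ S : (K →+* ℂ) → Finset (Fin N), (∀ τ j, j ∈ S (cj τ) ↔ j ∉ S τ) ∧ ∀ τ, (S τ).card = m τ := by
  classical
  obtain ⟨Φ, hΦ⟩ := exists_type (K := K)
  have hΦ' : ∀ τ, cj τ ∈ Φ ↔ τ ∉ Φ := fun τ => by
    have h1 := hΦ (cj τ)
    have h2 : ComplexEmbedding.conjugate (cj τ) = τ := cj_cj τ
    rw [h2] at h1
    exact h1
  obtain ⟨S, hS⟩ : ∃ S : (K →+* ℂ) → Finset (Fin N), ∀ τ, S τ =
      if τ ∈ Φ then Finset.univ.filter (fun j : Fin N => (j : ℕ) < m τ)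
      else (Finset.univ.filter (fun j : Fin N => (j : ℕ) < m (cj τ)))ᶜ := ⟨_, fun _ => rfl⟩
  refine ⟨S, fun τ j => ?_, fun τ => ?_⟩
  · by_cases h : τ ∈ Φ
    · have h1 : cj τ ∉ Φ := fun h1 => (hΦ' τ).1 h1 h
      rw [hS, hS, if_pos h, if_neg h1, cj_cj, Finset.mem_compl]
    · have h1 : cj τ ∈ Φ := (hΦ' τ).2 h
      rw [hS, hS, if_neg h, if_pos h1, Finset.mem_compl, not_not]
  · have h2 := hm τ
    rw [hS]
    split_ifs
    · rw [Fin.card_filter_val_lt]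
      omega
    · rw [Finset.card_compl, Fin.card_filter_val_lt, Fintype.card_fin]
      omega

/-- Generic periods. -/
theorem exists_per {N : ℕ} {S : (K →+* ℂ) → Finset (Fin N)} (hS : ∀ τ j, j ∈ S (cj τ) ↔ j ∉ S τ)
    [DecidableEq (K →+* ℂ)] :
    ∃ (D : Per K N) (v : (K →+* ℂ) × Fin N × Fin N → ℂ) (n : ℕ) (Φ : Finset (K →+* ℂ)),
      D.S = S ∧ AlgebraicIndependent Qa v ∧ n ≠ 0 ∧
      ∀ τ j b, D.z τ j b = zf D.δ Φ (fun i => v i / n) τ j b := by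
  obtain ⟨Φ, hΦ⟩ := exists_type (K := K)
  have hΦ' : ∀ τ, cj τ ∈ Φ ↔ τ ∉ Φ := fun τ => by
    have h1 := hΦ (cj τ)
    have h2 : ComplexEmbedding.conjugate (cj τ) = τ := cj_cj τ
    rw [h2] at h1
    exact h1
  have hδ : ∀ j : Fin N, ∃ δ : K, IsIntegral ℤ δ ∧ IsCMField.complexConj K δ = -δ ∧
      ∀ τ : K →+* ℂ, (τ δ).im ≠ 0 ∧ (j ∈ S τ ↔ 0 < (τ δ).im) := by
    intro j
    have h1 : IsCMType (Finset.univ.filter fun τ : K →+* ℂ => j ∈ S τ) := by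
      intro τ
      rw [Finset.mem_filter, Finset.mem_filter]
      simp only [Finset.mem_univ, true_and]
      have h2 := hS τ j
      rw [show ComplexEmbedding.conjugate τ = cj τ from rfl, h2, not_not]
    obtain ⟨δ, h2, h3, h4⟩ := exists_sign h1
    refine ⟨δ, h2, h3, fun τ => ⟨(h4 τ).1, ?_⟩⟩
    rw [← (h4 τ).2, Finset.mem_filter]
    simp
  choose δ hδ1 hδ2 hδ3 using hδ
  obtain ⟨v, hv⟩ := exists_generic ((K →+* ℂ) × Fin N × Fin N)
  have hδ0 : ∀ (τ : K →+* ℂ) j, τ (δ j) ≠ 0 := by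
    intro τ j h
    apply (hδ3 j τ).1
    rw [h, Complex.zero_im]
  -- the bounds
  obtain ⟨C, hC⟩ : ∃ C : (K →+* ℂ) × Fin N × Fin N → ℝ, ∀ t, C t =
      (N : ℝ) ^ 2 * |(t.1 (δ t.2.1)).im| * ‖zf δ Φ v t.1 t.2.1 t.2.2‖ ^ 2 /
        |(t.1 (δ t.2.2)).im| := ⟨_, fun _ => rfl⟩
  have hC0 : ∀ t, 0 ≤ C t := fun t => by
    rw [hC]
    positivity
  obtain ⟨n, hn⟩ := exists_nat_gt (1 + ∑ t, C t)
  have hsum : 0 ≤ ∑ t, C t := Finset.sum_nonneg fun t _ => hC0 t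
  have hn1 : (1 : ℝ) < n := by linarith
  have hn0 : n ≠ 0 := by
    rintro rfl
    rw [Nat.cast_zero] at hn1
    linarith
  have hzn : ∀ τ j b, zf δ Φ (fun i => v i / n) τ j b = zf δ Φ v τ j b / n := by
    intro τ j b
    unfold zf
    split_ifs
    · rfl
    · rw [mul_div_assoc]
  refine ⟨⟨S, δ, zf δ Φ (fun i => v i / n), hS, hδ1, hδ2, fun τ j => (hδ3 j τ).2,
    fun τ j => (hδ3 j τ).1, ?_, ?_⟩, v, n, Φ, rfl, hv, hn0, fun τ j b => rfl⟩
  · intro τ j b _ _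
    unfold zf
    by_cases h : τ ∈ Φ
    · have h1 : cj τ ∉ Φ := fun h1 => (hΦ' τ).1 h1 h
      have hc : ∀ j, cj τ (δ j) = -τ (δ j) := by
        intro j
        have h1 := IsCMField.complexEmbedding_complexConj K τ (δ j)
        rw [hδ2, map_neg] at h1
        exact h1.symm
      rw [if_pos h, if_neg h1, cj_cj, hc, hc]
      have h2 := hδ0 τ b
      field_simp
    · have h1 : cj τ ∈ Φ := (hΦ' τ).2 h
      rw [if_neg h, if_pos h1]
      have h2 := hδ0 τ j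
      field_simp
  · intro τ j b _ _
    rw [hzn, norm_div, Complex.norm_natCast]
    have h1 : C (τ, j, b) < n := by
      have h2 := Finset.single_le_sum (f := C) (fun t _ => hC0 t) (Finset.mem_univ (τ, j, b))
      linarith
    have h3 : 0 < |(τ (δ b)).im| := abs_pos.2 (hδ3 b τ).1
    rw [hC, div_lt_iff₀ h3] at h1
    simp only at h1
    have h4 : (0 : ℝ) < (n : ℝ) ^ 2 := by positivity
    rw [div_pow, mul_div_assoc', div_lt_iff₀ h4]
    have h5 : (n : ℝ) ≤ (n : ℝ) ^ 2 := by nlinarith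
    calc _ < (n : ℝ) * |(τ (δ b)).im| := h1
      _ ≤ (n : ℝ) ^ 2 * |(τ (δ b)).im| := mul_le_mul_of_nonneg_right h5 h3.le
      _ = |(τ (δ b)).im| * (n : ℝ) ^ 2 := mul_comm _ _

/-- Abelian varieties with `End(A) ⊗ ℚ = K` and given multiplicities, all at least two. -/
theorem exists_tor.{u} {K : Type u} [Field K] [NumberField K] [IsCMField K] {m : (K →+* ℂ) → ℕ}
    (hm : ∀ τ t, m τ + m (cj τ) = m t + m (cj t)) (h2 : ∀ τ, 2 ≤ m τ) :
    ∃ (I : Type u) (_ : Fintype I) (Λ : AddSubgroup (I → ℂ)) (ι : K →+* Module.End ℂ (I → ℂ)),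
      HasEndK Λ ι ∧ mult ι = m := by
  classical
  obtain ⟨τ₀⟩ : Nonempty (K →+* ℂ) := inferInstance
  obtain ⟨S, hS, hcard⟩ := exists_S (m := m) (N := m τ₀ + m (cj τ₀)) fun τ => hm τ τ₀
  obtain ⟨D, v, n, Φ, hDS, hv, hn, hz⟩ := exists_per hS
  have hN : 0 < m τ₀ + m (cj τ₀) := by
    have := h2 τ₀
    omega
  refine ⟨D.I, inferInstance, D.Λ, D.ι, ⟨D.isLattice, ⟨D.ψ, D.isPol⟩, fun φ => ⟨?_, ?_⟩⟩, ?_⟩
  · rintro ⟨a, rfl⟩
    exact D.endo_of a
  · rintro ⟨k, hk, h⟩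
    exact D.end_of hN (fun τ => by rw [hDS, hcard]; exact h2 τ) hv hn hz hk h
  · funext τ
    rw [D.mult_eq, hDS, hcard]

end Pool.MP43e44c.IR
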