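import Pool.Agent.H.MP_43e44c_ag.IR.ExTor
import Pool.Agent.H.MP_43e44c_ag.PE.Proj

/-!
The polarisation of a period matrix.
-/

set_option autoImplicit false

open NumberField Module

namespace Pool.MP43e44c.IR

open PE (cj cj_cj cj_ne)

namespace Per

variable {K : Type*} [Field K] [NumberField K] [IsCMField K] {N : ℕ} (D : Per K N)

/-- The complex value of the form. -/
noncomputable def pair (X Y : (K →+* ℂ) → Fin N → ℂ) : ℂ :=
  ∑ τ : K →+* ℂ, ∑ j, τ (D.δ j) * (X τ j * starRingEnd ℂ (Y τ j))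

/-- The polarisation. -/
noncomputable def ψ : (D.I → ℂ) →ₗ[ℝ] (D.I → ℂ) →ₗ[ℝ] ℝ :=
  LinearMap.mk₂ ℝ (fun e e' => (D.pair (D.Xf e) (D.Xf e')).re)
    (fun a b c => by
      rw [← Complex.add_re]
      congr 1
      unfold pair
      rw [← Finset.sum_add_distrib]
      refine Finset.sum_congr rfl fun τ _ => ?_
      rw [← Finset.sum_add_distrib]
      refine Finset.sum_congr rfl fun j _ => ?_
      rw [map_add, Pi.add_apply, Pi.add_apply]
      ring)
    (fun r a b => by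
      rw [smul_eq_mul, ← Complex.re_ofReal_mul]
      congr 1
      unfold pair
      rw [Finset.mul_sum]
      refine Finset.sum_congr rfl fun τ _ => ?_
      rw [Finset.mul_sum]
      refine Finset.sum_congr rfl fun j _ => ?_
      rw [map_smul, Pi.smul_apply, Pi.smul_apply, Complex.real_smul]
      ring)
    (fun a b c => by
      rw [← Complex.add_re]
      congr 1
      unfold pair
      rw [← Finset.sum_add_distrib]
      refine Finset.sum_congr rfl fun τ _ => ?_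
      rw [← Finset.sum_add_distrib]
      refine Finset.sum_congr rfl fun j _ => ?_
      rw [map_add, Pi.add_apply, Pi.add_apply, map_add]
      ring)
    (fun r a b => by
      rw [smul_eq_mul, ← Complex.re_ofReal_mul]
      congr 1
      unfold pair
      rw [Finset.mul_sum]
      refine Finset.sum_congr rfl fun τ _ => ?_
      rw [Finset.mul_sum]
      refine Finset.sum_congr rfl fun j _ => ?_
      rw [map_smul, Pi.smul_apply, Pi.smul_apply, Complex.real_smul, map_mul, Complex.conj_ofReal]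
      ring)

theorem ψ_apply (e e' : D.I → ℂ) : D.ψ e e' = (D.pair (D.Xf e) (D.Xf e')).re := rfl

theorem ψ_alt (e : D.I → ℂ) : D.ψ e e = 0 := by
  rw [ψ_apply, pair, Complex.re_sum]
  refine Finset.sum_eq_zero fun τ _ => ?_
  rw [Complex.re_sum]
  refine Finset.sum_eq_zero fun j _ => ?_
  rw [Complex.mul_conj, D.τδ, mul_right_comm, ← Complex.ofReal_mul, Complex.re_ofReal_mul,
    Complex.I_re, mul_zero]

theorem ψ_int (e : D.I → ℂ) (he : e ∈ D.Λ) (e' : D.I → ℂ) (he' : e' ∈ D.Λ) :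
    ∃ n : ℤ, D.ψ e e' = n := by
  obtain ⟨x, hx, rfl⟩ := D.mem_Λ.1 he
  obtain ⟨y, hy, rfl⟩ := D.mem_Λ.1 he'
  rw [ψ_apply, D.Xf_emb, D.Xf_emb]
  obtain ⟨w, hw⟩ : ∃ w : K, w = ∑ j, D.δ j * (x j * IsCMField.complexConj K (y j)) := ⟨_, rfl⟩
  have h1 : D.pair (emb x) (emb y) = ∑ τ : K →+* ℂ, τ w := by
    unfold pair
    refine Finset.sum_congr rfl fun τ _ => ?_
    rw [hw, map_sum]
    refine Finset.sum_congr rfl fun j _ => ?_
    rw [map_mul, map_mul, IsCMField.complexEmbedding_complexConj]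
    rfl
  have hwi : IsIntegral ℤ w := by
    rw [hw]
    exact IsIntegral.sum _ fun j _ => (D.δ_int j).mul ((hx j).mul (map_isIntegral_int _ (hy j)))
  have h2 : IsIntegral ℤ (Algebra.trace ℚ K w) := Algebra.isIntegral_trace hwi
  obtain ⟨n, hn⟩ := IsIntegrallyClosed.isIntegral_iff.1 h2
  refine ⟨n, ?_⟩
  rw [h1, ← PE.Proj_tr, ← hn]
  simp

/-- The defects of a vector and its multiple by `i`. -/
theorem defect (e : D.I → ℂ) (τ : K →+* ℂ) :
    D.Q τ (fun j => D.Xf (Complex.I • e) τ j - Complex.I * D.Xf e τ j) := by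
  have h1 : D.Th (D.Xf (Complex.I • e) - Complex.I • D.Xf e) = 0 := by
    have h2 : D.Th (Complex.I • D.Xf e) = Complex.I • D.Th (D.Xf e) := D.Th.map_smul _ _
    rw [map_sub, h2, D.Th_Xf, D.Th_Xf, sub_self]
  exact D.Q_of_Th h1 τ

theorem orth1 (e e' : D.I → ℂ) (τ : K →+* ℂ) :
    ∑ j, τ (D.δ j) * ((D.Xf (Complex.I • e) τ j - Complex.I * D.Xf e τ j) *
      (starRingEnd ℂ (D.Xf (Complex.I • e') τ j) - Complex.I * starRingEnd ℂ (D.Xf e' τ j))) = 0 := by
  have h1 := D.orth (D.defect e τ) (D.defect e' (cj τ))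
  simp only [D.Xf_R _ τ] at h1
  exact h1

theorem orth2 (e e' : D.I → ℂ) (τ : K →+* ℂ) :
    ∑ j, τ (D.δ j) * ((D.Xf (Complex.I • e) τ j + Complex.I * D.Xf e τ j) *
      (starRingEnd ℂ (D.Xf (Complex.I • e') τ j) + Complex.I * starRingEnd ℂ (D.Xf e' τ j))) = 0 := by
  have h1 := congrArg (starRingEnd ℂ) (D.orth1 e' e τ)
  rw [map_sum, map_zero] at h1
  have h2 : ∀ j ∈ (Finset.univ : Finset (Fin N)), starRingEnd ℂ (τ (D.δ j) *
      ((D.Xf (Complex.I • e') τ j - Complex.I * D.Xf e' τ j) *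
      (starRingEnd ℂ (D.Xf (Complex.I • e) τ j) - Complex.I * starRingEnd ℂ (D.Xf e τ j)))) =
      -(τ (D.δ j) * ((D.Xf (Complex.I • e) τ j + Complex.I * D.Xf e τ j) *
      (starRingEnd ℂ (D.Xf (Complex.I • e') τ j) +
        Complex.I * starRingEnd ℂ (D.Xf e' τ j)))) := by
    intro j _
    simp only [map_mul, map_sub, D.conj_δ, Complex.conj_I, Complex.conj_conj]
    ring
  rw [Finset.sum_congr rfl h2, Finset.sum_neg_distrib, neg_eq_zero] at h1
  exact h1

theorem ψ_inv (e e' : D.I → ℂ) : D.ψ (Complex.I • e) (Complex.I • e') = D.ψ e e' := by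
  rw [ψ_apply, ψ_apply]
  congr 1
  unfold pair
  refine Finset.sum_congr rfl fun τ _ => ?_
  have h1 := D.orth1 e e' τ
  have h2 := D.orth2 e e' τ
  have h3 : ∑ j, τ (D.δ j) * (D.Xf (Complex.I • e) τ j * starRingEnd ℂ (D.Xf (Complex.I • e') τ j)) -
      ∑ j, τ (D.δ j) * (D.Xf e τ j * starRingEnd ℂ (D.Xf e' τ j)) =
      (1 / 2 : ℂ) * ((∑ j, τ (D.δ j) * ((D.Xf (Complex.I • e) τ j - Complex.I * D.Xf e τ j) *
      (starRingEnd ℂ (D.Xf (Complex.I • e') τ j) - Complex.I * starRingEnd ℂ (D.Xf e' τ j)))) +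
      ∑ j, τ (D.δ j) * ((D.Xf (Complex.I • e) τ j + Complex.I * D.Xf e τ j) *
      (starRingEnd ℂ (D.Xf (Complex.I • e') τ j) +
        Complex.I * starRingEnd ℂ (D.Xf e' τ j)))) := by
    rw [← Finset.sum_sub_distrib, ← Finset.sum_add_distrib, Finset.mul_sum]
    refine Finset.sum_congr rfl fun j _ => ?_
    linear_combination (-τ (D.δ j) * (D.Xf e τ j * starRingEnd ℂ (D.Xf e' τ j))) * Complex.I_sq
  rw [h1, h2, add_zero, mul_zero] at h3
  exact sub_eq_zero.1 h3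

theorem ψ_pos (e : D.I → ℂ) (he : e ≠ 0) : 0 < D.ψ e (Complex.I • e) := by
  -- the value in terms of the defects
  obtain ⟨L, hL⟩ : ∃ L : (K →+* ℂ) → Fin N → ℂ, ∀ τ, L τ =
      fun j => D.Xf (Complex.I • e) τ j - Complex.I * D.Xf e τ j := ⟨_, fun _ => rfl⟩
  have hLQ : ∀ τ, D.Q τ (L τ) := fun τ => by rw [hL]; exact D.defect e τ
  have h1 : ∀ τ : K →+* ℂ, 4 * ∑ j, τ (D.δ j) *
      (D.Xf e τ j * starRingEnd ℂ (D.Xf (Complex.I • e) τ j)) =
      ((∑ j, D.h τ j * (‖L (cj τ) j‖ ^ 2 - ‖L τ j‖ ^ 2) : ℝ) : ℂ) := by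
    intro τ
    have h1 := D.orth1 e e τ
    have h2 := D.orth2 e e τ
    have h3 : ∀ j, (((‖L (cj τ) j‖ ^ 2 - ‖L τ j‖ ^ 2 : ℝ)) : ℂ) =
        (D.Xf (Complex.I • e) τ j + Complex.I * D.Xf e τ j) *
          (starRingEnd ℂ (D.Xf (Complex.I • e) τ j) - Complex.I * starRingEnd ℂ (D.Xf e τ j)) -
        (D.Xf (Complex.I • e) τ j - Complex.I * D.Xf e τ j) *
          (starRingEnd ℂ (D.Xf (Complex.I • e) τ j) + Complex.I * starRingEnd ℂ (D.Xf e τ j)) := by
      intro j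
      rw [Complex.ofReal_sub, ← Complex.normSq_eq_norm_sq, ← Complex.normSq_eq_norm_sq,
        ← Complex.mul_conj, ← Complex.mul_conj, hL, hL]
      simp only [D.Xf_R _ τ, map_sub, map_mul, Complex.conj_I, Complex.conj_conj]
      ring
    have h4 : (((∑ j, D.h τ j * (‖L (cj τ) j‖ ^ 2 - ‖L τ j‖ ^ 2) : ℝ)) : ℂ) =
        ∑ j, (-Complex.I) * (τ (D.δ j) * (((‖L (cj τ) j‖ ^ 2 - ‖L τ j‖ ^ 2 : ℝ)) : ℂ)) := by
      push_cast
      refine Finset.sum_congr rfl fun j _ => ?_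
      rw [D.τδ]
      linear_combination (D.h τ j : ℂ) * ((‖L (cj τ) j‖ : ℂ) ^ 2 - (‖L τ j‖ : ℂ) ^ 2) * Complex.I_sq
    rw [h4, ← Finset.mul_sum]
    simp only [h3]
    have h5 : 4 * ∑ j, τ (D.δ j) * (D.Xf e τ j * starRingEnd ℂ (D.Xf (Complex.I • e) τ j)) -
        (-Complex.I) * ∑ j, τ (D.δ j) * (
        (D.Xf (Complex.I • e) τ j + Complex.I * D.Xf e τ j) *
          (starRingEnd ℂ (D.Xf (Complex.I • e) τ j) - Complex.I * starRingEnd ℂ (D.Xf e τ j)) -
        (D.Xf (Complex.I • e) τ j - Complex.I * D.Xf e τ j) *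
          (starRingEnd ℂ (D.Xf (Complex.I • e) τ j) + Complex.I * starRingEnd ℂ (D.Xf e τ j))) =
        Complex.I * (∑ j, τ (D.δ j) * ((D.Xf (Complex.I • e) τ j - Complex.I * D.Xf e τ j) *
      (starRingEnd ℂ (D.Xf (Complex.I • e) τ j) - Complex.I * starRingEnd ℂ (D.Xf e τ j)))) -
        Complex.I * (∑ j, τ (D.δ j) * ((D.Xf (Complex.I • e) τ j + Complex.I * D.Xf e τ j) *
      (starRingEnd ℂ (D.Xf (Complex.I • e) τ j) +
        Complex.I * starRingEnd ℂ (D.Xf e τ j)))) := by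
      rw [Finset.mul_sum, Finset.mul_sum, Finset.mul_sum, Finset.mul_sum,
        ← Finset.sum_sub_distrib, ← Finset.sum_sub_distrib]
      refine Finset.sum_congr rfl fun j _ => ?_
      linear_combination (4 * τ (D.δ j) * D.Xf e τ j *
        starRingEnd ℂ (D.Xf (Complex.I • e) τ j)) * Complex.I_sq
    rw [h1, h2, mul_zero, sub_zero, sub_eq_zero] at h5
    exact h5
  have h2 : 4 * D.ψ e (Complex.I • e) = -2 * ∑ τ : K →+* ℂ, ∑ j, D.h τ j * ‖L τ j‖ ^ 2 := by
    have h3 : ((4 * D.ψ e (Complex.I • e) : ℝ)) =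
        (4 * D.pair (D.Xf e) (D.Xf (Complex.I • e))).re := by
      rw [ψ_apply, show (4 : ℂ) = ((4 : ℝ) : ℂ) by norm_num, Complex.re_ofReal_mul]
    rw [h3]
    unfold pair
    rw [Finset.mul_sum, Finset.sum_congr rfl fun τ _ => h1 τ, ← Complex.ofReal_sum,
      Complex.ofReal_re]
    simp only [mul_sub, Finset.sum_sub_distrib]
    have h4 : ∑ τ : K →+* ℂ, ∑ j, D.h τ j * ‖L (cj τ) j‖ ^ 2 =
        -∑ τ : K →+* ℂ, ∑ j, D.h τ j * ‖L τ j‖ ^ 2 := by
      rw [← Equiv.sum_comp (Function.Involutive.toPerm (cj (K := K)) cj_cj)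
        (fun τ : K →+* ℂ => ∑ j, D.h τ j * ‖L (cj τ) j‖ ^ 2), ← Finset.sum_neg_distrib]
      refine Finset.sum_congr rfl fun τ _ => ?_
      rw [← Finset.sum_neg_distrib]
      refine Finset.sum_congr rfl fun j _ => ?_
      show D.h (cj τ) j * ‖L (cj (cj τ)) j‖ ^ 2 = _
      rw [D.h_cj, cj_cj]
      ring
    rw [h4]
    ring
  have h3 : ∀ τ ∈ (Finset.univ : Finset (K →+* ℂ)), ∑ j, D.h τ j * ‖L τ j‖ ^ 2 ≤ 0 :=
    fun τ _ => (D.neg (hLQ τ)).1
  have h4 : ∑ τ : K →+* ℂ, ∑ j, D.h τ j * ‖L τ j‖ ^ 2 ≤ 0 := Finset.sum_nonpos h3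
  rcases h4.lt_or_eq with h5 | h5
  · linarith
  · exfalso
    have h6 := (Finset.sum_eq_zero_iff_of_nonpos h3).1 h5
    have h7 : ∀ τ, L τ = 0 := fun τ => (D.neg (hLQ τ)).2 (h6 τ (Finset.mem_univ τ))
    apply he
    rw [← D.Th_Xf e]
    have h8 : D.Xf e = 0 := by
      funext τ j
      have h9 : D.Xf (Complex.I • e) τ j - Complex.I * D.Xf e τ j = 0 := by
        have := congrFun (h7 τ) j
        rw [hL] at this
        exact this
      have h10 : D.Xf (Complex.I • e) (cj τ) j - Complex.I * D.Xf e (cj τ) j = 0 := by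
        have := congrFun (h7 (cj τ)) j
        rw [hL] at this
        exact this
      rw [D.Xf_R _ τ, D.Xf_R _ τ] at h10
      have h11 := congrArg (starRingEnd ℂ) h10
      simp only [map_sub, map_mul, Complex.conj_I, Complex.conj_conj, map_zero] at h11
      have h12 : 2 * Complex.I * D.Xf e τ j = 0 := by linear_combination h11 - h9
      have h13 : (2 * Complex.I) ≠ 0 := mul_ne_zero two_ne_zero Complex.I_ne_zero
      exact (mul_eq_zero.1 h12).resolve_left h13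
    rw [h8, map_zero]

theorem isPol : IsPolarisation D.Λ D.ψ :=
  ⟨D.ψ_alt, D.ψ_int, D.ψ_inv, D.ψ_pos⟩

end Per

end Pool.MP43e44c.IR
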