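import Pool.Agent.H.MP_43e44c_ag.IR.ExSign

/-!
Period matrices for unitary groups: orthogonality and positivity.
-/

set_option autoImplicit false

open NumberField Module

namespace Pool.MP43e44c.IR

open PE (cj cj_cj cj_ne)

/-- Signs, purely imaginary integers and periods. -/
structure Per (K : Type*) [Field K] [NumberField K] [IsCMField K] (N : ℕ) where
  S : (K →+* ℂ) → Finset (Fin N)
  δ : Fin N → K
  z : (K →+* ℂ) → Fin N → Fin N → ℂ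
  S_cj : ∀ τ j, j ∈ S (cj τ) ↔ j ∉ S τ
  δ_int : ∀ j, IsIntegral ℤ (δ j)
  δ_cj : ∀ j, IsCMField.complexConj K (δ j) = -δ j
  δ_pos : ∀ τ j, j ∈ S τ ↔ 0 < (τ (δ j)).im
  δ_ne : ∀ (τ : K →+* ℂ) j, (τ (δ j)).im ≠ 0
  rel : ∀ τ j b, j ∈ S τ → b ∉ S τ → τ (δ b) * z (cj τ) b j = -(τ (δ j) * z τ j b)
  small : ∀ τ j b, j ∈ S τ → b ∉ S τ →
    (N : ℝ) ^ 2 * |(τ (δ j)).im| * ‖z τ j b‖ ^ 2 < |(τ (δ b)).im|

namespace Per

variable {K : Type*} [Field K] [NumberField K] [IsCMField K] {N : ℕ} (D : Per K N)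

/-- The imaginary parts. -/
def h (τ : K →+* ℂ) (j : Fin N) : ℝ := (τ (D.δ j)).im

/-- The vectors killed by the periods. -/
def Q (τ : K →+* ℂ) (A : Fin N → ℂ) : Prop :=
  ∀ j ∈ D.S τ, A j + ∑ b ∈ (D.S τ)ᶜ, D.z τ j b * A b = 0

theorem conj_δ (τ : K →+* ℂ) (j : Fin N) : starRingEnd ℂ (τ (D.δ j)) = -τ (D.δ j) := by
  have h1 := IsCMField.complexEmbedding_complexConj K τ (D.δ j)
  rw [D.δ_cj, map_neg] at h1
  exact h1.symm

theorem τδ (τ : K →+* ℂ) (j : Fin N) : τ (D.δ j) = D.h τ j * Complex.I := by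
  have h1 := congrArg Complex.re (D.conj_δ τ j)
  rw [Complex.conj_re, Complex.neg_re] at h1
  refine Complex.ext ?_ ?_
  · simp
    linarith
  · simp [h]

theorem h_cj (τ : K →+* ℂ) (j : Fin N) : D.h (cj τ) j = -D.h τ j := conj_im τ _

theorem h_ne (τ : K →+* ℂ) (j : Fin N) : D.h τ j ≠ 0 := D.δ_ne τ j

theorem h_pos {τ : K →+* ℂ} {j : Fin N} (hj : j ∈ D.S τ) : 0 < D.h τ j := (D.δ_pos τ j).1 hj

theorem h_neg {τ : K →+* ℂ} {j : Fin N} (hj : j ∉ D.S τ) : D.h τ j < 0 :=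
  lt_of_le_of_ne (not_lt.1 fun h => hj ((D.δ_pos τ j).2 h)) (D.h_ne τ j)

theorem mem_compl_iff {τ : K →+* ℂ} {j : Fin N} : j ∈ (D.S τ)ᶜ ↔ j ∉ D.S τ := Finset.mem_compl

theorem S_cj_eq (τ : K →+* ℂ) : D.S (cj τ) = (D.S τ)ᶜ := by
  ext j
  rw [D.S_cj, Finset.mem_compl]

theorem orth {τ : K →+* ℂ} {A B : Fin N → ℂ} (hA : D.Q τ A) (hB : D.Q (cj τ) B) :
    ∑ j, τ (D.δ j) * (A j * B j) = 0 := by
  classical
  rw [← Finset.sum_add_sum_compl (D.S τ)]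
  have h1 : ∀ j ∈ D.S τ, τ (D.δ j) * (A j * B j) =
      ∑ b ∈ (D.S τ)ᶜ, -(τ (D.δ j) * D.z τ j b * (A b * B j)) := by
    intro j hj
    have h2 : A j = -∑ b ∈ (D.S τ)ᶜ, D.z τ j b * A b := eq_neg_of_add_eq_zero_left (hA j hj)
    rw [h2, neg_mul, mul_neg, Finset.sum_mul, Finset.mul_sum, ← Finset.sum_neg_distrib]
    refine Finset.sum_congr rfl fun b _ => ?_
    ring
  have h3 : ∀ b ∈ (D.S τ)ᶜ, τ (D.δ b) * (A b * B b) =
      ∑ j ∈ D.S τ, τ (D.δ j) * D.z τ j b * (A b * B j) := by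
    intro b hb
    have hb' := Finset.mem_compl.1 hb
    have h2 : B b = -∑ j ∈ D.S τ, D.z (cj τ) b j * B j := by
      have h4 := hB b ((D.S_cj τ b).2 hb')
      rw [D.S_cj_eq, compl_compl] at h4
      exact eq_neg_of_add_eq_zero_left h4
    rw [h2, mul_neg, mul_neg, Finset.mul_sum, Finset.mul_sum, ← Finset.sum_neg_distrib]
    refine Finset.sum_congr rfl fun j hj => ?_
    have h5 := D.rel τ j b hj hb'
    linear_combination -(A b * B j) * h5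
  rw [Finset.sum_congr rfl h1, Finset.sum_congr rfl h3, Finset.sum_comm]
  rw [← Finset.sum_add_distrib]
  refine Finset.sum_eq_zero fun b _ => ?_
  rw [← Finset.sum_add_distrib]
  refine Finset.sum_eq_zero fun j _ => ?_
  ring

/-- The hermitian form is negative definite on the killed vectors. -/
theorem neg {τ : K →+* ℂ} {A : Fin N → ℂ} (hA : D.Q τ A) :
    ∑ j, D.h τ j * ‖A j‖ ^ 2 ≤ 0 ∧ (∑ j, D.h τ j * ‖A j‖ ^ 2 = 0 → A = 0) := by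
  classical
  rw [← Finset.sum_add_sum_compl (D.S τ)]
  -- the positive coordinates
  have h1 : ∀ j ∈ D.S τ, ‖A j‖ ^ 2 ≤ N * ∑ b ∈ (D.S τ)ᶜ, ‖D.z τ j b‖ ^ 2 * ‖A b‖ ^ 2 := by
    intro j hj
    have h2 : A j = -∑ b ∈ (D.S τ)ᶜ, D.z τ j b * A b := eq_neg_of_add_eq_zero_left (hA j hj)
    have h3 : ‖A j‖ ≤ ∑ b ∈ (D.S τ)ᶜ, ‖D.z τ j b‖ * ‖A b‖ := by
      rw [h2, norm_neg]
      refine (norm_sum_le _ _).trans (le_of_eq ?_)
      exact Finset.sum_congr rfl fun b _ => norm_mul _ _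
    have h4 : ‖A j‖ ^ 2 ≤ (∑ b ∈ (D.S τ)ᶜ, ‖D.z τ j b‖ * ‖A b‖) ^ 2 :=
      pow_le_pow_left₀ (norm_nonneg _) h3 2
    have h5 : (∑ b ∈ (D.S τ)ᶜ, ‖D.z τ j b‖ * ‖A b‖) ^ 2 ≤
        ((D.S τ)ᶜ.card : ℝ) * ∑ b ∈ (D.S τ)ᶜ, (‖D.z τ j b‖ * ‖A b‖) ^ 2 :=
      sq_sum_le_card_mul_sum_sq
    have h6 : (((D.S τ)ᶜ.card : ℕ) : ℝ) ≤ N := by
      have h7 := Finset.card_le_univ (D.S τ)ᶜ
      rw [Fintype.card_fin] at h7
      exact_mod_cast h7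
    have h8 : ∑ b ∈ (D.S τ)ᶜ, (‖D.z τ j b‖ * ‖A b‖) ^ 2 =
        ∑ b ∈ (D.S τ)ᶜ, ‖D.z τ j b‖ ^ 2 * ‖A b‖ ^ 2 :=
      Finset.sum_congr rfl fun b _ => mul_pow _ _ _
    rw [h8] at h5
    refine h4.trans (h5.trans (mul_le_mul_of_nonneg_right h6 ?_))
    exact Finset.sum_nonneg fun b _ => by positivity
  -- the weights
  have h2 : ∀ b ∈ (D.S τ)ᶜ, ∑ j ∈ D.S τ, N * (D.h τ j * ‖D.z τ j b‖ ^ 2) < -D.h τ b := by
    intro b hb
    have hb' := Finset.mem_compl.1 hb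
    have hbn : 0 < -D.h τ b := by have := D.h_neg hb'; linarith
    have hN : (0 : ℝ) < N := by
      have : 0 < N := Nat.lt_of_le_of_lt (Nat.zero_le _) b.isLt
      exact_mod_cast this
    rcases (D.S τ).eq_empty_or_nonempty with h3 | h3
    · rw [h3, Finset.sum_empty]
      exact hbn
    · have h4 : ∀ j ∈ D.S τ, N * (D.h τ j * ‖D.z τ j b‖ ^ 2) < (-D.h τ b) / N := by
        intro j hj
        rw [lt_div_iff₀ hN]
        have h5 := D.small τ j b hj hb'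
        rw [show |(τ (D.δ j)).im| = D.h τ j from abs_of_pos (D.h_pos hj),
          show |(τ (D.δ b)).im| = -D.h τ b from abs_of_neg (D.h_neg hb')] at h5
        linarith
      have h5 := Finset.sum_lt_sum_of_nonempty h3 h4
      refine h5.trans_le ?_
      rw [Finset.sum_const, nsmul_eq_mul]
      have h6 : (((D.S τ).card : ℕ) : ℝ) ≤ N := by
        have h7 := Finset.card_le_univ (D.S τ)
        rw [Fintype.card_fin] at h7
        exact_mod_cast h7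
      calc ((D.S τ).card : ℝ) * (-D.h τ b / N) ≤ N * (-D.h τ b / N) :=
            mul_le_mul_of_nonneg_right h6 (by positivity)
        _ = -D.h τ b := by field_simp
  -- the total
  have h3 : ∑ j ∈ D.S τ, D.h τ j * ‖A j‖ ^ 2 ≤
      ∑ b ∈ (D.S τ)ᶜ, (∑ j ∈ D.S τ, N * (D.h τ j * ‖D.z τ j b‖ ^ 2)) * ‖A b‖ ^ 2 := by
    have h4 : ∀ j ∈ D.S τ, D.h τ j * ‖A j‖ ^ 2 ≤
        ∑ b ∈ (D.S τ)ᶜ, N * (D.h τ j * ‖D.z τ j b‖ ^ 2) * ‖A b‖ ^ 2 := by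
      intro j hj
      refine (mul_le_mul_of_nonneg_left (h1 j hj) (D.h_pos hj).le).trans (le_of_eq ?_)
      rw [Finset.mul_sum, Finset.mul_sum]
      refine Finset.sum_congr rfl fun b _ => ?_
      ring
    refine (Finset.sum_le_sum h4).trans (le_of_eq ?_)
    rw [Finset.sum_comm]
    exact Finset.sum_congr rfl fun b _ => (Finset.sum_mul _ _ _).symm
  have h4 : ∀ b ∈ (D.S τ)ᶜ, ((∑ j ∈ D.S τ, N * (D.h τ j * ‖D.z τ j b‖ ^ 2)) + D.h τ b) *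
      ‖A b‖ ^ 2 ≤ 0 := fun b hb =>
    mul_nonpos_of_nonpos_of_nonneg (by have := h2 b hb; linarith) (by positivity)
  have h5 : ∑ j ∈ D.S τ, D.h τ j * ‖A j‖ ^ 2 + ∑ b ∈ (D.S τ)ᶜ, D.h τ b * ‖A b‖ ^ 2 ≤
      ∑ b ∈ (D.S τ)ᶜ, ((∑ j ∈ D.S τ, N * (D.h τ j * ‖D.z τ j b‖ ^ 2)) + D.h τ b) *
      ‖A b‖ ^ 2 := by
    simp only [add_mul, Finset.sum_add_distrib]
    linarith
  refine ⟨h5.trans (Finset.sum_nonpos h4), fun h0 => ?_⟩
  rw [h0] at h5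
  have h6 : ∑ b ∈ (D.S τ)ᶜ, ((∑ j ∈ D.S τ, N * (D.h τ j * ‖D.z τ j b‖ ^ 2)) + D.h τ b) *
      ‖A b‖ ^ 2 = 0 := le_antisymm (Finset.sum_nonpos h4) h5
  have h7 := (Finset.sum_eq_zero_iff_of_nonpos h4).1 h6
  have h8 : ∀ b ∈ (D.S τ)ᶜ, A b = 0 := by
    intro b hb
    rcases mul_eq_zero.1 (h7 b hb) with h9 | h9
    · have := h2 b hb
      linarith
    · exact norm_eq_zero.1 (pow_eq_zero_iff two_ne_zero |>.1 h9)
  funext j
  by_cases hj : j ∈ D.S τ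
  · have h9 := hA j hj
    rw [Finset.sum_eq_zero fun b hb => by rw [h8 b hb, mul_zero], add_zero] at h9
    exact h9
  · exact h8 j (Finset.mem_compl.2 hj)

end Per

end Pool.MP43e44c.IR
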