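import Pool.Agent.H.MP_43e44c_ag.IR.Crits

/-!
Purely imaginary integers with prescribed signs.
-/

set_option autoImplicit false

open NumberField Module

namespace Pool.MP43e44c.IR

variable {K : Type*} [Field K] [NumberField K]

theorem weak_approx (x : InfinitePlace K → K) {ε : ℝ} (hε : 0 < ε) :
    ∃ y : K, ∀ w : InfinitePlace K, w (x w - y) < ε := by
  obtain ⟨y, hy⟩ := (InfinitePlace.denseRange_algebraMap_pi K).exists_dist_lt
    (fun w => WithAbs.toAbs w.1 (x w)) hε
  refine ⟨y, fun w => ?_⟩
  have := (dist_pi_lt_iff hε).1 hy w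
  rw [dist_eq_norm] at this
  exact this

variable [IsCMField K]

theorem exists_odd : ∃ a : K, IsCMField.complexConj K a = -a ∧ a ≠ 0 := by
  obtain ⟨y, hy⟩ : ∃ y : K, IsCMField.complexConj K y ≠ y := by
    by_contra h
    push Not at h
    apply IsCMField.complexConj_ne_one K
    ext x
    exact h x
  refine ⟨y - IsCMField.complexConj K y, ?_, ?_⟩
  · rw [map_sub, IsCMField.complexConj_apply_apply, neg_sub]
  · intro h
    exact hy (sub_eq_zero.1 h).symm

omit [NumberField K] [IsCMField K] in
theorem conj_im (φ : K →+* ℂ) (x : K) : (ComplexEmbedding.conjugate φ x).im = -(φ x).im := by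
  show (starRingEnd ℂ (φ x)).im = _
  rw [Complex.conj_im]

theorem im_conj (φ : K →+* ℂ) (x : K) : (φ (IsCMField.complexConj K x)).im = -(φ x).im := by
  rw [IsCMField.complexEmbedding_complexConj, Complex.conj_im]

/-- For every CM type there is a purely imaginary integer with positive imaginary part exactly at its embeddings. -/
theorem exists_sign {Ψ : Finset (K →+* ℂ)} (hΨ : IsCMType Ψ) :
    ∃ δ : K, IsIntegral ℤ δ ∧ IsCMField.complexConj K δ = -δ ∧
      ∀ τ : K →+* ℂ, (τ δ).im ≠ 0 ∧ (τ ∈ Ψ ↔ 0 < (τ δ).im) := by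
  classical
  obtain ⟨a, ha, ha0⟩ := exists_odd (K := K)
  have him : ∀ φ : K →+* ℂ, (φ a).re = 0 := by
    intro φ
    have h1 := IsCMField.complexEmbedding_complexConj K φ a
    rw [ha, map_neg] at h1
    have h2 := congrArg Complex.re h1
    rw [Complex.neg_re, Complex.conj_re] at h2
    linarith
  have him0 : ∀ φ : K →+* ℂ, (φ a).im ≠ 0 := by
    intro φ h
    have h1 : φ a = 0 := Complex.ext (him φ) h
    exact ha0 ((map_eq_zero φ).1 h1)
  -- the target
  obtain ⟨x, hx⟩ : ∃ x : InfinitePlace K → K, ∀ w, (x w = a ∨ x w = -a) ∧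
      (w.embedding ∈ Ψ ↔ 0 < (w.embedding (x w)).im) := by
    refine ⟨fun w => if (w.embedding ∈ Ψ ↔ 0 < (w.embedding a).im) then a else -a, fun w => ?_⟩
    by_cases h : (w.embedding ∈ Ψ ↔ 0 < (w.embedding a).im)
    · simp only [if_pos h]
      exact ⟨Or.inl trivial, h⟩
    · simp only [if_neg h]
      refine ⟨Or.inr trivial, ?_⟩
      rw [map_neg, Complex.neg_im]
      have h1 := him0 w.embedding
      by_cases h2 : w.embedding ∈ Ψ
      · have h3 : ¬ 0 < (w.embedding a).im := fun h3 => h ⟨fun _ => h3, fun _ => h2⟩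
        refine ⟨fun _ => ?_, fun _ => h2⟩
        rcases lt_trichotomy (w.embedding a).im 0 with h4 | h4 | h4
        · linarith
        · exact absurd h4 h1
        · exact absurd h4 h3
      · have h3 : 0 < (w.embedding a).im := by
          by_contra h3
          exact h ⟨fun h4 => absurd h4 h2, fun h4 => absurd h4 h3⟩
        refine ⟨fun h4 => absurd h4 h2, fun h4 => ?_⟩
        linarith
  have hwpos : ∀ w : InfinitePlace K, 0 < w a := fun w => InfinitePlace.pos_iff.2 ha0
  obtain ⟨ε, hε, hεw⟩ : ∃ ε : ℝ, 0 < ε ∧ ∀ w : InfinitePlace K, ε ≤ w a := by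
    obtain ⟨w₀⟩ : Nonempty (InfinitePlace K) := inferInstance
    obtain ⟨w₁, -, h1⟩ := Finset.exists_min_image Finset.univ (fun w : InfinitePlace K => w a)
      ⟨w₀, Finset.mem_univ w₀⟩
    exact ⟨w₁ a, hwpos w₁, fun w => h1 w (Finset.mem_univ w)⟩
  obtain ⟨y, hy⟩ := weak_approx x hε
  -- the sign at the embedding of a place
  have hsign : ∀ w : InfinitePlace K, (w.embedding y).im ≠ 0 ∧
      (w.embedding ∈ Ψ ↔ 0 < (w.embedding y).im) := by
    intro w
    have h1 : w (x w - y) < w a := (hy w).trans_le (hεw w)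
    have h2 : |(w.embedding (x w)).im - (w.embedding y).im| < |(w.embedding a).im| := by
      have h3 : ‖w.embedding (x w - y)‖ < ‖w.embedding a‖ := by
        rw [InfinitePlace.norm_embedding_eq, InfinitePlace.norm_embedding_eq]
        exact h1
      have h4 : ‖w.embedding a‖ = |(w.embedding a).im| := by
        have h5 : w.embedding a = (w.embedding a).im * Complex.I :=
          Complex.ext (by simp [him]) (by simp)
        rw [h5, norm_mul, Complex.norm_I, mul_one, Complex.norm_real]
        simp
      rw [h4] at h3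
      refine lt_of_le_of_lt ?_ h3
      have h5 := Complex.abs_im_le_norm (w.embedding (x w - y))
      rw [map_sub, Complex.sub_im] at h5
      rwa [map_sub]
    have h3 : |(w.embedding (x w)).im| = |(w.embedding a).im| := by
      rcases (hx w).1 with h | h
      · rw [h]
      · rw [h, map_neg, Complex.neg_im, abs_neg]
    rw [← h3] at h2
    rw [(hx w).2]
    rcases lt_or_ge 0 (w.embedding (x w)).im with h4 | h4
    · rw [abs_of_pos h4, abs_lt] at h2
      constructor
      · intro h5
        rw [h5] at h2
        linarith [h2.2]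
      · exact ⟨fun _ => by linarith [h2.2], fun _ => h4⟩
    · rw [abs_of_nonpos h4, abs_lt] at h2
      constructor
      · intro h5
        rw [h5] at h2
        linarith [h2.1]
      · exact ⟨fun h5 => absurd h5 (not_lt.2 h4), fun h5 => by linarith [h2.1]⟩
  have hall : ∀ τ : K →+* ℂ, (τ y).im ≠ 0 ∧ (τ ∈ Ψ ↔ 0 < (τ y).im) := by
    intro τ
    rcases InfinitePlace.mk_eq_iff.1 (InfinitePlace.mk_embedding (InfinitePlace.mk τ)) with h | h
    · rw [← h]
      exact hsign _
    · have h1 := hsign (InfinitePlace.mk τ)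
      have h2 : (InfinitePlace.mk τ).embedding = ComplexEmbedding.conjugate τ := by
        have h4 : PE.cj (PE.cj (InfinitePlace.mk τ).embedding) = PE.cj τ := congrArg PE.cj h
        rw [PE.cj_cj] at h4
        exact h4
      rw [h2, conj_im] at h1
      refine ⟨fun h3 => h1.1 (by rw [h3, neg_zero]), ?_⟩
      rw [hΨ τ, h1.2]
      have h5 := h1.1
      constructor
      · intro h3
        rcases lt_trichotomy (τ y).im 0 with h6 | h6 | h6
        · exact absurd (by linarith) h3
        · exact absurd (by rw [h6, neg_zero]) h5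
        · exact h6
      · intro h3
        linarith
  obtain ⟨n, hn, hnint⟩ := IsAlgebraic.exists_integral_multiple (R := ℤ)
    ((IsFractionRing.isAlgebraic_iff ℤ ℚ K).2
      (Algebra.IsAlgebraic.isAlgebraic (y - IsCMField.complexConj K y)))
  have hn2 : (n : ℤ) * n ≠ 0 := mul_ne_zero hn hn
  refine ⟨(n * n : ℤ) • (y - IsCMField.complexConj K y), ?_, ?_, fun τ => ?_⟩
  · rw [mul_smul]
    exact hnint.zsmul n
  · rw [map_zsmul, map_sub, IsCMField.complexConj_apply_apply, ← smul_neg, neg_sub]
  · have h1 : (τ ((n * n : ℤ) • (y - IsCMField.complexConj K y))).im = (n * n : ℤ) * (2 * (τ y).im) := by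
      rw [map_zsmul, map_sub, zsmul_eq_mul, Complex.mul_im, Complex.intCast_re, Complex.intCast_im,
        zero_mul, add_zero, Complex.sub_im, im_conj]
      ring
    rw [h1]
    have h2 : (0 : ℝ) < ((n * n : ℤ) : ℝ) := by
      have h3 : (0 : ℤ) < n * n := mul_self_pos.2 hn
      exact_mod_cast h3
    constructor
    · exact mul_ne_zero h2.ne' (mul_ne_zero two_ne_zero (hall τ).1)
    · rw [(hall τ).2]
      constructor
      · intro h3
        positivity
      · intro h3
        by_contra h4
        push Not at h4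
        nlinarith

end Pool.MP43e44c.IR
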