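import Pool.Agent.H.MP_43e44c_ag.IR.ExPos

/-!
The lattice of a period matrix.
-/

set_option autoImplicit false

open NumberField Module

namespace Pool.MP43e44c.IR

open PE (cj cj_cj cj_ne)

namespace Per

variable {K : Type*} [Field K] [NumberField K] [IsCMField K] {N : ℕ} (D : Per K N)

/-- The index set of the coordinates of the tangent space. -/
abbrev I : Type _ := {p : (K →+* ℂ) × Fin N // p.2 ∈ D.S p.1}

/-- The period map. -/
noncomputable def Th : ((K →+* ℂ) → Fin N → ℂ) →ₗ[ℂ] (D.I → ℂ) where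
  toFun X p := X p.1.1 p.1.2 + ∑ b ∈ (D.S p.1.1)ᶜ, D.z p.1.1 p.1.2 b * X p.1.1 b
  map_add' X Y := by
    funext p
    simp only [Pi.add_apply, mul_add, Finset.sum_add_distrib]
    ring
  map_smul' a X := by
    funext p
    simp only [Pi.smul_apply, smul_eq_mul, RingHom.id_apply, mul_add, Finset.mul_sum]
    congr 1
    refine Finset.sum_congr rfl fun b _ => ?_
    ring

theorem Th_apply (X : (K →+* ℂ) → Fin N → ℂ) (p : D.I) :
    D.Th X p = X p.1.1 p.1.2 + ∑ b ∈ (D.S p.1.1)ᶜ, D.z p.1.1 p.1.2 b * X p.1.1 b := rfl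

theorem Q_of_Th {X : (K →+* ℂ) → Fin N → ℂ} (h : D.Th X = 0) (τ : K →+* ℂ) : D.Q τ (X τ) :=
  fun j hj => congrFun h ⟨(τ, j), hj⟩

/-- The real vectors. -/
def IsR (X : (K →+* ℂ) → Fin N → ℂ) : Prop := ∀ τ c, X (cj τ) c = starRingEnd ℂ (X τ c)

theorem inj {X : (K →+* ℂ) → Fin N → ℂ} (hX : IsR X) (h : D.Th X = 0) : X = 0 := by
  funext τ
  have h1 := D.orth (D.Q_of_Th h τ) (D.Q_of_Th h (cj τ))
  have h2 : ∑ j, τ (D.δ j) * (X τ j * X (cj τ) j) =
      ((∑ j, D.h τ j * ‖X τ j‖ ^ 2 : ℝ) : ℂ) * Complex.I := by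
    push_cast
    rw [Finset.sum_mul]
    refine Finset.sum_congr rfl fun j _ => ?_
    rw [hX, Complex.mul_conj, Complex.normSq_eq_norm_sq, D.τδ]
    push_cast
    ring
  rw [h2] at h1
  have h3 := (mul_eq_zero.1 h1).resolve_right Complex.I_ne_zero
  exact (D.neg (D.Q_of_Th h τ)).2 (by exact_mod_cast h3)

/-- The index set of the lattice. -/
abbrev Jx (K : Type*) [Field K] [NumberField K] (N : ℕ) : Type _ :=
  Fin N × Free.ChooseBasisIndex ℤ (𝓞 K)

/-- The real vector with given real coordinates. -/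
noncomputable def Xr : (Jx K N → ℝ) →ₗ[ℝ] ((K →+* ℂ) → Fin N → ℂ) where
  toFun r τ c := ∑ i, (r (c, i) : ℂ) * τ (integralBasis K i)
  map_add' r s := by
    funext τ c
    simp only [Pi.add_apply, Complex.ofReal_add, add_mul, Finset.sum_add_distrib]
  map_smul' a r := by
    funext τ c
    simp only [Pi.smul_apply, smul_eq_mul, Complex.ofReal_mul, RingHom.id_apply,
      Complex.real_smul, Finset.mul_sum, mul_assoc]

omit [IsCMField K] in
theorem Xr_apply (r : Jx K N → ℝ) (τ : K →+* ℂ) (c : Fin N) :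
    Xr r τ c = ∑ i, (r (c, i) : ℂ) * τ (integralBasis K i) := rfl

omit [IsCMField K] in
theorem Xr_R (r : Jx K N → ℝ) : IsR (Xr r) := by
  intro τ c
  rw [Xr_apply, Xr_apply, map_sum]
  refine Finset.sum_congr rfl fun i _ => ?_
  rw [map_mul, Complex.conj_ofReal]
  rfl

omit [IsCMField K] in
theorem Xr_inj {r : Jx K N → ℝ} (h : Xr r = 0) : r = 0 := by
  funext p
  obtain ⟨c, i⟩ := p
  have h1 : ∑ i, (r (c, i) : ℂ) • canonicalEmbedding.latticeBasis K i = 0 := by
    funext τ
    have h2 := congrFun (congrFun h τ) c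
    rw [Xr_apply] at h2
    rw [Finset.sum_apply]
    refine Eq.trans (Finset.sum_congr rfl fun i _ => ?_) h2
    rw [Pi.smul_apply, canonicalEmbedding.latticeBasis_apply, canonicalEmbedding.apply_at,
      smul_eq_mul]
  have h2 := Fintype.linearIndependent_iff.1
    (canonicalEmbedding.latticeBasis K).linearIndependent _ h1 i
  exact_mod_cast h2

/-- The rational vectors. -/
def emb (x : Fin N → K) : (K →+* ℂ) → Fin N → ℂ := fun τ c => τ (x c)

omit [IsCMField K] in
theorem emb_eq (x : Fin N → K) :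
    emb x = Xr (fun p : Jx K N => (((integralBasis K).repr (x p.1) p.2 : ℚ) : ℝ)) := by
  funext τ c
  rw [Xr_apply]
  show τ (x c) = _
  conv_lhs => rw [← (integralBasis K).sum_repr (x c), map_sum]
  refine Finset.sum_congr rfl fun i _ => ?_
  rw [Rat.smul_def, map_mul, map_ratCast]
  push_cast
  rfl

theorem card_I : 2 * Fintype.card D.I = N * finrank ℚ K := by
  classical
  have h1 : Fintype.card D.I = ∑ τ : K →+* ℂ, ∑ j : Fin N, if j ∈ D.S τ then 1 else 0 := by
    rw [Fintype.card_subtype, Finset.card_filter, Fintype.sum_prod_type]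
  have h2 : Fintype.card D.I = ∑ τ : K →+* ℂ, ∑ j : Fin N, if j ∈ D.S (cj τ) then 1 else 0 := by
    rw [h1]
    exact (Equiv.sum_comp (Function.Involutive.toPerm (cj (K := K)) cj_cj)
      (fun τ : K →+* ℂ => ∑ j : Fin N, if j ∈ D.S τ then 1 else 0)).symm
  rw [two_mul]
  conv_lhs => rw [h1]
  rw [← h1]
  conv_lhs => rw [h2]
  conv_lhs => enter [1]; rw [← h2, h1]
  rw [← Finset.sum_add_distrib]
  have h3 : ∀ τ ∈ (Finset.univ : Finset (K →+* ℂ)), ((∑ j : Fin N, if j ∈ D.S τ then 1 else 0) +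
      ∑ j : Fin N, if j ∈ D.S (cj τ) then 1 else 0) = N := by
    intro τ _
    rw [← Finset.sum_add_distrib]
    have h4 : ∀ j ∈ (Finset.univ : Finset (Fin N)), ((if j ∈ D.S τ then 1 else 0) +
        if j ∈ D.S (cj τ) then 1 else 0) = 1 := by
      intro j _
      by_cases hj : j ∈ D.S τ
      · have h5 : j ∉ D.S (cj τ) := fun h6 => (D.S_cj τ j).1 h6 hj
        rw [if_pos hj, if_neg h5]
      · have h5 : j ∈ D.S (cj τ) := (D.S_cj τ j).2 hj
        rw [if_neg hj, if_pos h5]
    rw [Finset.sum_congr rfl h4]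
    simp
  rw [Finset.sum_congr rfl h3, Finset.sum_const, Finset.card_univ, NumberField.Embeddings.card,
    smul_eq_mul, mul_comm]

/-- The real coordinates. -/
noncomputable def G : (Jx K N → ℝ) →ₗ[ℝ] (D.I → ℂ) := D.Th.restrictScalars ℝ ∘ₗ Xr

theorem G_apply (r : Jx K N → ℝ) : D.G r = D.Th (Xr r) := rfl

theorem G_inj : Function.Injective D.G := by
  rw [← LinearMap.ker_eq_bot, LinearMap.ker_eq_bot']
  intro r hr
  exact Xr_inj (D.inj (Xr_R r) hr)

theorem finrank_eq : finrank ℝ (Jx K N → ℝ) = finrank ℝ (D.I → ℂ) := by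
  rw [Module.finrank_fintype_fun_eq_card, Module.finrank_pi_fintype]
  simp only [Complex.finrank_real_complex, Finset.sum_const, smul_eq_mul]
  rw [Finset.card_univ, mul_comm, D.card_I, Fintype.card_prod, Fintype.card_fin,
    ← finrank_eq_card_basis (integralBasis K)]

/-- The real coordinates. -/
noncomputable def Ge : (Jx K N → ℝ) ≃ₗ[ℝ] (D.I → ℂ) :=
  D.G.linearEquivOfInjective D.G_inj D.finrank_eq

theorem Ge_apply (r : Jx K N → ℝ) : D.Ge r = D.Th (Xr r) := rfl

/-- The real vector of a point. -/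
noncomputable def Xf : (D.I → ℂ) →ₗ[ℝ] ((K →+* ℂ) → Fin N → ℂ) := Xr ∘ₗ D.Ge.symm.toLinearMap

theorem Xf_R (e : D.I → ℂ) : IsR (D.Xf e) := Xr_R _

theorem Th_Xf (e : D.I → ℂ) : D.Th (D.Xf e) = e := D.Ge.apply_symm_apply e

theorem Xf_emb (x : Fin N → K) : D.Xf (D.Th (emb x)) = emb x := by
  rw [emb_eq, ← D.Ge_apply]
  show Xr (D.Ge.symm (D.Ge _)) = _
  rw [LinearEquiv.symm_apply_apply]

/-- The basis of the lattice. -/
noncomputable def B : Basis (Jx K N) ℝ (D.I → ℂ) := (Pi.basisFun ℝ (Jx K N)).map D.Ge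

/-- The lattice. -/
noncomputable def Λ : AddSubgroup (D.I → ℂ) := AddSubgroup.closure (Set.range D.B)

theorem isLattice : IsLattice D.Λ := by
  refine ⟨Fintype.card (Jx K N), D.B.reindex (Fintype.equivFin _), ?_⟩
  rw [Basis.range_reindex]
  rfl

omit [IsCMField K] in
theorem Xr_single [DecidableEq (Jx K N)] (p : Jx K N) :
    Xr (Pi.single p 1) = emb (K := K) (Pi.single p.1 (integralBasis K p.2)) := by
  classical
  obtain ⟨c, i⟩ := p
  funext τ c'
  rw [Xr_apply]
  show _ = τ ((Pi.single c (integralBasis K i) : Fin N → K) c')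
  by_cases hc : c' = c
  · subst hc
    rw [Pi.single_eq_same, Finset.sum_eq_single i]
    · rw [Pi.single_eq_same]
      simp
    · intro i' _ hi
      rw [Pi.single_eq_of_ne (fun h => hi (Prod.ext_iff.1 h).2)]
      simp
    · intro h
      exact absurd (Finset.mem_univ _) h
  · rw [Pi.single_eq_of_ne hc, map_zero]
    refine Finset.sum_eq_zero fun i' _ => ?_
    rw [Pi.single_eq_of_ne (fun h => hc (Prod.ext_iff.1 h).1)]
    simp

theorem mem_Λ {e : D.I → ℂ} :
    e ∈ D.Λ ↔ ∃ x : Fin N → K, (∀ c, IsIntegral ℤ (x c)) ∧ D.Th (emb x) = e := by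
  classical
  constructor
  · intro h
    refine AddSubgroup.closure_induction (p := fun e _ => ∃ x : Fin N → K,
      (∀ c, IsIntegral ℤ (x c)) ∧ D.Th (emb x) = e) ?_ ?_ ?_ ?_ h
    · rintro e ⟨p, rfl⟩
      refine ⟨Pi.single p.1 (integralBasis K p.2), fun c => ?_, ?_⟩
      · by_cases hc : c = p.1
        · subst hc
          rw [Pi.single_eq_same, integralBasis_apply]
          exact RingOfIntegers.isIntegral_coe _
        · rw [Pi.single_eq_of_ne hc]
          exact isIntegral_zero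
      · rw [← Xr_single]
        show _ = (Pi.basisFun ℝ (Jx K N)).map D.Ge p
        rw [Basis.map_apply, Pi.basisFun_apply, D.Ge_apply]
    · refine ⟨0, fun c => isIntegral_zero, ?_⟩
      have : emb (0 : Fin N → K) = 0 := by
        funext τ c
        exact map_zero τ
      rw [this, map_zero]
    · rintro e e' _ _ ⟨x, hx, rfl⟩ ⟨y, hy, rfl⟩
      refine ⟨x + y, fun c => (hx c).add (hy c), ?_⟩
      have : emb (x + y) = emb x + emb y := by
        funext τ c
        exact map_add τ _ _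
      rw [this, map_add]
    · rintro e _ ⟨x, hx, rfl⟩
      refine ⟨-x, fun c => (hx c).neg, ?_⟩
      have : emb (-x) = -emb x := by
        funext τ c
        exact map_neg τ _
      rw [this, map_neg]
  · rintro ⟨x, hx, rfl⟩
    obtain ⟨n, hn⟩ : ∃ n : Jx K N → ℤ, ∀ p : Jx K N, (integralBasis K).repr (x p.1) p.2 = n p := by
      obtain ⟨x', hx'⟩ : ∃ x' : Fin N → 𝓞 K, ∀ c, x c = algebraMap (𝓞 K) K (x' c) :=
        ⟨fun c => (⟨x c, hx c⟩ : 𝓞 K), fun c => rfl⟩
      refine ⟨fun p => (RingOfIntegers.basis K).repr (x' p.1) p.2, fun p => ?_⟩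
      rw [hx']
      exact NumberField.integralBasis_repr_apply K (x' p.1) p.2
    have h1 : D.Th (emb x) = ∑ p, n p • D.B p := by
      rw [emb_eq, ← D.Ge_apply]
      have h2 : (fun p : Jx K N => (((integralBasis K).repr (x p.1) p.2 : ℚ) : ℝ)) =
          ∑ p, n p • Pi.basisFun ℝ (Jx K N) p := by
        funext q
        rw [Finset.sum_apply, Finset.sum_eq_single q]
        · rw [hn, Pi.smul_apply, Pi.basisFun_apply, Pi.single_eq_same]
          simp
        · intro p _ hp
          rw [Pi.smul_apply, Pi.basisFun_apply, Pi.single_eq_of_ne hp.symm, smul_zero]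
        · intro h
          exact absurd (Finset.mem_univ _) h
      rw [h2, map_sum]
      refine Finset.sum_congr rfl fun p _ => ?_
      rw [map_zsmul]
      rfl
    rw [h1]
    have h3 : ∀ p, D.B p ∈ D.Λ := fun p => AddSubgroup.subset_closure (Set.mem_range_self p)
    exact AddSubgroup.sum_mem _ fun p _ => AddSubgroup.zsmul_mem _ (h3 p) _

end Per

end Pool.MP43e44c.IR
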