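import Pool.Agent.H.MP_43e44c_ag.IR.Grp
import Pool.Agent.H.MP_43e44c_ag.NT.FldB

/-!
Quartic CM fields which are not biquadratic have mixed pairs of embeddings.
-/

set_option autoImplicit false

open NumberField Module

namespace Pool.MP43e44c.IR

open NT

theorem four_aux {G : Type*} [Group G] {X : Type*} [MulAction G X] [Fintype X]
    [MulAction.IsPretransitive G X] [FaithfulSMul G X] {c : G} (hc : CC G X c)
    (h4 : Fintype.card X = 4) (hno : ¬ Mix G X c) : Nat.card G = 4 ∧ ∀ g : G, g * g = 1 := by
  classical
  unfold Mix at hno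
  push Not at hno
  obtain ⟨x, y, h1, h2, h3⟩ := hno
  have hcc : ∀ z : X, c • c • z = z := fun z => span_cc hc z
  have hcg : ∀ (g : G) (z : X), g • c • z = c • g • z := fun g z => by
    rw [smul_smul, smul_smul, hc.cen]
  have d1 : c • x ≠ x := hc.free x
  have d2 : c • y ≠ y := hc.free y
  have d3 : c • y ≠ x := fun h => h2 (by rw [← h, hcc])
  have d4 : c • y ≠ c • x := fun h => h1 (MulAction.injective c h)
  have hall : ∀ z : X, z = x ∨ z = c • x ∨ z = y ∨ z = c • y := by
    have hs : ({x, c • x, y, c • y} : Finset X) = Finset.univ := by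
      apply Finset.eq_univ_of_card
      rw [h4, Finset.card_insert_of_notMem, Finset.card_insert_of_notMem,
        Finset.card_insert_of_notMem, Finset.card_singleton]
      · rw [Finset.mem_singleton]
        exact Ne.symm d2
      · simp only [Finset.mem_insert, Finset.mem_singleton, not_or]
        exact ⟨Ne.symm h2, Ne.symm d4⟩
      · simp only [Finset.mem_insert, Finset.mem_singleton, not_or]
        exact ⟨Ne.symm d1, Ne.symm h1, Ne.symm d3⟩
    intro z
    have hz : z ∈ ({x, c • x, y, c • y} : Finset X) := by rw [hs]; exact Finset.mem_univ z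
    simpa only [Finset.mem_insert, Finset.mem_singleton] using hz
  have hstab : ∀ g : G, g • x = x → g = 1 := by
    intro g hg
    have hy : g • y = y := by
      rcases hall (g • y) with h | h | h | h
      · exact absurd (MulAction.injective g (h.trans hg.symm)) h1
      · exact absurd (MulAction.injective g (h.trans (show c • _ = g • c • x by rw [hcg, hg]))) h2
      · exact h
      · exact absurd h ((h3 g).1 hg)
    apply FaithfulSMul.eq_of_smul_eq_smul (α := X)
    intro z
    rw [one_smul]
    rcases hall z with rfl | rfl | rfl | rfl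
    · exact hg
    · rw [hcg, hg]
    · exact hy
    · rw [hcg, hy]
  have hxy : ∀ g : G, g • x = y → g * g = 1 := by
    intro g hg
    apply hstab
    rw [mul_smul, hg]
    rcases hall (g • y) with h | h | h | h
    · exact h
    · exact absurd h ((h3 g).2 hg)
    · exact absurd (MulAction.injective g (h.trans hg.symm)) h1
    · exact absurd (MulAction.injective g (h.trans (show c • _ = g • c • x by rw [hcg, hg]))) h2
  refine ⟨?_, fun g => ?_⟩
  · have hb : Function.Bijective (fun g : G => g • x) := by
      refine ⟨fun g g' hgg => ?_, fun z => MulAction.exists_smul_eq G x z⟩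
      have h5 : (g'⁻¹ * g) • x = x := by
        rw [mul_smul]
        show g'⁻¹ • (g • x) = x
        rw [show g • x = g' • x from hgg, inv_smul_smul]
      have h6 := hstab _ h5
      rw [inv_mul_eq_one] at h6
      exact h6.symm
    rw [Nat.card_congr (Equiv.ofBijective _ hb), Nat.card_eq_fintype_card, h4]
  · rcases hall (g • x) with h | h | h | h
    · rw [hstab g h, mul_one]
    · have h5 : c * g = 1 := hstab _ (by rw [mul_smul, h, hcc])
      have h6 : g = c := by
        calc g = (c * c) * g := by rw [hc.sq, one_mul]
          _ = c * (c * g) := mul_assoc _ _ _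
          _ = c := by rw [h5, mul_one]
      rw [h6, hc.sq]
    · exact hxy g h
    · have h5 : (c * g) * (c * g) = 1 := hxy _ (by rw [mul_smul, h, hcc])
      calc g * g = (c * c) * (g * g) := by rw [hc.sq, one_mul]
        _ = c * (c * g) * g := by simp only [mul_assoc]
        _ = c * (g * c) * g := by rw [hc.cen g]
        _ = (c * g) * (c * g) := by simp only [mul_assoc]
        _ = 1 := h5

variable {K : Type*} [Field K] [NumberField K]

theorem mixed_of_mix [IsCMField K] (h : Mix (GG K) (K →+* ℂ) (conjG K)) : MixedPairs K := by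
  intro τ t h1 h2
  obtain ⟨g, hg⟩ := h τ t h1 (by rw [conjG_smul]; exact h2)
  obtain ⟨σ, hσ⟩ := exists_autC g
  refine ⟨σ, ?_⟩
  rw [hσ, hσ]
  rw [conjG_smul, conjG_smul] at hg
  exact hg

/-- Quartic CM fields which are not biquadratic have mixed pairs. -/
theorem mixed_of_quartic [IsCMField K] (h4 : finrank ℚ K = 4)
    (hb : ¬ (IsGalois ℚ K ∧ IsKleinFour (K ≃ₐ[ℚ] K))) : MixedPairs K := by
  apply mixed_of_mix
  by_contra hno
  have hcard : Fintype.card (K →+* ℂ) = 4 := by rw [NumberField.Embeddings.card K ℂ, h4]
  obtain ⟨h5, h6⟩ := four_aux (cc_field (K := K)) hcard hno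
  obtain ⟨hgal, ⟨e⟩⟩ := galois_of_card (K := K) (by rw [h5, h4])
  refine hb ⟨hgal, FldB_klein ?_ ?_⟩
  · rw [Nat.card_congr e.toEquiv, h5]
  · intro g
    apply e.injective
    rw [map_mul, map_one]
    exact h6 _

end Pool.MP43e44c.IR
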