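import Pool.Agent.H.MP_43e44c_ag.NT.Span

/-!
The Gram matrix of the translates of an odd function.
-/

set_option autoImplicit false

open Finset Module

namespace Pool.MP43e44c.IR

open NT

variable {G : Type*} [Group G] {X : Type*} [MulAction G X]

/-- Every pair of points `x, y` with `y ≠ x, c x` is moved by the group to `(x, c y)` or to `(y, c x)`. -/
def Mix (G : Type*) [Group G] (X : Type*) [MulAction G X] (c : G) : Prop :=
  ∀ x y : X, y ≠ x → y ≠ c • x → ∃ g : G, (g • x = x ∧ g • y = c • y) ∨ (g • x = y ∧ g • y = c • x)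

/-- The Gram matrix of the translates of `f`. -/
def gram (G : Type*) [Group G] {X : Type*} [MulAction G X] [Fintype G] (f : X → ℚ) (x y : X) : ℚ :=
  ∑ g : G, f (g • x) * f (g • y)

variable [Fintype G]

theorem gram_comm (f : X → ℚ) (x y : X) : gram G f x y = gram G f y x :=
  Finset.sum_congr rfl fun _ _ => mul_comm _ _

theorem gram_smul (f : X → ℚ) (h : G) (x y : X) : gram G f (h • x) (h • y) = gram G f x y := by
  unfold gram
  refine Fintype.sum_equiv (Equiv.mulRight h) _ _ fun g => ?_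
  rw [Equiv.coe_mulRight, mul_smul, mul_smul]

theorem gram_neg {c : G} (hc : CC G X c) {f : X → ℚ} (hf : ∀ x, f (c • x) = -f x) (x y : X) :
    gram G f x (c • y) = -gram G f x y := by
  unfold gram
  rw [← Finset.sum_neg_distrib]
  refine Finset.sum_congr rfl fun g _ => ?_
  have h1 : g • c • y = c • g • y := by rw [smul_smul, smul_smul, hc.cen]
  rw [h1, hf, mul_neg]

theorem gram_zero {c : G} (hc : CC G X c) (hm : Mix G X c) {f : X → ℚ}
    (hf : ∀ x, f (c • x) = -f x) {x y : X} (h1 : y ≠ x) (h2 : y ≠ c • x) : gram G f x y = 0 := by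
  obtain ⟨g, ⟨h3, h4⟩ | ⟨h3, h4⟩⟩ := hm x y h1 h2
  · have h5 := gram_smul f g x y
    rw [h3, h4, gram_neg hc hf] at h5
    linarith
  · have h5 := gram_smul f g x y
    rw [h3, h4, gram_neg hc hf, gram_comm] at h5
    linarith

theorem gram_pos [MulAction.IsPretransitive G X] {f : X → ℚ} {x₀ : X} (h0 : f x₀ ≠ 0) (x : X) :
    0 < gram G f x x := by
  obtain ⟨g, hg⟩ := MulAction.exists_smul_eq G x x₀
  refine Finset.sum_pos' (fun g _ => mul_self_nonneg _) ⟨g, Finset.mem_univ g, ?_⟩
  rw [hg]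
  exact mul_self_pos.2 h0

/-- A nonzero invariant space of odd functions contains all odd functions. -/
theorem mem_of_mix [Fintype X] [MulAction.IsPretransitive G X] {c : G} (hc : CC G X c)
    (hm : Mix G X c) {W : Submodule ℚ (X → ℚ)} (hW : ∀ z ∈ W, ∀ x, z (c • x) = -z x)
    (hG : ∀ z ∈ W, ∀ g : G, (fun x => z (g • x)) ∈ W) (h0 : W ≠ ⊥) {z : X → ℚ}
    (hz : ∀ x, z (c • x) = -z x) : z ∈ W := by
  classical
  obtain ⟨f, hfW, hf0⟩ := (Submodule.ne_bot_iff W).1 h0
  have hf := hW f hfW
  obtain ⟨x₀, hx₀⟩ : ∃ x₀, f x₀ ≠ 0 := by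
    by_contra h
    push Not at h
    exact hf0 (funext h)
  have hpos : ∀ t, gram G f t t ≠ 0 := fun t => (gram_pos (G := G) hx₀ t).ne'
  have hcg : ∀ t, gram G f (c • t) (c • t) = gram G f t t := fun t => gram_smul f c t t
  have key : z = ∑ t : X, ((1 / 2 : ℚ) * (z t / gram G f t t)) • ∑ g : G, f (g • t) •
      (fun x => f (g • x)) := by
    funext x
    rw [Finset.sum_apply]
    have h1 : ∀ t : X, (((1 / 2 : ℚ) * (z t / gram G f t t)) • ∑ g : G, f (g • t) •
        (fun x => f (g • x))) x = (1 / 2 : ℚ) * (z t / gram G f t t) * gram G f x t := by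
      intro t
      rw [Pi.smul_apply, Finset.sum_apply, smul_eq_mul]
      unfold gram
      congr 1
      refine Finset.sum_congr rfl fun g _ => ?_
      rw [Pi.smul_apply, smul_eq_mul, mul_comm]
    rw [Finset.sum_congr rfl fun t _ => h1 t]
    have h2 : ∑ t : X, (1 / 2 : ℚ) * (z t / gram G f t t) * gram G f x t =
        (1 / 2 : ℚ) * (z x / gram G f x x) * gram G f x x +
        (1 / 2 : ℚ) * (z (c • x) / gram G f (c • x) (c • x)) * gram G f x (c • x) := by
      rw [← Finset.sum_pair (f := fun t => (1 / 2 : ℚ) * (z t / gram G f t t) * gram G f x t)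
        (Ne.symm (hc.free x))]
      refine (Finset.sum_subset (Finset.subset_univ _) fun t _ ht => ?_).symm
      rw [Finset.mem_insert, Finset.mem_singleton, not_or] at ht
      rw [gram_zero hc hm hf ht.1 ht.2, mul_zero]
    rw [h2, hcg, hz, gram_neg hc hf]
    field_simp [hpos x]
    ring
  rw [key]
  refine Submodule.sum_mem _ fun t _ => Submodule.smul_mem _ _ (Submodule.sum_mem _ fun g _ => ?_)
  exact Submodule.smul_mem _ _ (hG f hfW g)

end Pool.MP43e44c.IR
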