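import Pool.Agent.H.MP_43e44c_ag.IR.Gram
import Pool.Agent.H.MP_43e44c_ag.NT.FldA
import Pool.Agent.H.MP_43e44c_ag.PE.Main

/-!
CM fields with mixed pairs of embeddings.
-/

set_option autoImplicit false

open NumberField Finset Module

namespace Pool.MP43e44c

/-- Any two embeddings `τ, t` of `K` at different places are mapped by some automorphism of `ℂ` to `τ, conj t` or to
`t, conj τ`. -/
def MixedPairs (K : Type*) [Field K] : Prop :=
  ∀ τ t : K →+* ℂ, t ≠ τ → t ≠ ComplexEmbedding.conjugate τ → ∃ σ : ℂ ≃+* ℂ,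
    ((σ : ℂ →+* ℂ).comp τ = τ ∧ (σ : ℂ →+* ℂ).comp t = ComplexEmbedding.conjugate t) ∨
    ((σ : ℂ →+* ℂ).comp τ = t ∧ (σ : ℂ →+* ℂ).comp t = ComplexEmbedding.conjugate τ)

namespace IR

open NT

variable {K : Type*} [Field K] [NumberField K]

/-- The restriction of an automorphism of `ℂ` to the Galois closure. -/
theorem exists_gg (σ : ℂ ≃+* ℂ) : ∃ g : GG K, ∀ φ : K →+* ℂ, g • φ = (σ : ℂ →+* ℂ).comp φ := by
  let s : ℂ ≃ₐ[ℚ] ℂ := AlgEquiv.ofRingEquiv (f := σ) (fun q => map_ratCast σ q)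
  refine ⟨s.restrictNormal (GC K), fun φ => ?_⟩
  ext x
  rw [smul_apply]
  have h := AlgEquiv.restrictNormal_commutes s (GC K) (lft φ x)
  exact h

/-- Extension of an automorphism of the Galois closure to `ℂ`. -/
theorem exists_autC (g : GG K) : ∃ σ : ℂ ≃+* ℂ, ∀ φ : K →+* ℂ, (σ : ℂ →+* ℂ).comp φ = g • φ := by
  have h1 : FiniteDimensional ℚ (GC K) := inferInstance
  have h2 : NumberField (GC K) := ⟨⟩
  obtain ⟨σ, hσ⟩ := PE.exists_aut (K := GC K) (algebraMap (GC K) ℂ)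
    ((algebraMap (GC K) ℂ).comp (g : GC K →+* GC K))
  refine ⟨σ, fun φ => ?_⟩
  ext x
  have h := congrArg (fun f : GC K →+* ℂ => f (lft φ x)) hσ
  exact h

theorem mix_of_mixed (h : MixedPairs K) : Mix (GG K) (K →+* ℂ) (conjG K) := by
  intro τ t h1 h2
  rw [conjG_smul] at h2
  obtain ⟨σ, hσ⟩ := h τ t h1 h2
  obtain ⟨g, hg⟩ := exists_gg (K := K) σ
  refine ⟨g, ?_⟩
  rw [hg, hg, conjG_smul, conjG_smul]
  exact hσ

end IR

end Pool.MP43e44c
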