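import Pool.Agent.H.MP_43e44c_ag.PE.Main

/-!
Multiplicities with sum one.
-/

set_option autoImplicit false

open NumberField Module Matrix

namespace Pool.MP43e44c.IR

open PE

/-- An endomorphism of a line with trace zero is zero. -/
theorem end_zero {W : Type*} [AddCommGroup W] [Module ℂ W] (h1 : finrank ℂ W = 1)
    (f : Module.End ℂ W) (h : LinearMap.trace ℂ W f = 0) : f = 0 := by
  obtain ⟨v, hv, hspan⟩ := finrank_eq_one_iff'.1 h1
  obtain ⟨c, hc⟩ := hspan (f v)
  have h2 : f = c • LinearMap.id := by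
    refine LinearMap.ext fun w => ?_
    obtain ⟨a, rfl⟩ := hspan w
    rw [map_smul, ← hc, LinearMap.smul_apply, LinearMap.id_apply, smul_comm]
  have h3 : FiniteDimensional ℂ W := FiniteDimensional.of_finrank_pos (by omega)
  rw [h2, map_smul, LinearMap.trace_id, h1, Nat.cast_one, smul_eq_mul, mul_one] at h
  rw [h2, h, zero_smul]

variable {m : ℕ} {K : Type*} [Field K] [NumberField K] [IsCMField K] (D : Dat K m)

theorem fu_of_one (hm : 0 < m) (h1 : ∀ τ, D.mul τ + D.mul (cj τ) = 1) : D.Fu := by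
  intro τ X hX h0 htr
  have key : ∀ t, (D.e t * X).trace = 0 → D.e t * X = 0 := by
    intro t ht
    have h2 : D.cp t X = 0 := end_zero (by rw [finrank_W, h1]) _ (by rw [trace_cp, ht])
    have h3 : D.cp t X = D.cp t 0 := by rw [h2, map_zero]
    have h4 := (cp_eq_iff D t (hX.1 t) (by rw [zero_mul, mul_zero])).1 h3
    rw [h4, mul_zero]
  have h2 : ∀ t, D.e t * X = 0 := by
    intro t
    by_cases ht : t = τ
    · rw [ht]
      exact key τ htr
    by_cases ht' : t = cj τ
    · rw [ht']
      refine key _ ?_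
      rw [uall_odd D hm hX, htr, neg_zero]
    exact h0 t ht ht'
  have h3 : X = 0 := by
    calc X = (∑ t, D.e t) * X := by rw [e_sum, one_mul]
      _ = 0 := by
        rw [Finset.sum_mul]
        exact Finset.sum_eq_zero fun t _ => h2 t
  rw [h3]
  exact D.G.zero_mem

variable {E : Type*} [AddCommGroup E] [Module ℂ E] [Module ℝ E] [IsScalarTower ℝ ℂ E]

/-- The theorem for multiplicities with sum one. -/
theorem main_cm {Λ : AddSubgroup E} {ι : K →+* Module.End ℂ E} (h : HasEndK Λ ι)
    (h1 : ∀ τ, mult ι τ + mult ι (ComplexEmbedding.conjugate τ) = 1)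
    (h2 : NondegMult (mult ι)) (k p : ℕ) : GeneratedByDivisors (powLattice Λ k) p := by
  obtain ⟨m, b, hΛ⟩ := h.lat
  obtain ⟨ψ, hψ⟩ := h.pol
  obtain ⟨D, hD⟩ := exists_repr (K := K) b hΛ hψ h.endo
  have hmul : ∀ τ, D.mul τ = mult ι τ := mul_eq_mult hD
  have hD1 : ∀ τ, D.mul τ + D.mul (cj τ) = 1 := fun τ => by rw [hmul, hmul]; exact h1 τ
  have hm : 0 < m := by
    rcases Nat.eq_zero_or_pos m with h | h
    · exfalso
      subst h
      obtain ⟨τ₀⟩ : Nonempty (K →+* ℂ) := inferInstance
      have h0 : ∀ τ, D.mul τ = 0 := fun τ => by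
        have h1 : finrank ℂ (D.eig τ) ≤ finrank ℂ (Fin 0 → ℂ) := Submodule.finrank_le _
        rw [finrank_fin_fun] at h1
        exact Nat.le_zero.mp h1
      have h3 := hD1 τ₀
      rw [h0, h0] at h3
      exact absurd h3 (by decide)
    · exact h
  have hnd : D.Nd := by
    intro z hz
    have := h2 z hz
    simpa only [hmul] using this
  have hall : ∀ X, D.Sk X → X ∈ D.G := fun X hX => uall D hm (fu_of_one D hm hD1) hnd hX
  exact generated hΛ hψ h.endo hD p (fun T hT => core D hm hall T hT) k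

end Pool.MP43e44c.IR
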