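import Pool.Agent.H.MP_43e44c_ag.IR.Crit
import Pool.Agent.H.MP_43e44c_ag.IR.One
import Pool.Agent.H.MP_43e44c_ag.PE.Nz

/-!
CM fields without smaller CM subfields.
-/

set_option autoImplicit false

open NumberField Module

namespace Pool.MP43e44c.IR

variable {K : Type*} [Field K] [NumberField K] [IsCMField K]

/-- The elements `g` such that `τ` and `g τ` are congruent modulo `M` for all translates of `f`. -/
def congSub (f : (K →+* ℂ) → ℤ) (M : ℤ) (τ : K →+* ℂ) : Subgroup (GG K) where
  carrier := {g | ∀ h : GG K, M ∣ f (h • g • τ) - f (h • τ)}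
  one_mem' := by
    intro h
    rw [one_smul, sub_self]
    exact dvd_zero M
  mul_mem' := by
    intro a b ha hb h
    have h1 := hb (h * a)
    have h2 := ha h
    rw [mul_smul, mul_smul] at h1
    rw [mul_smul]
    have h3 := dvd_add h1 h2
    rwa [sub_add_sub_cancel] at h3
  inv_mem' := by
    intro a ha h
    have h1 := ha (h * a⁻¹)
    rw [mul_smul, mul_smul, inv_smul_smul] at h1
    rw [← dvd_neg, neg_sub]
    exact h1

/-- If `K` has no smaller CM subfield then two different embeddings are separated modulo `2 N` by the translates of an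
odd function which is not divisible by `N`. -/
theorem sep_of_sub (hK : ∀ L : Subfield K, L ≤ maximalRealSubfield K ∨ L = ⊤)
    {f : (K →+* ℂ) → ℤ} (hf : ∀ τ, f (ComplexEmbedding.conjugate τ) = -f τ) {N : ℤ}
    {τ₁ : K →+* ℂ} (h1 : ¬ N ∣ f τ₁) {τ t : K →+* ℂ} (hne : t ≠ τ) :
    ∃ g : GG K, ¬ 2 * N ∣ f (g • t) - f (g • τ) := by
  by_contra hcon
  push Not at hcon
  obtain ⟨H, hH⟩ : ∃ H, H = congSub f (2 * N) τ := ⟨_, rfl⟩
  obtain ⟨g₀, hg₀⟩ := MulAction.exists_smul_eq (GG K) τ t
  have hg₀H : g₀ ∈ H := by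
    rw [hH]
    intro h
    rw [hg₀]
    exact hcon h
  have hc : conjG K ∈ H := by
    rcases hK ((IntermediateField.fixedField H).toSubfield.comap (lft τ).toRingHom) with hL | hL
    · rw [← IntermediateField.fixingSubgroup_fixedField H,
        IntermediateField.mem_fixingSubgroup_iff]
      intro y hy
      have hy1 : y ∈ (lft τ).fieldRange := by
        rw [← IsGalois.fixedField_fixingSubgroup (lft τ).fieldRange,
          IntermediateField.mem_fixedField_iff]
        intro g hg
        rw [IntermediateField.mem_fixingSubgroup_iff] at hg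
        have h2 : g • τ = τ := by
          ext x
          rw [smul_apply, hg (lft τ x) ⟨x, rfl⟩, coe_lft]
        have h3 : g ∈ H := by
          rw [hH]
          intro h
          rw [h2, sub_self]
          exact dvd_zero _
        rw [IntermediateField.mem_fixedField_iff] at hy
        exact hy g h3
      obtain ⟨x, rfl⟩ := hy1
      have hx : x ∈ maximalRealSubfield K := hL hy
      apply Subtype.ext
      have h2 : ((conjG K (lft τ x) : GC K) : ℂ) = (conjG K • τ) x := (smul_apply _ _ _).symm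
      have h3 : ((lft τ x : GC K) : ℂ) = τ x := coe_lft τ x
      exact h2.trans (by rw [conjG_smul, conj_apply_real τ hx]; exact h3.symm)
    · exfalso
      apply hne
      ext x
      have hx : x ∈ (IntermediateField.fixedField H).toSubfield.comap (lft τ).toRingHom := by
        rw [hL]
        exact Subfield.mem_top x
      have h2 : (lft τ x) ∈ IntermediateField.fixedField H := hx
      rw [IntermediateField.mem_fixedField_iff] at h2
      rw [← hg₀, smul_apply, h2 g₀ hg₀H, coe_lft]
  obtain ⟨h, hh⟩ := MulAction.exists_smul_eq (GG K) τ τ₁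
  rw [hH] at hc
  have h2 := hc h
  rw [conjG_smul, smul_conj (c := (IsCMField.complexConj K : K →+* K)) (fun ψ => by
    ext x
    exact (IsCMField.complexEmbedding_complexConj K ψ x).symm), hh, hf] at h2
  apply h1
  obtain ⟨q, hq⟩ := h2
  refine ⟨-q, ?_⟩
  have h3 : 2 * (f τ₁ - N * -q) = 0 := by linear_combination -hq
  have h4 := (mul_eq_zero.1 h3).resolve_left two_ne_zero
  linarith

open PE in
/-- For a CM field without smaller CM subfield, one place with coprime different multiplicities: the Hodge rings of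
all powers are generated by divisor classes iff the multiplicities are nondegenerate. -/
theorem main_sub (hK : ∀ L : Subfield K, L ≤ maximalRealSubfield K ∨ L = ⊤)
    {E : Type*} [AddCommGroup E] [Module ℂ E] [Module ℝ E] [IsScalarTower ℝ ℂ E]
    {Λ : AddSubgroup E} {ι : K →+* Module.End ℂ E} (h : HasEndK Λ ι) {τ₁ : K →+* ℂ}
    (hc : Nat.Coprime (mult ι τ₁) (mult ι (cj τ₁))) (hne : mult ι τ₁ ≠ mult ι (cj τ₁)) :
    (∀ k p : ℕ, GeneratedByDivisors (powLattice Λ k) p) ↔ NondegMult (mult ι) := by
  have hadd := mult_add_mult h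
  constructor
  · intro hg
    by_contra hnd
    have h0 : ∃ τ, mult ι τ ≠ 0 := by
      by_contra h0
      push Not at h0
      exact hne (by rw [h0, h0])
    obtain ⟨k, p, hkp⟩ := PE.conv h h0 hnd
    exact hkp (hg k p)
  intro hnd k p
  by_cases h1 : mult ι τ₁ + mult ι (cj τ₁) = 1
  · exact main_cm h (fun τ => by rw [hadd τ τ₁]; exact h1) hnd k p
  have h0 : 0 < mult ι τ₁ ∧ 0 < mult ι (cj τ₁) := by
    constructor
    · by_contra h2
      rw [Nat.le_zero.1 (not_lt.1 h2), Nat.coprime_zero_left] at hc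
      omega
    · by_contra h2
      rw [Nat.le_zero.1 (not_lt.1 h2), Nat.coprime_zero_right] at hc
      omega
  obtain ⟨f, hf⟩ : ∃ f : (K →+* ℂ) → ℤ, ∀ τ, f τ = (mult ι τ : ℤ) - mult ι (cj τ) :=
    ⟨_, fun _ => rfl⟩
  have hodd : ∀ τ, f (ComplexEmbedding.conjugate τ) = -f τ := by
    intro τ
    have e : cj (cj τ) = τ := cj_cj τ
    have h2 := hf (cj τ)
    rw [e] at h2
    rw [hf τ]
    show f (cj τ) = _
    rw [h2]
    ring
  have hN1 : ¬ ((mult ι τ₁ + mult ι (cj τ₁) : ℕ) : ℤ) ∣ f τ₁ := by
    intro h2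
    rw [hf] at h2
    have h3 : (mult ι τ₁ : ℤ) - mult ι (cj τ₁) = 0 := by
      apply Int.eq_zero_of_abs_lt_dvd h2
      rw [abs_lt]
      push_cast
      omega
    apply hne
    have h4 : (mult ι τ₁ : ℤ) = mult ι (cj τ₁) := by linarith
    exact_mod_cast h4
  refine main h ⟨τ₁, hc⟩ hnd (fun τ t ht _ => ?_) k p
  obtain ⟨g, hg⟩ := sep_of_sub hK hodd hN1 ht
  obtain ⟨σ, hσ⟩ := exists_autC g
  refine ⟨σ, ?_, ?_⟩
  · rw [hσ, hσ]
    intro h2
    apply hg
    have h3 := hadd (g • t) (g • τ)
    have h4 : mult ι (cj (g • t)) = mult ι (cj (g • τ)) := by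
      have h5 : mult ι (g • t) + mult ι (cj (g • t)) = mult ι (g • τ) + mult ι (cj (g • τ)) := h3
      omega
    rw [hf, hf, h2, h4, sub_self]
    exact dvd_zero _
  · rw [hσ, hσ]
    rintro ⟨h2, h3⟩
    apply hg
    have h4 : mult ι (g • t) + mult ι (cj (g • t)) = mult ι τ₁ + mult ι (cj τ₁) := hadd _ _
    have h5 : mult ι (g • τ) + mult ι (cj (g • τ)) = mult ι τ₁ + mult ι (cj τ₁) := hadd _ _
    have h2' : mult ι (g • τ) * mult ι (cj (g • τ)) = 0 := h2
    have h3' : mult ι (g • t) * mult ι (cj (g • t)) = 0 := h3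
    rw [hf, hf]
    rcases Nat.mul_eq_zero.1 h2' with h6 | h6 <;> rcases Nat.mul_eq_zero.1 h3' with h7 | h7
    · refine ⟨0, ?_⟩
      rw [h6, h7]
      push_cast
      omega
    · refine ⟨1, ?_⟩
      rw [h6, h7]
      push_cast
      omega
    · refine ⟨-1, ?_⟩
      rw [h6, h7]
      push_cast
      omega
    · refine ⟨0, ?_⟩
      rw [h6, h7]
      push_cast
      omega

end Pool.MP43e44c.IR
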