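import Pool.Agent.H.MP_43e44c_ag.IR.Four
import Pool.Agent.H.MP_43e44c_ag.IR.Sub
import Pool.Agent.H.MP_43e44c_ag.IR.Dim

/-!
CM fields whose odd functions form an irreducible representation.
-/

set_option autoImplicit false

open NumberField Module

namespace Pool.MP43e44c

/-- The rational functions `z` on the set of embeddings of `K` with `z(conj τ) = - z(τ)` form an irreducible
representation of the automorphism group of `ℂ` over `ℚ`: every nonzero invariant subspace contains all of them. -/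
def OddIrreducible (K : Type*) [Field K] : Prop :=
  ∀ W : Submodule ℚ ((K →+* ℂ) → ℚ),
    (∀ z ∈ W, ∀ τ, z (ComplexEmbedding.conjugate τ) = -z τ) →
    (∀ z ∈ W, ∀ σ : ℂ ≃+* ℂ, (fun τ => z ((σ : ℂ →+* ℂ).comp τ)) ∈ W) → W ≠ ⊥ →
    ∀ z : (K →+* ℂ) → ℚ, (∀ τ, z (ComplexEmbedding.conjugate τ) = -z τ) → z ∈ W

namespace IR

open NT

variable {K : Type*} [Field K] [NumberField K]

/-- The translates of a nonzero odd rational function span all of them. -/
theorem span_of_irr [IsCMField K] (hK : OddIrreducible K) {f : (K →+* ℂ) → ℚ}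
    (hf : ∀ τ, f (ComplexEmbedding.conjugate τ) = -f τ) (h0 : f ≠ 0) {z : (K →+* ℂ) → ℚ}
    (hz : ∀ τ, z (ComplexEmbedding.conjugate τ) = -z τ) :
    z ∈ Submodule.span ℚ (Set.range fun (σ : ℂ ≃+* ℂ) (τ : K →+* ℂ) =>
      f ((σ : ℂ →+* ℂ).comp τ)) := by
  refine hK _ ?_ ?_ ?_ z hz
  · intro w hw
    induction hw using Submodule.span_induction with
    | mem w hw =>
      obtain ⟨σ, rfl⟩ := hw
      intro τ
      have h1 : (σ : ℂ →+* ℂ).comp (ComplexEmbedding.conjugate τ) =
          ComplexEmbedding.conjugate ((σ : ℂ →+* ℂ).comp τ) := PE.tw_cj σ τ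
      simp only [h1, hf]
    | zero => intro τ; simp
    | add a b _ _ ha hb =>
      intro τ
      rw [Pi.add_apply, Pi.add_apply, ha, hb]
      ring
    | smul c a _ ha =>
      intro τ
      rw [Pi.smul_apply, Pi.smul_apply, ha, smul_neg]
  · intro w hw s
    induction hw using Submodule.span_induction with
    | mem w hw =>
      obtain ⟨σ, rfl⟩ := hw
      exact Submodule.subset_span ⟨s.trans σ, rfl⟩
    | zero => exact Submodule.zero_mem _
    | add a b _ _ ha hb => exact Submodule.add_mem _ ha hb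
    | smul c a _ ha => exact Submodule.smul_mem _ c ha
  · intro hbot
    apply h0
    have h1 : f ∈ (⊥ : Submodule ℚ ((K →+* ℂ) → ℚ)) := by
      rw [← hbot]
      exact Submodule.subset_span ⟨RingEquiv.refl ℂ, rfl⟩
    exact (Submodule.mem_bot ℚ).1 h1

/-- The multiplicities are nondegenerate unless all pairs of conjugate ones are equal. -/
theorem mult_nd_irr [IsCMField K] (hK : OddIrreducible K) {m : (K →+* ℂ) → ℕ} {τ₀ : K →+* ℂ}
    (h0 : m τ₀ ≠ m (ComplexEmbedding.conjugate τ₀)) : NondegMult m := by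
  classical
  intro z hz
  obtain ⟨S, hS⟩ : ∃ S : Submodule ℂ ((K →+* ℂ) → ℂ), S = Submodule.span ℂ
      (Set.range fun (σ : ℂ ≃+* ℂ) (τ : K →+* ℂ) => (m ((σ : ℂ →+* ℂ).comp τ) : ℂ) -
        (m (ComplexEmbedding.conjugate ((σ : ℂ →+* ℂ).comp τ)) : ℂ)) := ⟨_, rfl⟩
  rw [← hS]
  have hcc : ∀ τ : K →+* ℂ, ComplexEmbedding.conjugate (ComplexEmbedding.conjugate τ) = τ :=
    PE.cj_cj
  -- rational odd functions are in the span
  have hq : ∀ w : (K →+* ℂ) → ℚ, (∀ τ, w (ComplexEmbedding.conjugate τ) = -w τ) →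
      (fun τ => (w τ : ℂ)) ∈ S := by
    intro w hw
    have h1 := span_of_irr hK
      (f := fun τ => (m τ : ℚ) - (m (ComplexEmbedding.conjugate τ) : ℚ)) (fun τ => by
        simp only [hcc]
        ring) (fun h2 => h0 (by
          have h3 := congrFun h2 τ₀
          simp only [Pi.zero_apply, sub_eq_zero] at h3
          exact_mod_cast h3)) hw
    clear hw
    induction h1 using Submodule.span_induction with
    | mem w hw =>
      obtain ⟨σ, rfl⟩ := hw
      rw [hS]
      refine Submodule.subset_span ⟨σ, ?_⟩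
      funext τ
      push_cast
      rfl
    | zero =>
      have h3 : (fun τ => (((0 : (K →+* ℂ) → ℚ) τ : ℚ) : ℂ)) = (0 : (K →+* ℂ) → ℂ) := by
        funext τ
        simp
      rw [h3]
      exact S.zero_mem
    | add a b _ _ ha hb =>
      have h2 := S.add_mem ha hb
      have h3 : (fun τ => (((a + b) τ : ℚ) : ℂ)) = (fun τ => (a τ : ℂ)) + fun τ => (b τ : ℂ) := by
        funext τ
        rw [Pi.add_apply, Pi.add_apply]
        push_cast
        rfl
      rw [h3]
      exact h2
    | smul c a _ ha =>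
      have h2 := S.smul_mem (c : ℂ) ha
      have h3 : (fun τ => (((c • a) τ : ℚ) : ℂ)) = (c : ℂ) • fun τ => (a τ : ℂ) := by
        funext τ
        rw [Pi.smul_apply, Pi.smul_apply, smul_eq_mul, smul_eq_mul]
        push_cast
        rfl
      rw [h3]
      exact h2
  have key : z = ∑ t : K →+* ℂ, ((1 / 2 : ℂ) * z t) •
      (fun τ => (((if τ = t then (1 : ℚ) else 0) -
        (if τ = ComplexEmbedding.conjugate t then (1 : ℚ) else 0) : ℚ) : ℂ)) := by
    funext x
    rw [Finset.sum_apply]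
    have h1 : ∀ t : K →+* ℂ, (((1 / 2 : ℂ) * z t) •
        (fun τ => (((if τ = t then (1 : ℚ) else 0) -
          (if τ = ComplexEmbedding.conjugate t then (1 : ℚ) else 0) : ℚ) : ℂ))) x =
        (if t = x then (1 / 2 : ℂ) * z t else 0) -
          (if t = ComplexEmbedding.conjugate x then (1 / 2 : ℂ) * z t else 0) := by
      intro t
      have e1 : (x = t) ↔ (t = x) := eq_comm
      have e2 : (x = ComplexEmbedding.conjugate t) ↔ (t = ComplexEmbedding.conjugate x) := by
        constructor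
        · intro h; rw [h, hcc]
        · intro h; rw [h, hcc]
      simp only [Pi.smul_apply, smul_eq_mul, e1, e2]
      split_ifs <;> push_cast <;> ring
    rw [Finset.sum_congr rfl fun t _ => h1 t, Finset.sum_sub_distrib, Finset.sum_ite_eq',
      Finset.sum_ite_eq', if_pos (Finset.mem_univ _), if_pos (Finset.mem_univ _), hz]
    ring
  rw [key]
  refine S.sum_mem fun t _ => S.smul_mem _ (hq _ fun τ => ?_)
  have e1 : (ComplexEmbedding.conjugate τ = t) ↔ (τ = ComplexEmbedding.conjugate t) := by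
    constructor
    · intro h; rw [← h, hcc]
    · intro h; rw [h, hcc]
  have e2 : (ComplexEmbedding.conjugate τ = ComplexEmbedding.conjugate t) ↔ (τ = t) := by
    constructor
    · intro h; rw [← hcc τ, h, hcc]
    · intro h; rw [h]
  simp only [e1, e2]
  ring

/-- All CM types are nondegenerate. -/
theorem type_nd_irr [IsCMField K] (hK : OddIrreducible K) {Φ : Finset (K →+* ℂ)}
    (hΦ : IsCMType Φ) : 2 * finrank ℚ (conjSpan (GG K) Φ) = finrank ℚ K + 2 := by
  classical
  have hP : ∀ x : K →+* ℂ, x ∈ Φ ↔ conjG K • x ∉ Φ := fun x => by rw [conjG_smul]; exact hΦ x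
  have hcc : ∀ τ : K →+* ℂ, ComplexEmbedding.conjugate (ComplexEmbedding.conjugate τ) = τ :=
    PE.cj_cj
  obtain ⟨f, hf⟩ : ∃ f : (K →+* ℂ) → ℤ, f = fun x => if x ∈ Φ then (1 : ℤ) else -1 := ⟨_, rfl⟩
  have hodd : ∀ τ, f (ComplexEmbedding.conjugate τ) = -f τ := by
    intro x
    rw [hf]
    by_cases hx : x ∈ Φ
    · simp only [if_pos hx, if_neg ((hΦ x).1 hx)]
    · have h2 : ComplexEmbedding.conjugate x ∈ Φ := by
        by_contra h3
        exact hx ((hΦ x).2 h3)
      simp only [if_neg hx, if_pos h2, neg_neg]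
  obtain ⟨φ₀⟩ : Nonempty (K →+* ℂ) := inferInstance
  have hf0 : f φ₀ ≠ 0 := by
    rw [hf]
    show (if φ₀ ∈ Φ then (1 : ℤ) else -1) ≠ 0
    split_ifs <;> decide
  have hnd : Nd (conjG K) ⊤ f := by
    intro w hw
    have hwodd : ∀ τ, w (ComplexEmbedding.conjugate τ) = -w τ := fun τ => by
      rw [← conjG_smul]
      exact hw.odd τ
    have hspan := span_of_irr hK (f := fun τ => (f τ : ℚ)) (fun τ => by
      rw [hodd]
      push_cast
      rfl) (fun h => hf0 (by
        have h1 := congrFun h φ₀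
        simp only [Pi.zero_apply] at h1
        exact_mod_cast h1)) (z := fun τ => (w τ : ℚ)) (fun τ => by
      rw [hwodd]
      push_cast
      rfl)
    have hall : ∀ u : (K →+* ℂ) → ℚ, u ∈ Submodule.span ℚ
        (Set.range fun (σ : ℂ ≃+* ℂ) (τ : K →+* ℂ) => ((f ((σ : ℂ →+* ℂ).comp τ) : ℤ) : ℚ)) →
        ∑ x, u x * (w x : ℚ) = 0 := by
      intro u hu
      induction hu using Submodule.span_induction with
      | mem u hu =>
        obtain ⟨σ, rfl⟩ := hu
        obtain ⟨g, hg⟩ := exists_gg (K := K) σ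
        have h1 := hw.orth g⁻¹ (Subgroup.mem_top _)
        have h2 : ∑ x, f x * w (g⁻¹ • x) = ∑ x, f (g • x) * w x := by
          refine (Fintype.sum_equiv (MulAction.toPerm g) _ _ fun x => ?_).symm
          rw [MulAction.toPerm_apply, inv_smul_smul]
        rw [h2] at h1
        have h3 : ((∑ x, f (g • x) * w x : ℤ) : ℚ) = 0 := by rw [h1, Int.cast_zero]
        rw [← h3]
        push_cast
        refine Finset.sum_congr rfl fun x _ => ?_
        rw [hg]
      | zero => simp
      | add a b _ _ ha hb =>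
        simp only [Pi.add_apply, add_mul, Finset.sum_add_distrib, ha, hb, add_zero]
      | smul c a _ ha =>
        simp only [Pi.smul_apply, smul_eq_mul, mul_assoc, ← Finset.mul_sum, ha, mul_zero]
    have h4 := hall _ hspan
    funext x
    have h5 := (Finset.sum_eq_zero_iff_of_nonneg (s := Finset.univ)
      (f := fun x => (w x : ℚ) * (w x : ℚ)) (fun x _ => mul_self_nonneg _)).1 h4 x
      (Finset.mem_univ x)
    have h6 : (w x : ℚ) = 0 := mul_self_eq_zero.1 h5
    rw [Pi.zero_apply]
    exact_mod_cast h6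
  rw [hf] at hnd
  have h1 := (nd_iff_finrank (cc_field (K := K)) (P := Φ) hP).1 hnd
  rw [h1, NumberField.Embeddings.card K ℂ]

/-- No smaller CM subfield. -/
theorem sub_of_irr [IsCMField K] (hK : OddIrreducible K) (L : Subfield K) :
    L ≤ maximalRealSubfield K ∨ L = ⊤ := by
  classical
  by_contra hcon
  rw [not_or] at hcon
  obtain ⟨h1, h2⟩ := hcon
  have hcc : ∀ τ : K →+* ℂ, ComplexEmbedding.conjugate (ComplexEmbedding.conjugate τ) = τ :=
    PE.cj_cj
  obtain ⟨L', hL'⟩ : ∃ L' : IntermediateField ℚ K, ∀ x, x ∈ L' ↔ x ∈ L :=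
    ⟨L.toIntermediateField (fun q => by
      rw [eq_ratCast]
      exact SubfieldClass.ratCast_mem L q), fun x => Iff.rfl⟩
  have hL'' : L' ≠ ⊤ := by
    intro h
    apply h2
    rw [eq_top_iff]
    intro x _
    rw [← hL', h]
    exact IntermediateField.mem_top
  obtain ⟨φ, ψ, hne, hφψ⟩ := flda_exists_ne hL''
  obtain ⟨x, hxL, hxF⟩ : ∃ x ∈ L, x ∉ maximalRealSubfield K := by
    by_contra h
    push Not at h
    exact h1 h
  obtain ⟨τ₀⟩ : Nonempty (K →+* ℂ) := inferInstance
  -- the invariant subspace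
  let W : Submodule ℚ ((K →+* ℂ) → ℚ) :=
    { carrier := {z | (∀ τ, z (ComplexEmbedding.conjugate τ) = -z τ) ∧
        ∀ τ t : K →+* ℂ, (∀ y ∈ L, τ y = t y) → z τ = z t}
      add_mem' := by
        rintro a b ⟨ha, ha'⟩ ⟨hb, hb'⟩
        refine ⟨fun τ => ?_, fun τ t h => ?_⟩
        · rw [Pi.add_apply, Pi.add_apply, ha, hb]
          ring
        · rw [Pi.add_apply, Pi.add_apply, ha' τ t h, hb' τ t h]
      zero_mem' := ⟨fun τ => by simp, fun _ _ _ => rfl⟩
      smul_mem' := by
        rintro c a ⟨ha, ha'⟩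
        refine ⟨fun τ => ?_, fun τ t h => ?_⟩
        · rw [Pi.smul_apply, Pi.smul_apply, ha, smul_neg]
        · rw [Pi.smul_apply, Pi.smul_apply, ha' τ t h] }
  have hW : ∀ z, z ∈ W ↔ (∀ τ, z (ComplexEmbedding.conjugate τ) = -z τ) ∧
      ∀ τ t : K →+* ℂ, (∀ y ∈ L, τ y = t y) → z τ = z t := fun z => Iff.rfl
  have hconj : ∀ τ t : K →+* ℂ, (∀ y ∈ L, ComplexEmbedding.conjugate τ y = t y) ↔
      ∀ y ∈ L, τ y = ComplexEmbedding.conjugate t y := by
    intro τ t
    refine forall₂_congr fun y _ => ?_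
    show starRingEnd ℂ (τ y) = t y ↔ τ y = starRingEnd ℂ (t y)
    constructor
    · intro h; rw [← h, Complex.conj_conj]
    · intro h; rw [h, Complex.conj_conj]
  have hne0 : ¬ ∀ y ∈ L, τ₀ y = ComplexEmbedding.conjugate τ₀ y := by
    intro h
    apply hxF
    rw [← IsCMField.complexConj_eq_self_iff]
    apply τ₀.injective
    rw [IsCMField.complexEmbedding_complexConj]
    exact (h x hxL).symm
  have hz : (fun τ : K →+* ℂ => (if ∀ y ∈ L, τ y = τ₀ y then (1 : ℚ) else 0) -
      (if ∀ y ∈ L, τ y = ComplexEmbedding.conjugate τ₀ y then (1 : ℚ) else 0)) ∈ W := by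
    rw [hW]
    refine ⟨fun τ => ?_, fun τ t h => ?_⟩
    · have e2 : (∀ y ∈ L, ComplexEmbedding.conjugate τ y = ComplexEmbedding.conjugate τ₀ y) ↔
          ∀ y ∈ L, τ y = τ₀ y := by
        rw [hconj, hcc]
      simp only [hconj τ τ₀, e2]
      ring
    · have e1 : (∀ y ∈ L, τ y = τ₀ y) ↔ ∀ y ∈ L, t y = τ₀ y :=
        forall₂_congr fun y hy => by rw [h y hy]
      have e2 : (∀ y ∈ L, τ y = ComplexEmbedding.conjugate τ₀ y) ↔
          ∀ y ∈ L, t y = ComplexEmbedding.conjugate τ₀ y :=
        forall₂_congr fun y hy => by rw [h y hy]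
      simp only [e1, e2]
  have hWbot : W ≠ ⊥ := by
    intro h
    rw [h, Submodule.mem_bot] at hz
    have h3 := congrFun hz τ₀
    simp only [Pi.zero_apply, if_neg hne0] at h3
    simp at h3
  have hfin := hK W (fun z hz => ((hW z).1 hz).1) (fun z hz σ => by
      obtain ⟨h3, h4⟩ := (hW z).1 hz
      rw [hW]
      refine ⟨fun τ => ?_, fun τ t h => ?_⟩
      · have h5 : (σ : ℂ →+* ℂ).comp (ComplexEmbedding.conjugate τ) =
            ComplexEmbedding.conjugate ((σ : ℂ →+* ℂ).comp τ) := PE.tw_cj σ τ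
        rw [h5, h3]
      · exact h4 _ _ fun y hy => congrArg σ (h y hy)) hWbot
    (fun τ => (if τ = φ then (1 : ℚ) else 0) - (if τ = ComplexEmbedding.conjugate φ then 1 else 0))
    (fun τ => by
      have e1 : (ComplexEmbedding.conjugate τ = φ) ↔ (τ = ComplexEmbedding.conjugate φ) := by
        constructor
        · intro h; rw [← h, hcc]
        · intro h; rw [h, hcc]
      have e2 : (ComplexEmbedding.conjugate τ = ComplexEmbedding.conjugate φ) ↔ (τ = φ) := by
        constructor
        · intro h; rw [← hcc τ, h, hcc]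
        · intro h; rw [h]
      simp only [e1, e2]
      ring)
  have h5 := ((hW _).1 hfin).2 φ ψ fun y hy => hφψ y ((hL' y).2 hy)
  have h6 : φ ≠ ComplexEmbedding.conjugate φ := fun h => PE.cj_ne φ h.symm
  simp only [if_neg h6, if_neg (Ne.symm hne), if_true] at h5
  split_ifs at h5 <;> norm_num at h5

end IR

end Pool.MP43e44c
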