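import Pool.Agent.H.MP_43e44c_ag.IR.Irr
import Pool.Agent.H.MP_43e44c_ag.PE.Conv

/-!
Necessity of the irreducibility: degenerate multiplicities.
-/

set_option autoImplicit false

open NumberField Module

namespace Pool.MP43e44c.IR

variable {K : Type*} [Field K] [NumberField K]

/-- A nonzero even-valued integral function in a nonzero rational subspace. -/
theorem exists_int {W : Submodule ℚ ((K →+* ℂ) → ℚ)} (h0 : W ≠ ⊥) :
    ∃ f : (K →+* ℂ) → ℤ, f ≠ 0 ∧ (∀ τ, 2 ∣ f τ) ∧ (fun τ => (f τ : ℚ)) ∈ W := by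
  classical
  obtain ⟨z, hz, hz0⟩ := (Submodule.ne_bot_iff W).1 h0
  obtain ⟨d, hd⟩ : ∃ d : ℕ, d = ∏ τ : K →+* ℂ, (z τ).den := ⟨_, rfl⟩
  have hd0 : d ≠ 0 := by
    rw [hd]
    exact Finset.prod_ne_zero_iff.2 fun τ _ => (z τ).den_nz
  have h1 : ∀ τ, ∃ a : ℤ, (a : ℚ) = d * z τ := by
    intro τ
    obtain ⟨e, he⟩ : (z τ).den ∣ d := by
      rw [hd]
      exact Finset.dvd_prod_of_mem (fun τ : K →+* ℂ => (z τ).den) (Finset.mem_univ τ)
    refine ⟨e * (z τ).num, ?_⟩
    have h2 : (z τ).den * z τ = (z τ).num := Rat.den_mul_eq_num (z τ)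
    rw [he]
    push_cast
    rw [← h2]
    ring
  choose a ha using h1
  refine ⟨fun τ => 2 * a τ, ?_, fun τ => ⟨a τ, rfl⟩, ?_⟩
  · intro h
    apply hz0
    funext τ
    have h2 := congrFun h τ
    simp only [Pi.zero_apply] at h2
    have h3 : a τ = 0 := by omega
    have h4 := ha τ
    rw [h3, Int.cast_zero] at h4
    rcases mul_eq_zero.1 h4.symm with h5 | h5
    · exact absurd (by exact_mod_cast h5) hd0
    · exact h5
  · have h2 : (fun τ => ((2 * a τ : ℤ) : ℚ)) = (2 * d : ℚ) • z := by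
      funext τ
      rw [Pi.smul_apply, smul_eq_mul]
      push_cast
      rw [ha]
      ring
    rw [h2]
    exact W.smul_mem _ hz

/-- If the odd functions are reducible there are positive degenerate multiplicities which are coprime and different at
one place. -/
theorem exists_deg (hK : ¬ OddIrreducible K) : ∃ m : (K →+* ℂ) → ℕ,
    (∀ τ t, m τ + m (ComplexEmbedding.conjugate τ) = m t + m (ComplexEmbedding.conjugate t)) ∧
    (∀ τ, 2 ≤ m τ) ∧
    (∃ τ, Nat.Coprime (m τ) (m (ComplexEmbedding.conjugate τ)) ∧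
      m τ ≠ m (ComplexEmbedding.conjugate τ)) ∧ ¬ NondegMult m := by
  classical
  unfold OddIrreducible at hK
  push Not at hK
  obtain ⟨W, hW, hG, h0, z, hz, hzW⟩ := hK
  obtain ⟨f, hf0, hf2, hfW⟩ := exists_int h0
  have hodd : ∀ τ, f (ComplexEmbedding.conjugate τ) = -f τ := by
    intro τ
    have h1 : (f (ComplexEmbedding.conjugate τ) : ℚ) = -(f τ : ℚ) := hW _ hfW τ
    exact_mod_cast h1
  obtain ⟨τ₁, hτ₁⟩ : ∃ τ, 0 < f τ := by
    by_contra h
    push Not at h
    apply hf0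
    funext τ
    have h1 := h τ
    have h2 := h (ComplexEmbedding.conjugate τ)
    rw [hodd] at h2
    show f τ = 0
    omega
  obtain ⟨S, hS⟩ : ∃ S : ℤ, S = 1 + ∑ τ : K →+* ℂ, |f τ| := ⟨_, rfl⟩
  have hSle : ∀ τ, |f τ| + 1 ≤ S := fun τ => by
    have h1 := Finset.single_le_sum (f := fun τ : K →+* ℂ => |f τ|) (fun _ _ => abs_nonneg _)
      (Finset.mem_univ τ)
    omega
  obtain ⟨q, hq⟩ := hf2 τ₁
  have hSpos : 0 ≤ S := by
    have h1 := hSle τ₁
    have h2 := abs_nonneg (f τ₁)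
    omega
  obtain ⟨b, hb⟩ : ∃ b : ℤ, b = 1 + f τ₁ * S := ⟨_, rfl⟩
  have hbS : S + 1 ≤ b := by
    rw [hb]
    nlinarith
  have hpos : ∀ τ, 2 ≤ b + f τ := fun τ => by
    have h1 := neg_abs_le (f τ)
    have h2 := hSle τ
    omega
  have hm : ∀ τ, (((b + f τ).toNat : ℕ) : ℤ) = b + f τ := fun τ => Int.toNat_of_nonneg ((by norm_num : (0 : ℤ) ≤ 2).trans (hpos τ))
  refine ⟨fun τ => (b + f τ).toNat, ?_, ?_, ⟨τ₁, ?_, ?_⟩, ?_⟩
  · intro τ t
    have h1 := hm τ
    have h2 := hm t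
    have h3 := hm (ComplexEmbedding.conjugate τ)
    have h4 := hm (ComplexEmbedding.conjugate t)
    rw [hodd] at h3 h4
    simp only [hodd]
    omega
  · intro τ
    have h1 := hm τ
    have h2 := hpos τ
    simp only
    omega
  · show Nat.Coprime (b + f τ₁).toNat (b + f (ComplexEmbedding.conjugate τ₁)).toNat
    rw [← Nat.isCoprime_iff_coprime, hm, hm, hodd]
    -- `b + f` is odd and congruent to one modulo `f`
    have h1 : IsCoprime (b + f τ₁) (f τ₁) := by
      refine ⟨1, -(S + 1), ?_⟩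
      rw [hb]
      ring
    have h2 : IsCoprime (b + f τ₁) 2 := by
      refine ⟨1, -(q * (S + 1)), ?_⟩
      rw [hb, hq]
      ring
    have h3 : IsCoprime (b + f τ₁) (2 * f τ₁) := h2.mul_right h1
    obtain ⟨u, v, huv⟩ := h3
    exact ⟨u + v, -v, by linear_combination huv⟩
  · intro h
    have h1 := hm τ₁
    have h2 := hm (ComplexEmbedding.conjugate τ₁)
    simp only at h
    rw [h, h2, hodd] at h1
    omega
  · intro hnd
    -- a functional vanishing on `W` but not at `z`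
    obtain ⟨φ, hφz, hφW⟩ := Submodule.exists_le_ker_of_notMem hzW
    have hφ : ∀ u : (K →+* ℂ) → ℚ, φ u = ∑ τ, u τ * φ (Pi.single τ 1) := by
      intro u
      rw [LinearMap.pi_apply_eq_sum_univ φ u]
      refine Finset.sum_congr rfl fun τ _ => ?_
      rw [smul_eq_mul]
      congr 2
      funext t
      rw [Pi.single_apply]
      simp only [eq_comm]
    have hzS := hnd (fun τ => (z τ : ℂ)) (fun τ => by
      rw [hz]
      push_cast
      rfl)
    have hall : ∀ u : (K →+* ℂ) → ℂ, u ∈ Submodule.span ℂ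
        (Set.range fun (σ : ℂ ≃+* ℂ) (τ : K →+* ℂ) =>
          (((b + f ((σ : ℂ →+* ℂ).comp τ)).toNat : ℕ) : ℂ) -
          (((b + f (ComplexEmbedding.conjugate ((σ : ℂ →+* ℂ).comp τ))).toNat : ℕ) : ℂ)) →
        ∑ τ, u τ * (φ (Pi.single τ 1) : ℂ) = 0 := by
      intro u hu
      induction hu using Submodule.span_induction with
      | mem u hu =>
        obtain ⟨σ, rfl⟩ := hu
        have h1 := hφW (hG _ hfW σ)
        rw [LinearMap.mem_ker, hφ] at h1
        have h2 : ∀ τ : K →+* ℂ, (((b + f ((σ : ℂ →+* ℂ).comp τ)).toNat : ℕ) : ℂ) -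
            (((b + f (ComplexEmbedding.conjugate ((σ : ℂ →+* ℂ).comp τ))).toNat : ℕ) : ℂ) =
            2 * ((f ((σ : ℂ →+* ℂ).comp τ) : ℤ) : ℂ) := by
          intro τ
          have h3 := hm ((σ : ℂ →+* ℂ).comp τ)
          have h4 := hm (ComplexEmbedding.conjugate ((σ : ℂ →+* ℂ).comp τ))
          rw [hodd] at h4
          rw [hodd]
          have h5 : (((b + f ((σ : ℂ →+* ℂ).comp τ)).toNat : ℤ)) -
              ((b + -f ((σ : ℂ →+* ℂ).comp τ)).toNat : ℤ) = 2 * f ((σ : ℂ →+* ℂ).comp τ) := by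
            rw [h3, h4]
            ring
          exact_mod_cast h5
        have h4 : ∀ τ ∈ (Finset.univ : Finset (K →+* ℂ)),
            ((((b + f ((σ : ℂ →+* ℂ).comp τ)).toNat : ℕ) : ℂ) -
            (((b + f (ComplexEmbedding.conjugate ((σ : ℂ →+* ℂ).comp τ))).toNat : ℕ) : ℂ)) *
              (φ (Pi.single τ 1) : ℂ) =
            2 * (((f ((σ : ℂ →+* ℂ).comp τ) : ℤ) : ℂ) * (φ (Pi.single τ 1) : ℂ)) := fun τ _ => by
          rw [h2 τ, mul_assoc]
        rw [Finset.sum_congr rfl h4, ← Finset.mul_sum]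
        have h3 : ((∑ τ : K →+* ℂ, ((f ((σ : ℂ →+* ℂ).comp τ) : ℤ) : ℚ) *
            φ (Pi.single τ 1) : ℚ) : ℂ) = 0 := by rw [h1, Rat.cast_zero]
        push_cast at h3
        rw [h3, mul_zero]
      | zero => simp
      | add a b _ _ ha hb =>
        simp only [Pi.add_apply, add_mul, Finset.sum_add_distrib, ha, hb, add_zero]
      | smul c a _ ha =>
        simp only [Pi.smul_apply, smul_eq_mul, mul_assoc, ← Finset.mul_sum, ha, mul_zero]
    have h1 := hall _ hzS
    apply hφz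
    rw [hφ]
    have h2 : ((∑ τ : K →+* ℂ, z τ * φ (Pi.single τ 1) : ℚ) : ℂ) = 0 := by
      push_cast
      exact h1
    exact_mod_cast h2

end Pool.MP43e44c.IR
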