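import Pool.Agent.H.MP_43e44c_ag.IR.Grp
import Pool.Agent.H.MP_43e44c_ag.PE.Main

/-!
Not all places are definite if the sum of the multiplicities is at least two.
-/

set_option autoImplicit false

open NumberField Module Matrix

namespace Pool.MP43e44c.IR

open PE

section Lin

/-- A vector space all of whose endomorphisms are scalars has dimension at most one. -/
theorem finrank_le_one_of_scalar {K V : Type*} [Field K] [AddCommGroup V] [Module K V]
    (h : ∀ f : V →ₗ[K] V, ∃ a : K, ∀ v, f v = a • v) : finrank K V ≤ 1 := by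
  by_cases h0 : ∀ v : V, v = 0
  · have : Subsingleton V := ⟨fun a b => by rw [h0 a, h0 b]⟩
    rw [finrank_zero_of_subsingleton]
    omega
  push Not at h0
  obtain ⟨v, hv⟩ := h0
  have h1 : ¬ ∀ φ : Dual K V, φ v = 0 := fun h2 => hv ((forall_dual_apply_eq_zero_iff K v).1 h2)
  push Not at h1
  obtain ⟨φ, hφ⟩ := h1
  obtain ⟨a, ha⟩ := h (φ.smulRight v)
  have h2 := ha v
  rw [LinearMap.smulRight_apply] at h2
  have h3 : φ v = a := by
    have h4 : (φ v - a) • v = 0 := by rw [sub_smul, h2, sub_self]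
    rcases smul_eq_zero.1 h4 with h5 | h5
    · exact sub_eq_zero.1 h5
    · exact absurd h5 hv
  refine finrank_le_one v fun w => ⟨(φ v)⁻¹ * φ w, ?_⟩
  have h4 := ha w
  rw [LinearMap.smulRight_apply, ← h3] at h4
  rw [mul_smul, h4, smul_smul, inv_mul_cancel₀ hφ, one_smul]

end Lin

variable {m : ℕ} {K : Type*} [Field K] [NumberField K] [IsCMField K] (D : Dat K m)

/-- The dimension is the number of embeddings times the sum of the multiplicities. -/
theorem dim_eq (N : ℕ) (hN : ∀ τ, D.mul τ + D.mul (cj τ) = N) : m = finrank ℚ K * N := by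
  have h1 : (∑ t, D.e t : Mat m ℂ).trace = (m : ℂ) := by
    rw [e_sum, Matrix.trace_one, Fintype.card_fin]
  rw [Matrix.trace_sum] at h1
  have h2 : ∀ t ∈ (Finset.univ : Finset (K →+* ℂ)), (D.e t).trace = (N : ℂ) := fun t _ => by
    rw [trace_e, hN]
  rw [Finset.sum_congr rfl h2, Finset.sum_const, Finset.card_univ,
    NumberField.Embeddings.card K ℂ, nsmul_eq_mul] at h1
  exact_mod_cast h1.symm

theorem eP_cases {τ : K →+* ℂ} (h : D.mul τ = 0 ∨ D.mul (cj τ) = 0) :
    D.e τ * D.P = 0 ∨ D.e τ * D.P = D.e τ := by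
  have key : ∀ t, D.mul t = 0 → D.e t * D.P = 0 := by
    intro t ht
    have h1 : D.eig t = ⊥ := Submodule.finrank_eq_zero.1 ht
    apply (toLin' : Matrix (Fin m) (Fin m) ℂ ≃ₗ[ℂ] _).injective
    refine LinearMap.ext fun v => ?_
    have h2 := (Sig_isProj D t).map_mem v
    rw [h1, Submodule.mem_bot] at h2
    rw [h2, map_zero, LinearMap.zero_apply]
  rcases h with h | h
  · exact Or.inl (key τ h)
  · right
    have h1 := key _ h
    have h2 : D.e τ * (1 - D.P) = PE.act (starRingAut : ℂ ≃+* ℂ) (D.e (cj τ) * D.P) := by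
      have h3 : PE.act (starRingAut : ℂ ≃+* ℂ) (D.e (cj τ) * D.P) =
          PE.act (starRingAut : ℂ ≃+* ℂ) (D.e (cj τ)) * PE.act (starRingAut : ℂ ≃+* ℂ) D.P :=
        Matrix.map_mul (f := ((starRingAut : ℂ ≃+* ℂ) : ℂ →+* ℂ))
      rw [h3, act_e, Sig_tw_star, cj_cj, Sig_act_P]
    rw [h1] at h2
    have h4 : PE.act (starRingAut : ℂ ≃+* ℂ) (0 : Mat m ℂ) = 0 := by
      ext i j
      simp
    rw [h4, mul_sub, mul_one, sub_eq_zero] at h2
    exact h2.symm

/-- If all places are definite then every rational matrix which commutes with `K` is in `K`. -/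
theorem J_comm_of_def (hdef : ∀ τ, D.mul τ = 0 ∨ D.mul (cj τ) = 0) {M : Mat m ℚ}
    (hM : ∀ a, M * D.ρ a = D.ρ a * M) : D.J * qr M = qr M * D.J := by
  have h1 : ∀ τ, qc M * D.e τ = D.e τ * qc M := (comm_iff D (qc M)).1 fun a => by
    rw [← map_mul, hM, map_mul]
  have h2 : D.P * qc M = qc M * D.P := by
    have h3 : D.P = ∑ τ, D.e τ * D.P := by rw [← Finset.sum_mul, e_sum, one_mul]
    rw [h3, Finset.sum_mul, Finset.mul_sum]
    refine Finset.sum_congr rfl fun τ _ => ?_
    rcases eP_cases D (hdef τ) with h4 | h4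
    · rw [h4, zero_mul, mul_zero]
    · rw [h4, h1]
  have h3 : rc D.J = Complex.I • ((2 : ℂ) • D.P - 1) := by
    unfold Dat.P
    rw [smul_smul, mul_one_div_cancel (two_ne_zero' ℂ), one_smul, sub_sub_cancel_left, smul_neg,
      smul_smul, Complex.I_mul_I, neg_smul, one_smul, neg_neg]
  have h4 : rc D.J * qc M = qc M * rc D.J := by
    rw [h3, smul_mul_assoc, mul_smul_comm, sub_mul, mul_sub, smul_mul_assoc, mul_smul_comm, h2,
      one_mul, mul_one]
  rw [← Sig_rc_qr, ← map_mul, ← map_mul] at h4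
  exact Matrix.map_injective (algebraMap ℝ ℂ).injective h4

/-- If all places are definite, the sum of the multiplicities is at most one. -/
theorem le_one_of_def (hdef : ∀ τ, D.mul τ = 0 ∨ D.mul (cj τ) = 0) {N : ℕ}
    (hN : ∀ τ, D.mul τ + D.mul (cj τ) = N) : N ≤ 1 := by
  have hdim := dim_eq D N hN
  let f : K →+* Module.End ℚ (Fin m → ℚ) :=
    ((toLinAlgEquiv' : Mat m ℚ ≃ₐ[ℚ] _) : Mat m ℚ →+* Module.End ℚ (Fin m → ℚ)).comp D.ρ
  let _ : Module K (Fin m → ℚ) := Module.compHom (Fin m → ℚ) f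
  have hs : ∀ (a : K) (v : Fin m → ℚ), a • v = D.ρ a *ᵥ v := fun a v => rfl
  have _ : IsScalarTower ℚ K (Fin m → ℚ) := ⟨fun q a v => by
    rw [hs, hs, Algebra.smul_def, map_mul]
    have h1 : D.ρ (algebraMap ℚ K q) = algebraMap ℚ (Mat m ℚ) q := by
      have h2 : D.ρ.comp (algebraMap ℚ K) = algebraMap ℚ (Mat m ℚ) := Subsingleton.elim _ _
      exact congrArg (fun g : ℚ →+* Mat m ℚ => g q) h2
    rw [h1, ← Algebra.smul_def, smul_mulVec]⟩
  have h1 : finrank K (Fin m → ℚ) ≤ 1 := by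
    refine finrank_le_one_of_scalar fun g => ?_
    have hg : ∀ v, LinearMap.toMatrix' (g.restrictScalars ℚ) *ᵥ v = g v := fun v => by
      rw [LinearMap.toMatrix'_mulVec]
      rfl
    obtain ⟨a, ha⟩ := D.comm (LinearMap.toMatrix' (g.restrictScalars ℚ)) (J_comm_of_def D hdef
      (fun a => by
        apply (toLin' : Matrix (Fin m) (Fin m) ℚ ≃ₗ[ℚ] _).injective
        refine LinearMap.ext fun v => ?_
        rw [toLin'_apply, toLin'_apply, ← mulVec_mulVec, ← mulVec_mulVec, hg, hg, ← hs, ← hs,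
          map_smul]))
    refine ⟨a, fun v => ?_⟩
    rw [hs, ha, hg]
  have h2 : finrank ℚ K * finrank K (Fin m → ℚ) = m := by
    rw [Module.finrank_mul_finrank ℚ K (Fin m → ℚ), finrank_fin_fun]
  have h3 : 0 < finrank ℚ K := finrank_pos
  have h4 : finrank ℚ K * finrank K (Fin m → ℚ) = finrank ℚ K * N := by rw [h2, ← hdim]
  have h5 := Nat.eq_of_mul_eq_mul_left h3 h4
  omega

end Pool.MP43e44c.IR
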